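import Pool.Agent.Helper3.LimitR

/-!
Boundedness and convergence of the normalised densities.
-/

namespace Pool.Agent.Helper3.Turan

open Finset Pool.Agent.Helper4.Turan Filter Topology
open scoped Classical

/-- the normalised densities are bounded -/
lemma nu_bdd {R : ℕ} (hR : 1 ≤ R) : ∃ M : ℝ, 1 ≤ M ∧ ∀ j, nu R j ≤ M := by
  obtain ⟨x0, hx0⟩ := exists_ring' (η := 1) one_pos
  -- T1 large
  set T1 : ℝ := 4 * R + 2 ^ R * 128 with hT1
  have hR1 : (1 : ℝ) ≤ R := by exact_mod_cast hR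
  have h2R : (1 : ℝ) ≤ 2 ^ R := one_le_pow₀ (by norm_num)
  have hT1pos : 0 < T1 := by positivity
  have herr := (tendsto_err R (a := 1/2) (b := 1/2) (by norm_num) (by norm_num)
    (by norm_num)).eventually (gt_mem_nhds (zero_lt_one))
  have hlarge : ∀ᶠ k : ℕ in atTop, x0 ≤ (1/2 : ℝ) * ((k + R : ℕ) : ℝ) / T1 := by
    have h1 : Tendsto (fun k : ℕ => (1/2 : ℝ) * ((k + R : ℕ) : ℝ) / T1) atTop atTop := by
      refine Tendsto.atTop_div_const hT1pos (Tendsto.const_mul_atTop (by norm_num) ?_)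
      exact tendsto_natCast_atTop_atTop.comp (tendsto_add_atTop_nat R)
    exact h1.eventually_ge_atTop _
  obtain ⟨k0, hk0⟩ := eventually_atTop.1 (herr.and hlarge)
  set M : ℝ := max (((k0 + R).choose R : ℕ) : ℝ) (2 * (1 + 2 * (2 * T1) ^ R)) with hM
  have hM1 : 1 ≤ M := by
    refine le_trans ?_ (le_max_left _ _)
    exact_mod_cast Nat.choose_pos (Nat.le_add_left R k0)
  refine ⟨M, hM1, fun k => ?_⟩
  induction k using Nat.strong_induction_on with
  | _ k ih =>
    by_cases hk : k < k0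
    · refine le_trans ?_ (le_max_left _ _)
      unfold nu
      have h1 : ((k + R).choose R : ℝ) ≤ ((k0 + R).choose R : ℝ) := by
        exact_mod_cast Nat.choose_le_choose R (by omega)
      have h2 := tau_le_one R k
      have h3 := tau_nonneg R k
      calc ((k + R).choose R : ℝ) * tau R k ≤ ((k + R).choose R : ℝ) * 1 :=
            mul_le_mul_of_nonneg_left h2 (Nat.cast_nonneg _)
        _ ≤ _ := by rw [mul_one]; exact h1
    · push Not at hk
      obtain ⟨he, hx⟩ := hk0 k hk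
      obtain ⟨Λ, i1, i2, i3, hΛ, hQ1, hQ2, hQu⟩ := hx0 _ hx
      set Q : ℝ := (Fintype.card Λ : ℝ) with hQdef
      set u : ℝ := (Fintype.card Λˣ : ℝ) with hudef
      set N : ℝ := ((k + R : ℕ) : ℝ) with hN
      have hNpos : 0 < N := by rw [hN]; exact_mod_cast (by omega : 0 < k + R)
      have hQpos : 0 < Q := by
        rw [hQdef]; exact_mod_cast Fintype.card_pos
      have hupos : 0 < u := by rw [hudef]; exact_mod_cast Fintype.card_pos
      -- T = N p
      set T : ℝ := N * ((1/2) / Q) with hT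
      have hTle : T ≤ T1 := by
        rw [hT]
        have h1 : (1/2 : ℝ) * N ≤ Q * T1 := by
          rw [div_le_iff₀ hT1pos] at hQ1; exact hQ1
        calc N * ((1/2) / Q) = ((1/2) * N) / Q := by ring
          _ ≤ T1 := by rw [div_le_iff₀ hQpos]; linarith
      have hTge : T1 / 2 ≤ T := by
        rw [hT]
        have h1 : Q * T1 ≤ (1 + 1) * ((1/2 : ℝ) * N) := by
          have h2 := mul_le_mul_of_nonneg_right hQ2 hT1pos.le
          have e : (1 + 1) * ((1/2 : ℝ) * N / T1) * T1 = (1 + 1) * ((1/2 : ℝ) * N) := by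
            field_simp
          linarith
        calc T1 / 2 ≤ ((1/2) * N) / Q := by
              rw [le_div_iff₀ hQpos]; linarith
          _ = N * ((1/2) / Q) := by ring
      have hTpos : 0 < T := by linarith [half_pos hT1pos]
      have hcT : (R : ℝ) + T1 / 4 ≤ T := by
        have h3 : (R : ℝ) ≤ T1 / 4 := by rw [hT1]; linarith
        linarith
      have hstep := stepA (R := R) (k := k) (c := T1 / 4) hR Λ hΛ (a := 1/2) (b := 1/2)
        (by norm_num) (by norm_num) (by norm_num) (M := M) (by linarith) ih (by positivity) hcT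
      rw [← hQdef, ← hudef] at hstep
      -- bound the first sum
      have hp0 : 0 ≤ (1/2 : ℝ) / Q := by positivity
      have hp1 : (1/2 : ℝ) / Q ≤ 1 := by
        rw [div_le_iff₀ hQpos]
        have : (1:ℝ) ≤ Q := by
          rw [hQdef]; exact_mod_cast (Fintype.card_pos : 0 < Fintype.card Λ)
        linarith
      have hS := S1_le_one (R := R) (k := k) hp0 hp1
      have hS0 := S1_nonneg (R := R) (k := k) hp0 hp1
      have hfirst : (1 / Q ^ R) * (((k + R).choose R : ℝ) * S1 R k ((1/2) / Q)) ≤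
          (2 * T1) ^ R := by
        have h4 : ((k + R).choose R : ℝ) ≤ N ^ R := by
          rw [hN]; exact_mod_cast Nat.choose_le_pow (k + R) R
        have h5 : N / Q ≤ 2 * T1 := by
          have : N / Q = 2 * T := by rw [hT]; ring
          linarith
        calc (1 / Q ^ R) * (((k + R).choose R : ℝ) * S1 R k ((1/2) / Q))
            ≤ (1 / Q ^ R) * (N ^ R * 1) := by
              refine mul_le_mul_of_nonneg_left ?_ (by positivity)
              exact mul_le_mul h4 hS hS0 (by positivity)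
          _ = (N / Q) ^ R := by rw [div_pow]; ring
          _ ≤ (2 * T1) ^ R := pow_le_pow_left₀ (by positivity) h5 R
      have hsecond : M / (1/2 : ℝ) ^ R * (T / (T1 / 4) ^ 2) ≤ M / 8 := by
        have e1 : M / (1/2 : ℝ) ^ R = M * 2 ^ R := by
          rw [one_div, inv_pow, div_inv_eq_mul]
        rw [e1]
        have h6 : T / (T1 / 4) ^ 2 ≤ 16 / T1 := by
          rw [div_le_div_iff₀ (by positivity) hT1pos]
          have : T * T1 ≤ T1 * T1 := mul_le_mul_of_nonneg_right hTle hT1pos.le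
          nlinarith
        have h7 : 2 ^ R * (16 / T1) ≤ 1 / 8 := by
          rw [mul_div_assoc', div_le_div_iff₀ hT1pos (by norm_num)]
          rw [hT1]
          linarith
        calc M * 2 ^ R * (T / (T1 / 4) ^ 2) ≤ M * 2 ^ R * (16 / T1) :=
              mul_le_mul_of_nonneg_left h6 (by positivity)
          _ = M * (2 ^ R * (16 / T1)) := by ring
          _ ≤ M * (1 / 8) := mul_le_mul_of_nonneg_left h7 (by linarith)
          _ = M / 8 := by ring
      have hQu' : Q / u ≤ 2 := by linarith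
      have hQu0 : 0 ≤ Q / u := by positivity
      have hf0 : 0 ≤ (1 / Q ^ R) * (((k + R).choose R : ℝ) * S1 R k ((1/2) / Q)) := by positivity
      have h8 : (Q / u) * ((1 / Q ^ R) * (((k + R).choose R : ℝ) * S1 R k ((1/2) / Q))) ≤
          2 * (2 * T1) ^ R := mul_le_mul hQu' hfirst hf0 (by norm_num)
      have h9 : (Q / u) * (M / (1/2 : ℝ) ^ R * (T / (T1 / 4) ^ 2)) ≤ 2 * (M / 8) :=
        mul_le_mul hQu' hsecond (by positivity) (by norm_num)
      have h10 : 2 * (1 + 2 * (2 * T1) ^ R) ≤ M := le_max_right _ _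
      have he' : ((k + R).choose R : ℝ) * ((1/2 : ℝ) ^ k + (1/2) ^ k) < 1 := he
      linarith

/-- the key claim: if infinitely many values are below `m`, then the upper limit is at most `m` -/
lemma key_claim {R : ℕ} (hR : 1 ≤ R) {m : ℝ} (hm : ∃ᶠ j in atTop, nu R j < m) {ε : ℝ}
    (hε : 0 < ε) : ∀ᶠ k in atTop, nu R k ≤ m + ε := by
  obtain ⟨M, hM1, hM⟩ := nu_bdd hR
  have hR1 : (1 : ℝ) ≤ R := by exact_mod_cast hR
  obtain ⟨jm, hjm⟩ := hm.exists
  have hm1 : 1 < m := lt_of_le_of_lt (one_le_nu R jm) hjm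
  have hm0 : 0 < m := by linarith
  -- choice of `θ`
  obtain ⟨θ, hθ0, hθ1, hθ⟩ : ∃ θ : ℝ, 0 < θ ∧ θ < 1 / 2 ∧
      (1 + θ / 6) * (1 / (1 - θ) ^ R * ((1 + θ) ^ R * m)) < m + ε / 4 := by
    have hcont : ContinuousAt (fun θ : ℝ => (1 + θ / 6) * (1 / (1 - θ) ^ R * ((1 + θ) ^ R * m))) 0 := by
      refine ContinuousAt.mul (by fun_prop) (ContinuousAt.mul ?_ (by fun_prop))
      refine ContinuousAt.div (by fun_prop) (by fun_prop) ?_
      simp
    have h0 : (fun θ : ℝ => (1 + θ / 6) * (1 / (1 - θ) ^ R * ((1 + θ) ^ R * m))) 0 < m + ε / 4 := by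
      simp only [zero_div, add_zero, sub_zero, one_pow, div_one, one_mul]
      linarith
    have h1 := hcont.eventually_lt_const h0
    have h2 : ∀ᶠ θ : ℝ in 𝓝 0, θ < 1 / 2 := eventually_lt_nhds (by norm_num)
    have h3 : ∀ᶠ θ : ℝ in 𝓝[>] 0, (1 + θ / 6) * (1 / (1 - θ) ^ R * ((1 + θ) ^ R * m)) < m + ε / 4 ∧
        θ < 1 / 2 := (h1.and h2).filter_mono nhdsWithin_le_nhds
    obtain ⟨θ, h4, h5⟩ := (h3.and self_mem_nhdsWithin).exists
    exact ⟨θ, h5, h4.2, h4.1⟩
  set a : ℝ := 1 - θ with ha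
  have ha0 : 0 < a := by linarith
  set K : ℝ := 2 * ((1 / a ^ R + 1 / θ ^ R) * (M * (72 / θ ^ 2))) with hK
  have hK0 : 0 < K := by positivity
  -- choice of `j0`
  obtain ⟨j0, hj0m, hj0⟩ : ∃ j0 : ℕ, nu R j0 < m ∧
      max (6 * R / θ) (2 * K / ε) ≤ (j0 : ℝ) := by
    have h1 : ∀ᶠ j : ℕ in atTop, max (6 * R / θ) (2 * K / ε) ≤ (j : ℝ) :=
      tendsto_natCast_atTop_atTop.eventually_ge_atTop _
    exact (hm.and_eventually h1).exists
  set J : ℝ := (j0 : ℝ) + 1 with hJ
  have hJpos : 0 < J := by positivity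
  have hJ1 : 6 * R / θ ≤ J := by
    have := (le_max_left _ _).trans hj0
    linarith
  have hJ2 : 2 * K / ε ≤ J := by
    have := (le_max_right _ _).trans hj0
    linarith
  have hθJ : 6 * R ≤ θ * J := by
    rw [div_le_iff₀ hθ0] at hJ1; linarith
  -- the window
  set j1 : ℕ := ⌊(1 + θ) * J⌋₊ - 1 with hj1
  have hfl : 1 ≤ ⌊(1 + θ) * J⌋₊ := by
    refine Nat.le_floor ?_
    push_cast
    nlinarith
  have hj1a : (j1 : ℝ) + 1 ≤ (1 + θ) * J := by
    have h1 : (⌊(1 + θ) * J⌋₊ : ℝ) ≤ (1 + θ) * J := Nat.floor_le (by positivity)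
    have h2 : ((j1 + 1 : ℕ) : ℝ) = (⌊(1 + θ) * J⌋₊ : ℝ) := by
      congr 1; omega
    push_cast at h2
    linarith
  have hj1b : (1 + θ) * J ≤ (j1 : ℝ) + 2 := by
    have h1 : (1 + θ) * J < (⌊(1 + θ) * J⌋₊ : ℝ) + 1 := Nat.lt_floor_add_one _
    have h2 : ((j1 + 1 : ℕ) : ℝ) = (⌊(1 + θ) * J⌋₊ : ℝ) := by
      congr 1; omega
    push_cast at h2
    linarith
  have hwin : ∀ j, j0 ≤ j → j ≤ j1 → nu R j ≤ (1 + θ) ^ R * m := by
    intro j h1 h2
    have h3 : (j : ℝ) + 1 ≤ (1 + θ) * ((j0 : ℝ) + 1) := by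
      have : (j : ℝ) ≤ j1 := by exact_mod_cast h2
      linarith
    refine (nu_le_of_le R h1 h3).trans ?_
    exact mul_le_mul_of_nonneg_left hj0m.le (by positivity)
  set c : ℝ := θ * J / 6 with hc
  have hc0 : 0 < c := by positivity
  set T1 : ℝ := (1 + 2 * θ / 3) * J with hT1
  have hT1pos : 0 < T1 := by positivity
  obtain ⟨x0, hx0⟩ := exists_ring' (η := θ / 6) (by positivity)
  have herr := (tendsto_err R (a := a) (b := θ) ha0 hθ0 (by rw [ha]; ring)).eventually
    (gt_mem_nhds (half_pos (half_pos hε)))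
  have hlarge : ∀ᶠ k : ℕ in atTop, x0 ≤ a * ((k + R : ℕ) : ℝ) / T1 := by
    have h1 : Tendsto (fun k : ℕ => a * ((k + R : ℕ) : ℝ) / T1) atTop atTop := by
      refine Tendsto.atTop_div_const hT1pos (Tendsto.const_mul_atTop ha0 ?_)
      exact tendsto_natCast_atTop_atTop.comp (tendsto_add_atTop_nat R)
    exact h1.eventually_ge_atTop _
  filter_upwards [herr, hlarge] with k he hx
  obtain ⟨Λ, i1, i2, i3, hΛ, hQ1, hQ2, hQu⟩ := hx0 _ hx
  set Q : ℝ := (Fintype.card Λ : ℝ) with hQdef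
  set u : ℝ := (Fintype.card Λˣ : ℝ) with hudef
  set N : ℝ := ((k + R : ℕ) : ℝ) with hN
  have hNpos : 0 < N := by rw [hN]; exact_mod_cast (by omega : 0 < k + R)
  have hQpos : 0 < Q := by
    rw [hQdef]; exact_mod_cast Fintype.card_pos
  have hupos : 0 < u := by rw [hudef]; exact_mod_cast Fintype.card_pos
  set T : ℝ := N * (a / Q) with hT
  have hTle : T ≤ T1 := by
    rw [hT]
    have h1 : a * N ≤ Q * T1 := by
      rw [div_le_iff₀ hT1pos] at hQ1; exact hQ1
    calc N * (a / Q) = (a * N) / Q := by ring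
      _ ≤ T1 := by rw [div_le_iff₀ hQpos]; linarith
  have hTge : T1 ≤ (1 + θ / 6) * T := by
    have h1 : Q * T1 ≤ (1 + θ / 6) * (a * N) := by
      have h2 := mul_le_mul_of_nonneg_right hQ2 hT1pos.le
      have e : (1 + θ / 6) * (a * N / T1) * T1 = (1 + θ / 6) * (a * N) := by
        field_simp
      linarith
    have e : (1 + θ / 6) * T = ((1 + θ / 6) * (a * N)) / Q := by rw [hT]; ring
    rw [e, le_div_iff₀ hQpos]
    linarith
  have hTge2 : (1 + θ / 3) * J ≤ T := by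
    have h1 : (1 + θ / 6) * ((1 + θ / 3) * J) ≤ T1 := by
      rw [hT1]
      have : (1 + θ / 6) * (1 + θ / 3) ≤ 1 + 2 * θ / 3 := by nlinarith
      nlinarith
    have h2 : 0 < 1 + θ / 6 := by positivity
    exact le_of_mul_le_mul_left (h1.trans hTge) h2
  have hTpos : 0 < T := lt_of_lt_of_le (by positivity) hTge2
  have hT2J : T ≤ 2 * J := by
    refine hTle.trans ?_
    rw [hT1]; nlinarith
  have hlo : (j0 : ℝ) + R + c ≤ T := by
    rw [hc]
    have : (j0 : ℝ) = J - 1 := by rw [hJ]; ring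
    rw [this]
    nlinarith
  have hhi : T ≤ (j1 : ℝ) + R - c := by
    rw [hc]
    have h1 : T1 = J + 2 * (θ * J) / 3 := by rw [hT1]; ring
    have h2 : (1 + θ) * J = J + θ * J := by ring
    nlinarith
  have hTc : T / c ^ 2 ≤ (72 / θ ^ 2) / J := by
    rw [hc, div_le_div_iff₀ (by positivity) hJpos]
    have e : 72 / θ ^ 2 * (θ * J / 6) ^ 2 = 2 * J * J := by
      field_simp
      ring
    rw [e]
    exact mul_le_mul_of_nonneg_right hT2J hJpos.le
  have hlo' : (R : ℝ) + c ≤ T := by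
    have : (0 : ℝ) ≤ j0 := Nat.cast_nonneg _
    linarith
  have hstep := stepA (R := R) (k := k) (c := c) hR Λ hΛ (a := a) (b := θ)
    ha0 hθ0 (by rw [ha]; ring) (M := M) (by linarith) (fun j _ => hM j) hc0 hlo'
  rw [← hQdef, ← hudef] at hstep
  have hp0 : 0 < a / Q := by positivity
  have hp1 : a / Q ≤ 1 := by
    rw [div_le_iff₀ hQpos]
    have : (1:ℝ) ≤ Q := by
      rw [hQdef]; exact_mod_cast (Fintype.card_pos : 0 < Fintype.card Λ)
    linarith
  have hw := window_sum (R := R) (k := k) (p := a / Q) hp0 hp1 (M := M) (m := (1 + θ) ^ R * m)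
    (c := c) (j0 := j0) (j1 := j1) hc0 (by positivity) (by linarith) (fun j _ => hM j) hwin hlo hhi
  have hfirst : (1 / Q ^ R) * (((k + R).choose R : ℝ) * S1 R k (a / Q)) ≤
      1 / a ^ R * ((1 + θ) ^ R * m + M * (T / c ^ 2)) := by
    rw [choose_S1 hp0]
    have e1 : 1 / Q ^ R * (1 / (a / Q) ^ R * ∑ j ∈ range k, beta (k + R) (a / Q) (j + R) * nu R j) =
        1 / a ^ R * ∑ j ∈ range k, beta (k + R) (a / Q) (j + R) * nu R j := by
      rw [div_pow]
      have : Q ^ R ≠ 0 := (pow_pos hQpos R).ne'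
      have : a ^ R ≠ 0 := (pow_pos ha0 R).ne'
      field_simp
    rw [e1]
    exact mul_le_mul_of_nonneg_left hw (by positivity)
  have hQu0 : 0 ≤ Q / u := by positivity
  have hS0 := S1_nonneg (R := R) (k := k) hp0.le hp1
  have h8 : (Q / u) * ((1 / Q ^ R) * (((k + R).choose R : ℝ) * S1 R k (a / Q))) ≤
      (1 + θ / 6) * (1 / a ^ R * ((1 + θ) ^ R * m + M * (T / c ^ 2))) :=
    mul_le_mul hQu hfirst (by positivity) (by positivity)
  have h9 : (Q / u) * (M / θ ^ R * (T / c ^ 2)) ≤ (1 + θ / 6) * (M / θ ^ R * (T / c ^ 2)) :=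
    mul_le_mul_of_nonneg_right hQu (by positivity)
  have h10 : (1 + θ / 6) * (1 / a ^ R * ((1 + θ) ^ R * m + M * (T / c ^ 2))) +
      (1 + θ / 6) * (M / θ ^ R * (T / c ^ 2)) =
      (1 + θ / 6) * (1 / a ^ R * ((1 + θ) ^ R * m)) +
      (1 + θ / 6) * ((1 / a ^ R + 1 / θ ^ R) * (M * (T / c ^ 2))) := by ring
  have h11 : (1 + θ / 6) * ((1 / a ^ R + 1 / θ ^ R) * (M * (T / c ^ 2))) ≤ K / J := by
    have h12 : (1 / a ^ R + 1 / θ ^ R) * (M * (T / c ^ 2)) ≤
        (1 / a ^ R + 1 / θ ^ R) * (M * ((72 / θ ^ 2) / J)) := by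
      refine mul_le_mul_of_nonneg_left ?_ (by positivity)
      exact mul_le_mul_of_nonneg_left hTc (by linarith)
    calc (1 + θ / 6) * ((1 / a ^ R + 1 / θ ^ R) * (M * (T / c ^ 2)))
        ≤ 2 * ((1 / a ^ R + 1 / θ ^ R) * (M * ((72 / θ ^ 2) / J))) :=
          mul_le_mul (by linarith) h12 (by positivity) (by norm_num)
      _ = K / J := by rw [hK]; ring
  have h13 : K / J ≤ ε / 2 := by
    rw [div_le_div_iff₀ hJpos (by norm_num)]
    rw [div_le_iff₀ hε] at hJ2
    linarith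
  have he' : ((k + R).choose R : ℝ) * (a ^ k + θ ^ k) < ε / 2 / 2 := he
  have hθ' : (1 + θ / 6) * (1 / a ^ R * ((1 + θ) ^ R * m)) < m + ε / 4 := hθ
  linarith

/-- convergence of the normalised densities -/
theorem exists_tendsto_nu {R : ℕ} (hR : 1 ≤ R) :
    ∃ L : ℝ, 1 ≤ L ∧ Tendsto (nu R) atTop (𝓝 L) := by
  obtain ⟨M, hM1, hM⟩ := nu_bdd hR
  set S : Set ℝ := {m | ∀ᶠ k in atTop, nu R k ≤ m} with hS
  have hSM : M ∈ S := Eventually.of_forall hM
  have hSb : ∀ m ∈ S, 1 ≤ m := by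
    intro m hm
    obtain ⟨k, hk⟩ := (hm : ∀ᶠ k in atTop, nu R k ≤ m).exists
    exact (one_le_nu R k).trans hk
  have hSbdd : BddBelow S := ⟨1, hSb⟩
  refine ⟨sInf S, le_csInf ⟨M, hSM⟩ hSb, ?_⟩
  rw [Metric.tendsto_atTop']
  suffices h : ∀ ε > 0, ∀ᶠ k in atTop, dist (nu R k) (sInf S) < ε by
    intro ε hε
    obtain ⟨N, hN⟩ := eventually_atTop.1 (h ε hε)
    exact ⟨N, fun n hn => hN n hn.le⟩
  intro ε hε
  have hup : ∀ᶠ k in atTop, nu R k ≤ sInf S + ε / 2 := by
    obtain ⟨m, hm, hm2⟩ := exists_lt_of_csInf_lt ⟨M, hSM⟩ (lt_add_of_pos_right (sInf S) (half_pos hε))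
    filter_upwards [(hm : ∀ᶠ k in atTop, nu R k ≤ m)] with k hk
    linarith
  have hlo : ∀ᶠ k in atTop, sInf S - ε / 2 ≤ nu R k := by
    by_contra hcon
    rw [not_eventually] at hcon
    have h1 : ∃ᶠ k in atTop, nu R k < sInf S - ε / 2 := hcon.mono fun k hk => not_le.1 hk
    have h2 := key_claim hR h1 (half_pos (half_pos hε))
    have h3 : sInf S - ε / 2 + ε / 2 / 2 ∈ S := h2
    have h4 := csInf_le hSbdd h3
    linarith
  filter_upwards [hup, hlo] with k h1 h2
  rw [Real.dist_eq, abs_lt]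
  constructor <;> linarith

end Pool.Agent.Helper3.Turan
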