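import Pool.Agent.Helper4.Density
import Pool.Agent.Helper3.LimitFinal
/-! The limit constant for `t(k+R,k)` and the bound for `R = 1` (helper3, helper4). -/
namespace Pool.Agent.Helper3.Turan
open Filter

theorem limit_constant :
    ∀ R : ℕ, 1 ≤ R →
      (∀ k : ℕ, Filter.Tendsto
        (fun n : ℕ => (Pool.Agent.Helper1.Turan.exNum k (k + R) n : ℝ) / (n.choose k : ℝ))
        Filter.atTop (nhds (Pool.Agent.Helper1.Turan.turanDensity k (k + R)))) ∧
      ∃ L : ℝ, 1 ≤ L ∧ (R = 1 → L ≤ 21 / 10) ∧ Filter.Tendsto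
        (fun k : ℕ => ((k + R).choose R : ℝ) *
          (1 - Pool.Agent.Helper1.Turan.turanDensity k (k + R)))
        Filter.atTop (nhds L) := by
  intro R hR
  refine ⟨fun k => Pool.Agent.Helper1.Turan.tendsto_turanDensity (Nat.le_add_right k R), ?_⟩
  obtain ⟨L, h1, h2⟩ := Pool.Agent.Helper3.Turan.exists_tendsto_nu hR
  refine ⟨L, h1, ?_, h2⟩
  rintro rfl
  obtain ⟨r0, hr0⟩ := Pool.Agent.Helper4.Turan.density_asymp
  refine le_of_tendsto h2 ?_
  filter_upwards [eventually_ge_atTop r0] with k hk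
  have h := hr0 k hk
  have hc : ((k + 1).choose 1 : ℝ) = (k : ℝ) + 1 := by
    rw [Nat.choose_one_right]; push_cast; ring
  change ((k + 1).choose 1 : ℝ) * (1 - Pool.Agent.Helper1.Turan.turanDensity k (k + 1)) ≤ 21 / 10
  rw [hc]
  have hk1 : (0 : ℝ) < (k : ℝ) + 1 := by positivity
  have e : 21 / (10 * ((k : ℝ) + 1)) * ((k : ℝ) + 1) = 21 / 10 := by field_simp
  nlinarith

end Pool.Agent.Helper3.Turan
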