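import Pool.Agent.Helper4.Star

/-!
Finite rings `F_{2^a} × F_{3^b}`: their orders are multiplicatively dense.
-/

namespace Pool.Agent.Helper3.Turan

open Finset Pool.Agent.Helper4.Turan
open scoped Classical

lemma smooth_aux {p q m k : ℕ} (hp : 2 ≤ p) (hq : 2 ≤ q) (h : p ^ m < q ^ k) (N : ℕ) :
    ∃ x0 : ℝ, ∀ x : ℝ, x0 ≤ x → ∃ a b : ℕ, N ≤ a ∧ N ≤ b ∧ x ≤ (p : ℝ) ^ a * (q : ℝ) ^ b ∧
      (p : ℝ) ^ a * (q : ℝ) ^ b ≤ ((q : ℝ) ^ k / (p : ℝ) ^ m) * x := by
  have hp1 : (1 : ℝ) < p := by exact_mod_cast (by omega : 1 < p)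
  have hq1 : (1 : ℝ) < q := by exact_mod_cast (by omega : 1 < q)
  have hp0 : (0 : ℝ) < p := by linarith
  have hq0 : (0 : ℝ) < q := by linarith
  set rho : ℝ := (q : ℝ) ^ k / (p : ℝ) ^ m with hrho
  have hrho1 : 1 < rho := by
    rw [hrho, one_lt_div (pow_pos hp0 _)]
    exact_mod_cast h
  have hrho0 : 0 < rho := by linarith
  obtain ⟨T, hT⟩ := pow_unbounded_of_one_lt (p : ℝ) hrho1
  refine ⟨(p : ℝ) ^ (N + m * T) * (q : ℝ) ^ N, fun x hx => ?_⟩
  have hqN : (0 : ℝ) < (q : ℝ) ^ N := pow_pos hq0 _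
  have hx' : (p : ℝ) ^ (N + m * T) ≤ x / (q : ℝ) ^ N := by
    rw [le_div_iff₀ hqN]; exact hx
  have hx1 : (1 : ℝ) ≤ x / (q : ℝ) ^ N := le_trans (one_le_pow₀ hp1.le) hx'
  obtain ⟨a0, ha1, ha2⟩ := exists_nat_pow_near hx1 hp1
  have ha0 : N + m * T ≤ a0 := by
    by_contra hcon
    push Not at hcon
    have h5 : (p : ℝ) ^ (a0 + 1) ≤ (p : ℝ) ^ (N + m * T) :=
      pow_le_pow_right₀ hp1.le (by omega)
    linarith
  set q0 : ℝ := (p : ℝ) ^ a0 * (q : ℝ) ^ N with hq0'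
  have hq0pos : 0 < q0 := by positivity
  have hy1 : (1 : ℝ) ≤ x / q0 := by
    rw [le_div_iff₀ hq0pos, one_mul, hq0']
    rw [le_div_iff₀ hqN] at ha1
    exact ha1
  have hy2 : x / q0 < p := by
    rw [div_lt_iff₀ hq0pos, hq0']
    rw [div_lt_iff₀ hqN, pow_succ] at ha2
    linarith
  obtain ⟨t, ht1, ht2⟩ := exists_nat_pow_near hy1 hrho1
  have ht : t < T := by
    by_contra hcon
    push Not at hcon
    have h7 : rho ^ T ≤ rho ^ t := pow_le_pow_right₀ hrho1.le hcon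
    linarith
  have hmt : m * (t + 1) ≤ m * T := Nat.mul_le_mul_left m (by omega)
  have hform : (p : ℝ) ^ (a0 - m * (t + 1)) * (q : ℝ) ^ (N + k * (t + 1)) =
      q0 * rho ^ (t + 1) := by
    have e1 : (p : ℝ) ^ a0 = (p : ℝ) ^ (a0 - m * (t + 1)) * ((p : ℝ) ^ m) ^ (t + 1) := by
      rw [← pow_mul, ← pow_add]; congr 1; omega
    have e2 : (q : ℝ) ^ (N + k * (t + 1)) = (q : ℝ) ^ N * ((q : ℝ) ^ k) ^ (t + 1) := by
      rw [pow_add, pow_mul]
    have e3 : rho ^ (t + 1) * ((p : ℝ) ^ m) ^ (t + 1) = ((q : ℝ) ^ k) ^ (t + 1) := by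
      have e4 : rho * (p : ℝ) ^ m = (q : ℝ) ^ k := div_mul_cancel₀ _ (pow_pos hp0 _).ne'
      rw [← mul_pow, e4]
    rw [hq0', e1, e2, ← e3]; ring
  refine ⟨a0 - m * (t + 1), N + k * (t + 1), by omega, by omega, ?_, ?_⟩
  · rw [hform]
    rw [div_lt_iff₀ hq0pos] at ht2
    linarith
  · rw [hform, pow_succ]
    rw [le_div_iff₀ hq0pos] at ht1
    nlinarith

lemma exists_close {η : ℝ} (hη : 0 < η) :
    ∃ m k : ℕ, (2 ^ m < 3 ^ k ∧ (3 : ℝ) ^ k / (2 : ℝ) ^ m ≤ 1 + η) ∨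
      (3 ^ k < 2 ^ m ∧ (2 : ℝ) ^ m / (3 : ℝ) ^ k ≤ 1 + η) := by
  have hl2 : 0 < Real.log 2 := Real.log_pos (by norm_num)
  have hl3 : 0 < Real.log 3 := Real.log_pos (by norm_num)
  have hlη : 0 < Real.log (1 + η) := Real.log_pos (by linarith)
  obtain ⟨n, hn⟩ := exists_nat_gt (Real.log 2 / Real.log (1 + η))
  obtain ⟨j, k, hk0, -, hjk⟩ := Real.exists_int_int_abs_mul_sub_le (Real.log 3 / Real.log 2)
    (n := n + 1) (by omega)
  -- `|k log 3 - j log 2| ≤ log (1 + η)`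
  have hbound : |(k : ℝ) * Real.log 3 - (j : ℝ) * Real.log 2| ≤ Real.log (1 + η) := by
    have h1 : (k : ℝ) * Real.log 3 - (j : ℝ) * Real.log 2 =
        ((k : ℝ) * (Real.log 3 / Real.log 2) - j) * Real.log 2 := by
      field_simp
    rw [h1, abs_mul, abs_of_pos hl2]
    have h2 : Real.log 2 < n * Real.log (1 + η) := by
      rw [div_lt_iff₀ hlη] at hn; exact hn
    have h3 : (0:ℝ) < ((n + 1 : ℕ) : ℝ) + 1 := by positivity
    calc |(k : ℝ) * (Real.log 3 / Real.log 2) - j| * Real.log 2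
        ≤ 1 / (((n + 1 : ℕ) : ℝ) + 1) * Real.log 2 :=
          mul_le_mul_of_nonneg_right hjk hl2.le
      _ ≤ Real.log (1 + η) := by
          rw [div_mul_eq_mul_div, div_le_iff₀ h3, one_mul]
          push_cast
          nlinarith
  have hj0 : 0 < j := by
    by_contra hcon
    push Not at hcon
    have h4 : (j : ℝ) ≤ 0 := by exact_mod_cast hcon
    have h5 : (1 : ℝ) ≤ k := by exact_mod_cast hk0
    have h6 : |(k : ℝ) * (Real.log 3 / Real.log 2) - j| ≤ 1 / 2 := by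
      refine hjk.trans ?_
      rw [div_le_div_iff₀ (by positivity) (by norm_num)]
      push_cast
      have : (0 : ℝ) ≤ n := Nat.cast_nonneg n
      linarith
    have h7 : 1 ≤ Real.log 3 / Real.log 2 := by
      rw [le_div_iff₀ hl2, one_mul]
      exact Real.log_le_log (by norm_num) (by norm_num)
    have h8 := le_abs_self ((k : ℝ) * (Real.log 3 / Real.log 2) - j)
    have h9 : 1 ≤ (k : ℝ) * (Real.log 3 / Real.log 2) := by nlinarith
    linarith
  obtain ⟨j', rfl⟩ := Int.eq_ofNat_of_zero_le hj0.le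
  obtain ⟨k', rfl⟩ := Int.eq_ofNat_of_zero_le hk0.le
  have hk' : 0 < k' := by exact_mod_cast hk0
  simp only [Int.cast_natCast] at hbound
  have hlog3 : Real.log ((3 : ℝ) ^ k') = k' * Real.log 3 := by rw [Real.log_pow]
  have hlog2 : Real.log ((2 : ℝ) ^ j') = j' * Real.log 2 := by rw [Real.log_pow]
  have h3pos : (0 : ℝ) < 3 ^ k' := by positivity
  have h2pos : (0 : ℝ) < 2 ^ j' := by positivity
  refine ⟨j', k', ?_⟩
  have hne : 2 ^ j' ≠ 3 ^ k' := by
    intro h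
    have h10 : Odd (3 ^ k') := Odd.pow (by decide)
    rw [← h] at h10
    have hj'pos : 0 < j' := by exact_mod_cast hj0
    exact (Nat.not_odd_iff_even.2 ((Nat.even_pow.2 ⟨even_two, hj'pos.ne'⟩))) h10
  have hη1 : 0 < 1 + η := by linarith
  rcases lt_or_gt_of_ne hne with h | h
  · left
    refine ⟨h, ?_⟩
    rw [← Real.log_le_log_iff (by positivity) hη1, Real.log_div h3pos.ne' h2pos.ne', hlog3, hlog2]
    exact (le_abs_self _).trans hbound
  · right
    refine ⟨h, ?_⟩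
    rw [← Real.log_le_log_iff (by positivity) hη1, Real.log_div h2pos.ne' h3pos.ne', hlog3, hlog2]
    rw [abs_sub_comm] at hbound
    exact (le_abs_self _).trans hbound

lemma exists_smooth' {η : ℝ} (hη : 0 < η) (N : ℕ) :
    ∃ x0 : ℝ, ∀ x : ℝ, x0 ≤ x → ∃ a b : ℕ, N ≤ a ∧ N ≤ b ∧ x ≤ (2 : ℝ) ^ a * (3 : ℝ) ^ b ∧
      (2 : ℝ) ^ a * (3 : ℝ) ^ b ≤ (1 + η) * x := by
  obtain ⟨m, k, h | h⟩ := exists_close hη
  · obtain ⟨x0, hx0⟩ := smooth_aux (p := 2) (q := 3) le_rfl (by norm_num) h.1 N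
    refine ⟨max x0 0, fun x hx => ?_⟩
    obtain ⟨a, b, ha, hb, h1, h2⟩ := hx0 x (le_trans (le_max_left _ _) hx)
    have hx0' : 0 ≤ x := le_trans (le_max_right _ _) hx
    push_cast at h1 h2
    exact ⟨a, b, ha, hb, h1, h2.trans (mul_le_mul_of_nonneg_right h.2 hx0')⟩
  · obtain ⟨x0, hx0⟩ := smooth_aux (p := 3) (q := 2) (by norm_num) le_rfl h.1 N
    refine ⟨max x0 0, fun x hx => ?_⟩
    obtain ⟨b, a, hb, ha, h1, h2⟩ := hx0 x (le_trans (le_max_left _ _) hx)
    have hx0' : 0 ≤ x := le_trans (le_max_right _ _) hx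
    push_cast at h1 h2
    refine ⟨a, b, ha, hb, ?_, ?_⟩
    · rw [mul_comm]; exact h1
    · rw [mul_comm ((2:ℝ) ^ a)]
      exact h2.trans (mul_le_mul_of_nonneg_right h.2 hx0')

/-- rings with the dependency property, with order in a narrow window and few non-units -/
lemma exists_ring' {η : ℝ} (hη : 0 < η) :
    ∃ x0 : ℝ, ∀ x : ℝ, x0 ≤ x →
    ∃ (Λ : Type) (_ : CommRing Λ) (_ : Fintype Λ), Nontrivial Λ ∧ Helper4.Turan.Star Λ ∧
      x ≤ (Fintype.card Λ : ℝ) ∧ (Fintype.card Λ : ℝ) ≤ (1 + η) * x ∧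
      (Fintype.card Λ : ℝ) / (Fintype.card Λˣ : ℝ) ≤ 1 + η := by
  obtain ⟨N, hN⟩ := pow_unbounded_of_one_lt (2 + 3 / η) (by norm_num : (1:ℝ) < 2)
  obtain ⟨x0, hx0⟩ := exists_smooth' hη (N + 1)
  refine ⟨x0, fun x hx => ?_⟩
  obtain ⟨a, b, ha, hb, h1, h2⟩ := hx0 x hx
  have : Fact (Nat.Prime 2) := ⟨Nat.prime_two⟩
  have : Fact (Nat.Prime 3) := ⟨Nat.prime_three⟩
  let _ : Fintype (GaloisField 2 a) := Fintype.ofFinite _
  let _ : Fintype (GaloisField 3 b) := Fintype.ofFinite _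
  have c2 : Fintype.card (GaloisField 2 a) = 2 ^ a := by
    rw [← Nat.card_eq_fintype_card]; exact GaloisField.card 2 a (by omega)
  have c3 : Fintype.card (GaloisField 3 b) = 3 ^ b := by
    rw [← Nat.card_eq_fintype_card]; exact GaloisField.card 3 b (by omega)
  refine ⟨GaloisField 2 a × GaloisField 3 b, inferInstance, inferInstance, inferInstance,
    (star_field _).prod (star_field _), ?_, ?_, ?_⟩
  · rw [Fintype.card_prod, c2, c3]; push_cast; exact h1
  · rw [Fintype.card_prod, c2, c3]; push_cast; exact h2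
  · have cu : Fintype.card (GaloisField 2 a × GaloisField 3 b)ˣ = (2 ^ a - 1) * (3 ^ b - 1) := by
      rw [Fintype.card_congr (MulEquiv.prodUnits.toEquiv), Fintype.card_prod, Fintype.card_units,
        Fintype.card_units, c2, c3]
    rw [Fintype.card_prod, c2, c3]
    have h2a : (2 : ℝ) ^ N ≤ 2 ^ a := pow_le_pow_right₀ (by norm_num) (by omega)
    have h3b : (2 : ℝ) ^ N ≤ 3 ^ b :=
      (pow_le_pow_left₀ (by norm_num) (by norm_num : (2:ℝ) ≤ 3) N).trans
        (pow_le_pow_right₀ (by norm_num) (by omega))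
    have hcu : ((Fintype.card (GaloisField 2 a × GaloisField 3 b)ˣ : ℕ) : ℝ) =
        ((2 : ℝ) ^ a - 1) * (3 ^ b - 1) := by
      rw [cu, Nat.cast_mul, Nat.cast_sub (Nat.one_le_pow _ _ (by norm_num)),
        Nat.cast_sub (Nat.one_le_pow _ _ (by norm_num))]
      push_cast; ring
    have hcast : ((2 ^ a * 3 ^ b : ℕ) : ℝ) = (2 : ℝ) ^ a * 3 ^ b := by push_cast; ring
    rw [hcast]
    have key : ∀ c : ℕ, (c : ℝ) = ((2 : ℝ) ^ a - 1) * (3 ^ b - 1) →
        (2 : ℝ) ^ a * 3 ^ b / (c : ℝ) ≤ 1 + η := by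
      intro c hc
      rw [hc]
      set A : ℝ := (2 : ℝ) ^ a
      set B : ℝ := (3 : ℝ) ^ b
      set y : ℝ := 3 / η with hy
      have hypos : 0 < y := by positivity
      have hηy : η * y = 3 := by rw [hy]; field_simp
      have hA : 2 + y ≤ A := by linarith
      have hB : 2 + y ≤ B := by linarith
      have hpos : 0 < (A - 1) * (B - 1) := mul_pos (by linarith) (by linarith)
      rw [div_le_iff₀ hpos]
      -- A B ≤ (1+η)(A-1)(B-1), i.e. (A-1)+(B-1)+1 ≤ η (A-1)(B-1)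
      set A' := A - 1 with hA'
      set B' := B - 1 with hB'
      have hA1 : 1 + y ≤ A' := by linarith
      have hB1 : 1 + y ≤ B' := by linarith
      have e1 : A * B = A' * B' + A' + B' + 1 := by rw [hA', hB']; ring
      rw [e1]
      have h5 : 3 * A' ≤ η * (A' * B') := by
        have : y ≤ B' := by linarith
        have h6 : A' * (η * y) ≤ A' * (η * B') :=
          mul_le_mul_of_nonneg_left (mul_le_mul_of_nonneg_left this hη.le) (by linarith)
        rw [hηy] at h6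
        linarith
      have h7 : 3 * B' ≤ η * (A' * B') := by
        have : y ≤ A' := by linarith
        have h6 : B' * (η * y) ≤ B' * (η * A') :=
          mul_le_mul_of_nonneg_left (mul_le_mul_of_nonneg_left this hη.le) (by linarith)
        rw [hηy] at h6
        linarith
      nlinarith
    convert key _ hcu using 3
    exact @Fintype.card_congr _ _ (_) (_) (Equiv.refl _)

end Pool.Agent.Helper3.Turan
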