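import Pool.Agent.Helper3.RecR
import Pool.Agent.Helper3.RingsR

/-!
For every `R ≥ 1` the normalised Turan densities `C(k+R,R) (1 - π(K_{k+R}^k))` converge.
-/

namespace Pool.Agent.Helper3.Turan

open Finset Pool.Agent.Helper4.Turan Filter Topology
open scoped Classical

/-- normalised density -/
noncomputable def nu (R k : ℕ) : ℝ := ((k + R).choose R : ℝ) * tau R k

lemma one_le_nu (R k : ℕ) : 1 ≤ nu R k := one_le_choose_mul_tau R k

lemma nu_nonneg (R k : ℕ) : 0 ≤ nu R k := zero_le_one.trans (one_le_nu R k)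

lemma choose_pos' (R k : ℕ) : (0 : ℝ) < ((k + R).choose R : ℝ) := by
  exact_mod_cast Nat.choose_pos (Nat.le_add_left R k)

lemma tau_eq (R k : ℕ) : tau R k = nu R k / ((k + R).choose R : ℝ) := by
  unfold nu
  rw [mul_div_cancel_left₀ _ (choose_pos' R k).ne']

lemma tau_nonneg (R k : ℕ) : 0 ≤ tau R k := (tau_pos R k).le

lemma choose_ratio (R : ℕ) {j j' : ℕ} (h : j ≤ j') :
    (j' + R).choose R * (j + 1) ^ R ≤ (j + R).choose R * (j' + 1) ^ R := by
  induction R with
  | zero => simp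
  | succ R ih =>
    have h1 : ∀ i : ℕ, (i + (R + 1)).choose (R + 1) * (R + 1) = (i + R + 1) * (i + R).choose R := by
      intro i
      have := Nat.add_one_mul_choose_eq (i + R) R
      rw [← add_assoc]
      exact this.symm
    refine Nat.le_of_mul_le_mul_right ?_ (Nat.succ_pos R)
    have e1 : (j' + (R + 1)).choose (R + 1) * (j + 1) ^ (R + 1) * (R + 1) =
        ((j' + R + 1) * (j + 1)) * ((j' + R).choose R * (j + 1) ^ R) := by
      calc _ = ((j' + (R + 1)).choose (R + 1) * (R + 1)) * (j + 1) ^ (R + 1) := by ring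
        _ = _ := by rw [h1]; ring
    have e2 : (j + (R + 1)).choose (R + 1) * (j' + 1) ^ (R + 1) * (R + 1) =
        ((j + R + 1) * (j' + 1)) * ((j + R).choose R * (j' + 1) ^ R) := by
      calc _ = ((j + (R + 1)).choose (R + 1) * (R + 1)) * (j' + 1) ^ (R + 1) := by ring
        _ = _ := by rw [h1]; ring
    rw [Nat.succ_eq_add_one, e1, e2]
    refine Nat.mul_le_mul ?_ ih
    nlinarith

lemma nu_le_of_le (R : ℕ) {j j' : ℕ} (h : j ≤ j') {c : ℝ}
    (hc : ((j' : ℝ) + 1) ≤ c * ((j : ℝ) + 1)) : nu R j' ≤ c ^ R * nu R j := by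
  have h1 : tau R j' ≤ tau R j := tau_antitone h
  have h2 := choose_ratio R h
  have h3 : ((j' + R).choose R : ℝ) * ((j : ℝ) + 1) ^ R ≤
      ((j + R).choose R : ℝ) * ((j' : ℝ) + 1) ^ R := by exact_mod_cast h2
  have hj : (0 : ℝ) < (j : ℝ) + 1 := by positivity
  have hj' : (0 : ℝ) < (j' : ℝ) + 1 := by positivity
  have hc0 : 0 ≤ c := by
    by_contra hcon
    push Not at hcon
    nlinarith
  have h4 : ((j' : ℝ) + 1) ^ R ≤ c ^ R * ((j : ℝ) + 1) ^ R := by
    rw [← mul_pow]
    exact pow_le_pow_left₀ hj'.le hc R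
  have h5 : ((j' + R).choose R : ℝ) ≤ c ^ R * ((j + R).choose R : ℝ) := by
    refine le_of_mul_le_mul_right ?_ (pow_pos hj R)
    refine h3.trans ?_
    calc ((j + R).choose R : ℝ) * ((j' : ℝ) + 1) ^ R
        ≤ ((j + R).choose R : ℝ) * (c ^ R * ((j : ℝ) + 1) ^ R) :=
          mul_le_mul_of_nonneg_left h4 (Nat.cast_nonneg _)
      _ = _ := by ring
  unfold nu
  calc ((j' + R).choose R : ℝ) * tau R j' ≤ (c ^ R * ((j + R).choose R : ℝ)) * tau R j :=
        mul_le_mul h5 h1 (tau_nonneg _ _) (by positivity)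
    _ = _ := by ring

/-! ### Binomial weights -/

/-- binomial probabilities -/
noncomputable def beta (N : ℕ) (p : ℝ) (s : ℕ) : ℝ := (N.choose s : ℝ) * p ^ s * (1 - p) ^ (N - s)

lemma beta_nonneg {N : ℕ} {p : ℝ} (h0 : 0 ≤ p) (h1 : p ≤ 1) (s : ℕ) : 0 ≤ beta N p s :=
  mul_nonneg (mul_nonneg (Nat.cast_nonneg _) (pow_nonneg h0 _)) (pow_nonneg (by linarith) _)

lemma beta_sum (N : ℕ) (p : ℝ) : ∑ s ∈ range (N + 1), beta N p s = 1 := by
  have h := add_pow p (1 - p) N
  rw [add_sub_cancel, one_pow] at h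
  rw [h]
  refine sum_congr rfl fun s _ => ?_
  unfold beta; ring

lemma beta_var (N : ℕ) (p : ℝ) :
    ∑ s ∈ range (N + 1), ((N : ℝ) * p - s) ^ 2 * beta N p s = (N : ℝ) * p * (1 - p) := by
  have h := congrArg (Polynomial.eval p) (bernsteinPolynomial.variance ℝ N)
  rw [Polynomial.eval_finsetSum] at h
  simp only [bernsteinPolynomial, Polynomial.eval_mul, Polynomial.eval_pow, Polynomial.eval_sub,
    Polynomial.eval_X, Polynomial.eval_natCast, Polynomial.eval_one,
    nsmul_eq_mul] at h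
  exact h

lemma beta_cheb {N : ℕ} {p : ℝ} (h0 : 0 ≤ p) (h1 : p ≤ 1) {c : ℝ} (hc : 0 < c) {B : Finset ℕ}
    (hB : B ⊆ range (N + 1)) (hd : ∀ s ∈ B, c ≤ |(N : ℝ) * p - s|) :
    ∑ s ∈ B, beta N p s ≤ (N : ℝ) * p / c ^ 2 := by
  have hc2 : 0 < c ^ 2 := pow_pos hc 2
  rw [le_div_iff₀ hc2, sum_mul]
  calc ∑ s ∈ B, beta N p s * c ^ 2 ≤ ∑ s ∈ B, ((N : ℝ) * p - s) ^ 2 * beta N p s := by
        refine sum_le_sum fun s hs => ?_
        rw [mul_comm]
        refine mul_le_mul_of_nonneg_right ?_ (beta_nonneg h0 h1 s)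
        rw [← sq_abs ((N : ℝ) * p - s)]
        exact pow_le_pow_left₀ hc.le (hd s hs) 2
    _ ≤ ∑ s ∈ range (N + 1), ((N : ℝ) * p - s) ^ 2 * beta N p s :=
        sum_le_sum_of_subset_of_nonneg hB fun s _ _ =>
          mul_nonneg (sq_nonneg _) (beta_nonneg h0 h1 s)
    _ = (N : ℝ) * p * (1 - p) := beta_var N p
    _ ≤ (N : ℝ) * p := by
        have : 0 ≤ (N : ℝ) * p := by positivity
        nlinarith

/-- `∑_m C(N,m) C(m,i) x^(m-i) y^(N-m) = C(N,i) (x+y)^(N-i)` -/
lemma sum_choose_choose {N i : ℕ} (hi : i ≤ N) (x y : ℝ) :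
    ∑ m ∈ range (N + 1), (N.choose m : ℝ) * (m.choose i : ℝ) * (x ^ (m - i) * y ^ (N - m)) =
      (N.choose i : ℝ) * (x + y) ^ (N - i) := by
  have hN : N + 1 = i + (N - i + 1) := by omega
  rw [hN, sum_range_add]
  have h1 : ∑ m ∈ range i, (N.choose m : ℝ) * (m.choose i : ℝ) * (x ^ (m - i) * y ^ (N - m)) = 0 := by
    refine sum_eq_zero fun m hm => ?_
    rw [Nat.choose_eq_zero_of_lt (mem_range.1 hm)]
    simp
  rw [h1, zero_add, add_pow, mul_sum]
  refine sum_congr rfl fun l hl => ?_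
  have hl' : l ≤ N - i := by have := mem_range.1 hl; omega
  have h2 : N.choose (i + l) * (i + l).choose i = N.choose i * (N - i).choose l := by
    have := Nat.choose_mul (n := N) (k := i + l) (s := i) (by omega)
    rw [this]
    congr 2
    omega
  have h3 : (N.choose (i + l) : ℝ) * ((i + l).choose i : ℝ) =
      (N.choose i : ℝ) * ((N - i).choose l : ℝ) := by exact_mod_cast h2
  have e1 : i + l - i = l := by omega
  have e2 : N - (i + l) = N - i - l := by omega
  rw [h3, e1, e2]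
  ring

/-! ### The step -/

section Step

variable {R k : ℕ} {a b : ℝ}

/-- the first sum -/
noncomputable def S1 (R k : ℕ) (p : ℝ) : ℝ :=
  ∑ j ∈ range k, (k.choose j : ℝ) * (p ^ j * (1 - p) ^ (k - j) * tau R j)

lemma S1_nonneg {p : ℝ} (h0 : 0 ≤ p) (h1 : p ≤ 1) : 0 ≤ S1 R k p := by
  have h2 : 0 ≤ 1 - p := by linarith
  exact sum_nonneg fun j _ => mul_nonneg (Nat.cast_nonneg _) (mul_nonneg (mul_nonneg
    (pow_nonneg h0 _) (pow_nonneg h2 _)) (tau_nonneg _ _))

lemma S1_le_one {p : ℝ} (h0 : 0 ≤ p) (h1 : p ≤ 1) : S1 R k p ≤ 1 := by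
  rw [← beta_sum k p, sum_range_succ]
  refine le_trans ?_ (le_add_of_nonneg_right (beta_nonneg h0 h1 k))
  refine sum_le_sum fun j _ => ?_
  have e : (k.choose j : ℝ) * (p ^ j * (1 - p) ^ (k - j) * tau R j) = beta k p j * tau R j := by
    unfold beta; ring
  rw [e]
  exact mul_le_of_le_one_right (beta_nonneg h0 h1 j) (tau_le_one R j)

lemma choose_S1 {p : ℝ} (hp : 0 < p) :
    ((k + R).choose R : ℝ) * S1 R k p =
      (1 / p ^ R) * ∑ j ∈ range k, beta (k + R) p (j + R) * nu R j := by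
  unfold S1
  rw [mul_sum, mul_sum]
  refine sum_congr rfl fun j hj => ?_
  have hj' : j < k := mem_range.1 hj
  have h2 : (k + R).choose (j + R) * (j + R).choose R = (k + R).choose R * k.choose j := by
    have := Nat.choose_mul (n := k + R) (k := j + R) (s := R) (by omega)
    rw [this]
    simp
  have h3 : ((k + R).choose (j + R) : ℝ) * ((j + R).choose R : ℝ) =
      ((k + R).choose R : ℝ) * (k.choose j : ℝ) := by exact_mod_cast h2
  unfold beta nu
  have e1 : k + R - (j + R) = k - j := by omega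
  rw [e1, pow_add]
  have hpR : p ^ R ≠ 0 := (pow_pos hp R).ne'
  calc ((k + R).choose R : ℝ) * ((k.choose j : ℝ) * (p ^ j * (1 - p) ^ (k - j) * tau R j))
      = (((k + R).choose R : ℝ) * (k.choose j : ℝ)) * (p ^ j * (1 - p) ^ (k - j) * tau R j) := by
        ring
    _ = _ := by rw [← h3]; field_simp

lemma window_sum {p : ℝ} (hp : 0 < p) (hp1 : p ≤ 1) {M m c : ℝ} {j0 j1 : ℕ} (hc : 0 < c)
    (hm0 : 0 ≤ m) (hM0 : 0 ≤ M)
    (hM : ∀ j < k, nu R j ≤ M) (hm : ∀ j, j0 ≤ j → j ≤ j1 → nu R j ≤ m)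
    (hlo : (j0 : ℝ) + R + c ≤ ((k + R : ℕ) : ℝ) * p)
    (hhi : ((k + R : ℕ) : ℝ) * p ≤ (j1 : ℝ) + R - c) :
    ∑ j ∈ range k, beta (k + R) p (j + R) * nu R j ≤
      m + M * (((k + R : ℕ) : ℝ) * p / c ^ 2) := by
  have h1 : ∀ j ∈ range k, beta (k + R) p (j + R) * nu R j ≤
      beta (k + R) p (j + R) * m +
        (if j0 ≤ j ∧ j ≤ j1 then 0 else beta (k + R) p (j + R) * M) := by
    intro j hj
    have hb := beta_nonneg (N := k + R) hp.le hp1 (j + R)
    split_ifs with h
    · rw [add_zero]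
      exact mul_le_mul_of_nonneg_left (hm j h.1 h.2) hb
    · have h2 := mul_le_mul_of_nonneg_left (hM j (mem_range.1 hj)) hb
      have h3 : 0 ≤ beta (k + R) p (j + R) * m := mul_nonneg hb hm0
      linarith
  refine (sum_le_sum h1).trans ?_
  rw [sum_add_distrib]
  refine add_le_add ?_ ?_
  · rw [← sum_mul]
    have h2 : ∑ j ∈ range k, beta (k + R) p (j + R) ≤ 1 := by
      rw [← beta_sum (k + R) p]
      have h3 : ∑ j ∈ range k, beta (k + R) p (j + R) =
          ∑ s ∈ (range k).map (addRightEmbedding R), beta (k + R) p s := by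
        rw [sum_map]; rfl
      rw [h3]
      refine sum_le_sum_of_subset_of_nonneg ?_ fun s _ _ => beta_nonneg hp.le hp1 s
      intro s hs
      rw [Finset.mem_map] at hs
      obtain ⟨j, hj, rfl⟩ := hs
      rw [mem_range] at hj ⊢
      simp only [addRightEmbedding_apply]
      omega
    nlinarith
  · have h4 : ∑ j ∈ range k, (if j0 ≤ j ∧ j ≤ j1 then 0 else beta (k + R) p (j + R) * M) =
        M * ∑ j ∈ (range k).filter (fun j => ¬ (j0 ≤ j ∧ j ≤ j1)), beta (k + R) p (j + R) := by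
      rw [mul_sum, sum_filter]
      refine sum_congr rfl fun j _ => ?_
      by_cases h : j0 ≤ j ∧ j ≤ j1
      · rw [if_pos h, if_neg (not_not.2 h)]
      · rw [if_neg h, if_pos h, mul_comm]
    rw [h4]
    refine mul_le_mul_of_nonneg_left ?_ hM0
    have h3 : ∑ j ∈ (range k).filter (fun j => ¬ (j0 ≤ j ∧ j ≤ j1)), beta (k + R) p (j + R) =
          ∑ s ∈ ((range k).filter (fun j => ¬ (j0 ≤ j ∧ j ≤ j1))).map (addRightEmbedding R),
            beta (k + R) p s := by
        rw [sum_map]; rfl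
    rw [h3]
    refine beta_cheb hp.le hp1 hc ?_ ?_
    · intro s hs
      rw [Finset.mem_map] at hs
      obtain ⟨j, hj, rfl⟩ := hs
      have := mem_range.1 (mem_filter.1 hj).1
      rw [mem_range]
      simp only [addRightEmbedding_apply]
      omega
    · intro s hs
      rw [Finset.mem_map] at hs
      obtain ⟨j, hj, rfl⟩ := hs
      have hj2 := (mem_filter.1 hj).2
      simp only [addRightEmbedding_apply]
      rw [not_and_or] at hj2
      push_cast at hlo hhi ⊢
      rcases hj2 with h | h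
      · have h5 : (j : ℝ) < j0 := by exact_mod_cast not_le.1 h
        rw [le_abs]; left
        linarith
      · have h5 : (j1 : ℝ) < j := by exact_mod_cast not_le.1 h
        rw [le_abs]; right
        linarith

/-- the second sum -/
lemma second_sum {Q M : ℝ} (hQ : 1 ≤ Q) (ha : 0 < a) (hb : 0 < b) (hab : a + b = 1)
    (hM : ∀ j < k, nu R j ≤ M) (hM0 : 0 ≤ M) :
    ((k + R).choose R : ℝ) * ∑ m ∈ Ico 1 k, (k.choose m : ℝ) *
        (a ^ m * b ^ (k - m) * (Fb R Q m * tau R (k - m))) ≤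
      M / b ^ R * ∑ i ∈ range R, beta (k + R) (a / Q) i := by
  have hQ0 : 0 < Q := by linarith
  set p : ℝ := a / Q with hp
  have hp0 : 0 < p := by positivity
  have hpa : p ≤ a := by
    rw [hp, div_le_iff₀ hQ0]; nlinarith
  have hap : 0 ≤ a - p := by linarith
  have hbR : 0 < b ^ R := pow_pos hb R
  have h1 : ((k + R).choose R : ℝ) * ∑ m ∈ Ico 1 k, (k.choose m : ℝ) *
        (a ^ m * b ^ (k - m) * (Fb R Q m * tau R (k - m))) ≤
      ∑ m ∈ Ico 1 k, M / b ^ R * ∑ i ∈ range R, ((k + R).choose m : ℝ) * (m.choose i : ℝ) *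
        (p ^ i * ((a - p) ^ (m - i) * b ^ (k + R - m))) := by
    rw [mul_sum]
    refine sum_le_sum fun m hm => ?_
    rw [mem_Ico] at hm
    -- the binomial identity
    have h2 : (k + R).choose R * k.choose m = (k + R).choose m * (k - m + R).choose R := by
      have h3 := Nat.choose_mul (n := k + R) (k := k - m + R) (s := R) (by omega)
      have h4 : (k + R).choose (k - m + R) = (k + R).choose m := by
        rw [← Nat.choose_symm (by omega : m ≤ k + R)]
        congr 1; omega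
      have h5 : (k + R - R).choose (k - m + R - R) = k.choose m := by
        rw [Nat.add_sub_cancel, Nat.add_sub_cancel, Nat.choose_symm (by omega)]
      rw [h4, h5] at h3
      exact h3.symm
    have h2' : ((k + R).choose R : ℝ) * (k.choose m : ℝ) =
        ((k + R).choose m : ℝ) * ((k - m + R).choose R : ℝ) := by exact_mod_cast h2
    have h6 : ((k - m + R).choose R : ℝ) * tau R (k - m) ≤ M := hM (k - m) (by omega)
    have hF : 0 ≤ Fb R Q m := Fb_nonneg hQ m
    have e1 : b ^ (k + R - m) = b ^ R * b ^ (k - m) := by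
      rw [← pow_add]; congr 1; omega
    have e2 : a ^ m * Fb R Q m = ∑ i ∈ range R, (m.choose i : ℝ) * (p ^ i * (a - p) ^ (m - i)) := by
      unfold Fb
      rw [mul_sum]
      refine sum_congr rfl fun i _ => ?_
      by_cases him : i ≤ m
      · have e3 : a ^ m = a ^ i * a ^ (m - i) := by rw [← pow_add]; congr 1; omega
        have e4 : a - p = a * (1 - 1 / Q) := by rw [hp]; ring
        have e5 : p = a * (1 / Q) := by rw [hp]; ring
        rw [e3, e4, mul_pow]
        nth_rewrite 1 [e5]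
        rw [mul_pow]
        ring
      · rw [Nat.choose_eq_zero_of_lt (by omega)]
        simp
    calc ((k + R).choose R : ℝ) * ((k.choose m : ℝ) *
          (a ^ m * b ^ (k - m) * (Fb R Q m * tau R (k - m))))
        = (((k + R).choose R : ℝ) * (k.choose m : ℝ)) * ((a ^ m * Fb R Q m) * b ^ (k - m)) *
            tau R (k - m) := by ring
      _ = (((k + R).choose m : ℝ) * ((a ^ m * Fb R Q m) * b ^ (k - m))) *
            (((k - m + R).choose R : ℝ) * tau R (k - m)) := by rw [h2']; ring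
      _ ≤ (((k + R).choose m : ℝ) * ((a ^ m * Fb R Q m) * b ^ (k - m))) * M := by
          refine mul_le_mul_of_nonneg_left h6 ?_
          have : 0 ≤ a ^ m * Fb R Q m := mul_nonneg (pow_nonneg ha.le _) hF
          have : 0 ≤ b ^ (k - m) := pow_nonneg hb.le _
          positivity
      _ = _ := by
          rw [e2, mul_sum, sum_mul, mul_sum, sum_mul]
          refine sum_congr rfl fun i _ => ?_
          rw [e1]
          field_simp
  refine h1.trans ?_
  rw [← mul_sum, sum_comm]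
  refine mul_le_mul_of_nonneg_left ?_ (div_nonneg hM0 hbR.le)
  refine sum_le_sum fun i hi => ?_
  have hi' : i < R := mem_range.1 hi
  have h7 : ∑ m ∈ Ico 1 k, ((k + R).choose m : ℝ) * (m.choose i : ℝ) *
        (p ^ i * ((a - p) ^ (m - i) * b ^ (k + R - m))) ≤
      ∑ m ∈ range (k + R + 1), ((k + R).choose m : ℝ) * (m.choose i : ℝ) *
        (p ^ i * ((a - p) ^ (m - i) * b ^ (k + R - m))) := by
    refine sum_le_sum_of_subset_of_nonneg ?_ fun m _ _ => ?_
    · intro m hm
      rw [mem_Ico] at hm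
      rw [mem_range]; omega
    · have h8 : 0 ≤ (a - p) ^ (m - i) := pow_nonneg hap _
      positivity
  refine h7.trans (le_of_eq ?_)
  have h9 := sum_choose_choose (N := k + R) (i := i) (by omega) (a - p) b
  have h10 : ∑ m ∈ range (k + R + 1), ((k + R).choose m : ℝ) * (m.choose i : ℝ) *
        (p ^ i * ((a - p) ^ (m - i) * b ^ (k + R - m))) =
      p ^ i * ∑ m ∈ range (k + R + 1), ((k + R).choose m : ℝ) * (m.choose i : ℝ) *
        ((a - p) ^ (m - i) * b ^ (k + R - m)) := by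
    rw [mul_sum]
    refine sum_congr rfl fun m _ => ?_
    ring
  rw [h10, h9]
  have e6 : a - p + b = 1 - p := by linarith
  rw [e6]
  unfold beta
  ring

/-- the recursive inequality for the normalised densities -/
lemma stepA (hR : 1 ≤ R) (Λ : Type) [CommRing Λ] [Fintype Λ] [Nontrivial Λ]
    (hΛ : Helper4.Turan.Star Λ) (ha : 0 < a) (hb : 0 < b) (hab : a + b = 1) {M c : ℝ}
    (hM0 : 0 ≤ M) (hM : ∀ j < k, nu R j ≤ M) (hc : 0 < c)
    (hlo : (R : ℝ) + c ≤ ((k + R : ℕ) : ℝ) * (a / (Fintype.card Λ : ℝ))) :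
    nu R k ≤ ((k + R).choose R : ℝ) * (a ^ k + b ^ k) +
      ((Fintype.card Λ : ℝ) / (Fintype.card Λˣ : ℝ)) *
        ((1 / (Fintype.card Λ : ℝ) ^ R) *
        (((k + R).choose R : ℝ) * S1 R k (a / (Fintype.card Λ : ℝ)))) +
      ((Fintype.card Λ : ℝ) / (Fintype.card Λˣ : ℝ)) *
        (M / b ^ R * (((k + R : ℕ) : ℝ) * (a / (Fintype.card Λ : ℝ)) / c ^ 2)) := by
  set Q : ℝ := (Fintype.card Λ : ℝ) with hQdef
  set u : ℝ := (Fintype.card Λˣ : ℝ) with hudef
  have hQ1 : 1 ≤ Fintype.card Λ := Fintype.card_pos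
  have hQ : 0 < Q := by rw [hQdef]; exact_mod_cast hQ1
  have hu : 0 < u := by rw [hudef]; exact_mod_cast Fintype.card_pos
  have hQge : 1 ≤ Q := by rw [hQdef]; exact_mod_cast hQ1
  set p : ℝ := a / Q with hp
  have hp0 : 0 < p := by positivity
  have hp1 : p ≤ 1 := by
    rw [hp, div_le_iff₀ hQ]; linarith
  have hrec := recursionR Λ hΛ ha.le hb.le hab hR (k := k) (t := tau R) (tau_nonneg R)
    (fun j _ => ach_tau R j)
  have h1 := tau_le_of_ach hrec
  have h2 := mul_le_mul_of_nonneg_left h1 (Nat.cast_nonneg ((k + R).choose R) : (0:ℝ) ≤ _)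
  have h3 := second_sum (R := R) (k := k) hQge ha hb hab hM hM0
  have h4 : ∑ i ∈ range R, beta (k + R) p i ≤ ((k + R : ℕ) : ℝ) * p / c ^ 2 := by
    refine beta_cheb hp0.le hp1 hc ?_ ?_
    · intro i hi
      rw [mem_range] at hi ⊢
      omega
    · intro i hi
      have hi' : (i : ℝ) ≤ R := by exact_mod_cast (mem_range.1 hi).le
      rw [le_abs]; left
      linarith
  have h5 : 0 ≤ M / b ^ R := div_nonneg hM0 (pow_nonneg hb.le _)
  have h6 := h3.trans (mul_le_mul_of_nonneg_left h4 h5)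
  have h7 := mul_le_mul_of_nonneg_left h6 (div_nonneg hQ.le hu.le)
  have e1 : 1 / (u * Q ^ (R - 1)) = (Q / u) * (1 / Q ^ R) := by
    have : Q ^ R = Q * Q ^ (R - 1) := by
      rw [← pow_succ']; congr 1; omega
    rw [this]
    have : Q ^ (R - 1) ≠ 0 := (pow_pos hQ _).ne'
    field_simp
  unfold nu
  refine h2.trans ?_
  rw [e1]
  have e2 : ((k + R).choose R : ℝ) * (a ^ k + b ^ k + (Q / u) * (1 / Q ^ R) *
        ∑ j ∈ range k, (k.choose j : ℝ) * (p ^ j * (1 - p) ^ (k - j) * tau R j) +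
        (Q / u) * ∑ m ∈ Ico 1 k, (k.choose m : ℝ) *
        (a ^ m * b ^ (k - m) * (Fb R Q m * tau R (k - m)))) =
      ((k + R).choose R : ℝ) * (a ^ k + b ^ k) +
      (Q / u) * ((1 / Q ^ R) * (((k + R).choose R : ℝ) * S1 R k p)) +
      (Q / u) * (((k + R).choose R : ℝ) * ∑ m ∈ Ico 1 k, (k.choose m : ℝ) *
        (a ^ m * b ^ (k - m) * (Fb R Q m * tau R (k - m)))) := by
    unfold S1; ring
  rw [e2]
  exact add_le_add le_rfl h7

end Step

/-- the error term tends to zero -/
lemma tendsto_err (R : ℕ) {a b : ℝ} (ha : 0 < a) (hb : 0 < b) (hab : a + b = 1) :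
    Tendsto (fun k : ℕ => ((k + R).choose R : ℝ) * (a ^ k + b ^ k)) atTop (𝓝 0) := by
  have h : ∀ c : ℝ, 0 < c → c < 1 → Tendsto (fun k : ℕ => ((k + R).choose R : ℝ) * c ^ k) atTop
      (𝓝 0) := by
    intro c hc0 hc1
    have h1 := (tendsto_pow_const_mul_const_pow_of_lt_one R hc0.le hc1)
    have h2 : Tendsto (fun k : ℕ => (((k + R : ℕ) : ℝ) ^ R * c ^ (k + R)) / c ^ R) atTop
        (𝓝 (0 / c ^ R)) := ((tendsto_add_atTop_iff_nat R).2 h1).div_const _
    rw [zero_div] at h2
    refine tendsto_of_tendsto_of_tendsto_of_le_of_le tendsto_const_nhds h2 ?_ ?_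
    · intro k
      positivity
    · intro k
      have h4 : ((k + R).choose R : ℝ) ≤ ((k + R : ℕ) : ℝ) ^ R := by
        exact_mod_cast Nat.choose_le_pow (k + R) R
      simp only
      rw [pow_add c k R, ← mul_assoc, mul_div_assoc, div_self (pow_pos hc0 R).ne', mul_one]
      exact mul_le_mul_of_nonneg_right h4 (pow_nonneg hc0.le _)
  have h5 := (h a ha (by linarith)).add (h b hb (by linarith))
  rw [add_zero] at h5
  refine h5.congr fun k => ?_
  ring

end Pool.Agent.Helper3.Turan
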