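import Pool.Agent.Helper4.System
import Pool.Agent.Helper1.TuranLimit

/-!
Turan `(k+R, k)`-systems: averaging, random permutations, monotonicity, link with Turan densities.
-/

namespace Pool.Agent.Helper3.Turan

open Finset Pool.Agent.Helper4.Turan
open scoped Classical

set_option linter.unusedSectionVars false

/-- `H` is a Turan `(k+R, k)`-system on `Fin n`: a family of `k`-sets such that every
`(k+R)`-set contains a member of the family -/
def IsSys {n : ℕ} (R k : ℕ) (H : Finset (Finset (Fin n))) : Prop :=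
  (∀ e ∈ H, e.card = k) ∧ ∀ S : Finset (Fin n), S.card = k + R → ∃ e ∈ H, e ⊆ S

/-- systems of density at most `t` exist on every number of vertices -/
def Ach (R k : ℕ) (t : ℝ) : Prop :=
  ∀ n : ℕ, ∃ H : Finset (Finset (Fin n)), IsSys R k H ∧ (H.card : ℝ) ≤ t * (n.choose k : ℝ)

lemma Ach.mono {R k : ℕ} {t t' : ℝ} (h : Ach R k t) (htt' : t ≤ t') : Ach R k t' := by
  intro n
  obtain ⟨H, h1, h2⟩ := h n
  exact ⟨H, h1, h2.trans (mul_le_mul_of_nonneg_right htt' (Nat.cast_nonneg _))⟩

lemma ach_one (R k : ℕ) : Ach R k 1 := by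
  intro n
  refine ⟨(univ : Finset (Fin n)).powersetCard k, ⟨?_, ?_⟩, ?_⟩
  · intro e he
    exact (mem_powersetCard.1 he).2
  · intro S hS
    obtain ⟨e, he, hc⟩ := exists_subset_card_eq (s := S) (n := k) (by omega)
    exact ⟨e, mem_powersetCard.2 ⟨subset_univ _, hc⟩, he⟩
  · simp

/-- averaging: if every `k`-set is in `H ω` with (weighted) probability at most `t`, then some
`H ω` has density at most `t` -/
lemma exists_le_of_avg' {n k : ℕ} (P : Finset (Finset (Fin n)) → Prop)
    (hPc : ∀ H, P H → ∀ e ∈ H, e.card = k) {Ω : Type} [Fintype Ω] (p : Ω → ℝ)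
    (hp : ∀ ω, 0 ≤ p ω)
    (hP : 0 < ∑ ω, p ω) (H : Ω → Finset (Finset (Fin n))) (hH : ∀ ω, P (H ω)) (t : ℝ)
    (ht : ∀ X : Finset (Fin n), X.card = k →
      ∑ ω, p ω * (if X ∈ H ω then (1:ℝ) else 0) ≤ t * ∑ ω, p ω) :
    ∃ H : Finset (Finset (Fin n)), P H ∧ (H.card : ℝ) ≤ t * (n.choose k : ℝ) := by
  by_contra hcon
  push Not at hcon
  have h1 : ∀ ω, p ω * (t * (n.choose k : ℝ)) ≤ p ω * ((H ω).card : ℝ) := fun ω =>
    mul_le_mul_of_nonneg_left (hcon (H ω) (hH ω)).le (hp ω)
  have h2 : ∑ ω, p ω * (t * (n.choose k : ℝ)) < ∑ ω, p ω * ((H ω).card : ℝ) := by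
    refine sum_lt_sum (fun ω _ => h1 ω) ?_
    by_contra hc
    push Not at hc
    have : ∀ ω, p ω ≤ 0 := by
      intro ω
      by_contra hpos
      push Not at hpos
      have h3 := hc ω (mem_univ _)
      have h4 := mul_lt_mul_of_pos_left (hcon (H ω) (hH ω)) hpos
      linarith
    have : ∑ ω, p ω ≤ 0 := sum_nonpos fun ω _ => this ω
    linarith
  have h3 : ∀ ω, ((H ω).card : ℝ) =
      ∑ X ∈ (univ : Finset (Fin n)).powersetCard k, (if X ∈ H ω then (1:ℝ) else 0) := by
    intro ω
    rw [← sum_filter, sum_const, nsmul_eq_mul, mul_one]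
    congr 2
    ext X
    rw [mem_filter, mem_powersetCard]
    exact ⟨fun h => ⟨⟨subset_univ _, hPc _ (hH ω) _ h⟩, h⟩, fun h => h.2⟩
  have h4 : ∑ ω, p ω * ((H ω).card : ℝ) ≤ (t * ∑ ω, p ω) * (n.choose k : ℝ) := by
    calc ∑ ω, p ω * ((H ω).card : ℝ)
        = ∑ ω, ∑ X ∈ (univ : Finset (Fin n)).powersetCard k,
          p ω * (if X ∈ H ω then (1:ℝ) else 0) := by
          refine sum_congr rfl fun ω _ => ?_
          rw [h3, mul_sum]
      _ = ∑ X ∈ (univ : Finset (Fin n)).powersetCard k,
          ∑ ω, p ω * (if X ∈ H ω then (1:ℝ) else 0) := sum_comm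
      _ ≤ ∑ X ∈ (univ : Finset (Fin n)).powersetCard k, t * ∑ ω, p ω :=
          sum_le_sum fun X hX => ht X (mem_powersetCard.1 hX).2
      _ = (t * ∑ ω, p ω) * (n.choose k : ℝ) := by
          rw [sum_const, card_powersetCard, card_univ, Fintype.card_fin, nsmul_eq_mul, mul_comm]
  rw [← sum_mul] at h2
  have : (∑ ω, p ω) * (t * (n.choose k : ℝ)) = (t * ∑ ω, p ω) * (n.choose k : ℝ) := by ring
  linarith

section Perm

variable {n : ℕ}

lemma InH_cover' {R k : ℕ} {H : Finset (Finset (Fin n))} (hH : IsSys R k H)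
    (s : Equiv.Perm (Fin n)) {S : Finset (Fin n)} (hS : S.card = k + R) :
    ∃ D ⊆ S, D.card = R ∧ InH H s (S \ D) := by
  obtain ⟨Y, hY, hYS⟩ := hH.2 (S.map s.toEmbedding) (by simpa using hS)
  obtain ⟨X, hX, rfl⟩ := subset_map_iff.1 hYS
  have hXc : X.card = k := by
    have := hH.1 _ hY
    simpa using this
  refine ⟨S \ X, sdiff_subset, ?_, ?_⟩
  · rw [card_sdiff_of_subset hX]; omega
  · rw [sdiff_sdiff_right_self, inf_eq_inter, inter_eq_right.2 hX]
    exact hY

end Perm

/-- `t(k+1+R, k+1) ≤ t(k+R, k)` -/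
lemma Ach.succ {R k : ℕ} {t : ℝ} (h : Ach R k t) : Ach R (k + 1) t := by
  intro n
  obtain ⟨H, hH, hcard⟩ := h n
  -- remove the smallest element
  let f : Finset (Fin n) → Finset (Fin n) := fun X =>
    if hX : X.Nonempty then X.erase (X.min' hX) else ∅
  refine exists_le_of_avg' (IsSys R (k + 1)) (fun H hH => hH.1) (Ω := Equiv.Perm (Fin n))
    (fun _ => 1) (fun _ => zero_le_one) ?_
    (fun s => (univ.powersetCard (k+1)).filter (fun X => InH H s (f X))) ?_ t ?_
  · simp only [sum_const, nsmul_eq_mul, mul_one, card_univ]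
    exact_mod_cast Fintype.card_pos
  · intro s
    refine ⟨?_, ?_⟩
    · intro e he
      exact (mem_powersetCard.1 (mem_filter.1 he).1).2
    · intro S hS
      have hne : S.Nonempty := by rw [← card_pos]; omega
      obtain ⟨D, hD, hDc, hDH⟩ := InH_cover' hH s (S := S.erase (S.min' hne))
        (by rw [card_erase_of_mem (min'_mem _ _)]; omega)
      set m := S.min' hne with hm
      have hmS : m ∈ S := min'_mem _ _
      set X := (S.erase m) \ D with hX
      have hmX : m ∉ X := by
        intro h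
        exact (mem_erase.1 (mem_sdiff.1 h).1).1 rfl
      have hXc : X.card = k := by
        rw [hX, card_sdiff_of_subset hD, card_erase_of_mem hmS]; omega
      have hXS : X ⊆ S := sdiff_subset.trans (erase_subset _ _)
      refine ⟨insert m X, ?_, insert_subset hmS hXS⟩
      rw [mem_filter, mem_powersetCard]
      refine ⟨⟨subset_univ _, by rw [card_insert_of_notMem hmX]; omega⟩, ?_⟩
      have hne2 : (insert m X).Nonempty := insert_nonempty _ _
      have hmin : (insert m X).min' hne2 = m := by
        refine le_antisymm ?_ ?_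
        · exact min'_le _ _ (mem_insert_self _ _)
        · exact min'_le _ _ (insert_subset hmS hXS (min'_mem _ hne2))
      have : f (insert m X) = X := by
        simp only [f, dif_pos hne2, hmin]
        exact erase_insert hmX
      rw [this]
      exact hDH
  · intro X hX
    have hne : X.Nonempty := by rw [← card_pos]; omega
    have hf : (f X).card = k := by
      simp only [f, dif_pos hne]
      rw [card_erase_of_mem (min'_mem _ _)]; omega
    have h1 := card_InH_le hH.1 hcard hf
    simp only [one_mul, sum_const, nsmul_eq_mul, mul_one, card_univ]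
    refine le_trans (le_of_eq ?_) h1
    rw [← sum_filter, sum_const, nsmul_eq_mul, mul_one]
    congr 2
    ext s
    simp [hX]

lemma Ach.of_le {R k k' : ℕ} {t : ℝ} (h : Ach R k t) (hk : k ≤ k') : Ach R k' t := by
  induction k', hk using Nat.le_induction with
  | base => exact h
  | succ k' _ ih => exact ih.succ

/-! ### Densities -/

open Pool.Agent.Helper1.Turan Filter Topology

/-- the Turan density of covering -/
noncomputable def tau (R k : ℕ) : ℝ := 1 - turanDensity k (k + R)

lemma tau_le_of_ach {R k : ℕ} {t : ℝ} (h : Ach R k t) : tau R k ≤ t := by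
  have : 1 - t ≤ turanDensity k (k + R) := by
    refine le_turanDensity_of_frequently (Nat.le_add_right k R)
      (Eventually.frequently (Eventually.of_forall fun n => ?_))
    obtain ⟨H, hH, hc⟩ := h n
    refine ⟨(univ.powersetCard k) \ H, ?_, ?_, ?_⟩
    · intro e he
      exact (mem_powersetCard.1 (mem_sdiff.1 he).1).2
    · intro S hS
      obtain ⟨e, he, heS⟩ := hH.2 S hS
      exact ⟨e, heS, hH.1 e he, fun hmem => (mem_sdiff.1 hmem).2 he⟩
    · have hsub : H ⊆ (univ : Finset (Fin n)).powersetCard k := by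
        intro e he
        rw [mem_powersetCard]
        exact ⟨subset_univ _, hH.1 e he⟩
      have h1 : ((univ.powersetCard k) \ H).card = n.choose k - H.card := by
        rw [card_sdiff_of_subset hsub, card_powersetCard, card_univ, Fintype.card_fin]
      have h2 : H.card ≤ n.choose k := by
        have := card_le_card hsub
        rwa [card_powersetCard, card_univ, Fintype.card_fin] at this
      rw [h1, Nat.cast_sub h2]
      linarith
  unfold tau
  linarith

lemma ach_tau (R k : ℕ) : Ach R k (tau R k) := by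
  intro n
  by_cases hn : k ≤ n
  · obtain ⟨G, g1, g2, g3⟩ := exists_exNum (n := n) (Nat.le_add_right k R)
    refine ⟨(univ.powersetCard k) \ G, ⟨?_, ?_⟩, ?_⟩
    · intro e he
      exact (mem_powersetCard.1 (mem_sdiff.1 he).1).2
    · intro S hS
      obtain ⟨e, he, hc, hn⟩ := g2 S hS
      exact ⟨e, mem_sdiff.2 ⟨mem_powersetCard.2 ⟨subset_univ _, hc⟩, hn⟩, he⟩
    · have hsub : G ⊆ (univ : Finset (Fin n)).powersetCard k := by
        intro e he
        rw [mem_powersetCard]
        exact ⟨subset_univ _, g1 e he⟩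
      have h1 : ((univ.powersetCard k) \ G).card = n.choose k - G.card := by
        rw [card_sdiff_of_subset hsub, card_powersetCard, card_univ, Fintype.card_fin]
      have h2 : G.card ≤ n.choose k := card_le_choose g1
      have h3 := turanDensity_le_ratio (Nat.le_add_right k R) hn
      have hpos : (0:ℝ) < (n.choose k : ℝ) := by exact_mod_cast Nat.choose_pos hn
      rw [le_div_iff₀ hpos, ← g3] at h3
      rw [h1, Nat.cast_sub h2]
      unfold tau
      linarith
  · refine ⟨∅, ⟨by simp, ?_⟩, ?_⟩
    · intro S hS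
      have := card_le_univ S
      rw [Fintype.card_fin] at this
      omega
    · rw [Nat.choose_eq_zero_of_lt (by omega)]; simp

lemma tau_antitone {R k k' : ℕ} (h : k ≤ k') : tau R k' ≤ tau R k :=
  tau_le_of_ach ((ach_tau R k).of_le h)

lemma tau_le_one (R k : ℕ) : tau R k ≤ 1 := tau_le_of_ach (ach_one R k)

/-- on `k+R` vertices a system is nonempty -/
lemma one_le_choose_mul_tau (R k : ℕ) : 1 ≤ ((k + R).choose R : ℝ) * tau R k := by
  obtain ⟨H, hH, hc⟩ := ach_tau R k (k + R)
  obtain ⟨e, he, _⟩ := hH.2 univ (by simp)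
  have h1 : 1 ≤ H.card := card_pos.2 ⟨e, he⟩
  have h2 : (1:ℝ) ≤ (H.card : ℝ) := by exact_mod_cast h1
  have h3 : (k + R).choose k = (k + R).choose R := Nat.choose_symm_add
  rw [h3] at hc
  linarith

lemma tau_pos (R k : ℕ) : 0 < tau R k := by
  have h := one_le_choose_mul_tau R k
  by_contra hcon
  push Not at hcon
  have : ((k + R).choose R : ℝ) * tau R k ≤ 0 :=
    mul_nonpos_of_nonneg_of_nonpos (Nat.cast_nonneg _) hcon
  linarith

end Pool.Agent.Helper3.Turan
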