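import Pool.Agent.Helper4.Recursion
import Pool.Agent.Helper3.SysR

/-!
The recursive construction of Turan `(k+R, k)`-systems from linear dependencies.
-/

namespace Pool.Agent.Helper3.Turan

open Finset Pool.Agent.Helper4.Turan
open scoped Classical

set_option linter.unusedSectionVars false

section Rec

variable {n : ℕ} {Λ : Type} [CommRing Λ] [Fintype Λ]

/-- the condition defining the new system, in terms of `A = X ∩ C`, `B = X \ C` -/
def CondR (R : ℕ) (H : ℕ → Finset (Finset (Fin n))) (s : Equiv.Perm (Fin n))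
    (w : Fin n → Fin n → Λ) (A B : Finset (Fin n)) : Prop :=
  A = ∅ ∨ B = ∅ ∨
  (∃ E ⊆ A, (∃ l : Fin n → Λ, Unimod l ∧ supp l = A \ E ∧ Dep (A.card + R - 1) w l) ∧
    InH (H E.card) s E) ∨
  ((∃ E ⊆ A, E.card < R ∧ ∃ l : Fin n → Λ, Unimod l ∧ supp l = A \ E ∧ Dep (A.card - 1) w l) ∧
    InH (H B.card) s B)

/-- the new family -/
noncomputable def newR (R k : ℕ) (H : ℕ → Finset (Finset (Fin n))) (C : Finset (Fin n))
    (s : Equiv.Perm (Fin n)) (w : Fin n → Fin n → Λ) : Finset (Finset (Fin n)) :=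
  (univ.powersetCard k).filter (fun X => CondR R H s w (X ∩ C) (X \ C))

lemma newR_isSys (hΛ : Helper4.Turan.Star Λ) {R k : ℕ} (hR : 1 ≤ R) {H : ℕ → Finset (Finset (Fin n))}
    (hH : ∀ j < k, IsSys R j (H j)) (C : Finset (Fin n)) (s : Equiv.Perm (Fin n))
    (w : Fin n → Fin n → Λ) : IsSys R k (newR R k H C s w) := by
  refine ⟨?_, ?_⟩
  · intro e he
    exact (mem_powersetCard.1 (mem_filter.1 he).1).2
  · intro S hS
    have hsplit : (S \ C).card + (S ∩ C).card = S.card := card_sdiff_add_card_inter S C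
    have key : ∀ D ⊆ S, D.card = R → CondR R H s w ((S \ D) ∩ C) ((S \ D) \ C) →
        ∃ e ∈ newR R k H C s w, e ⊆ S := by
      intro D hD hDc hc
      refine ⟨S \ D, ?_, sdiff_subset⟩
      unfold newR
      rw [mem_filter, mem_powersetCard]
      exact ⟨⟨subset_univ _, by rw [card_sdiff_of_subset hD]; omega⟩, hc⟩
    by_cases hA : (S ∩ C).card ≤ R
    · obtain ⟨D, h1, h2, h3⟩ := exists_subsuperset_card_eq (inter_subset_left (s₁ := S) (s₂ := C))
        hA (by omega)
      refine key D h2 h3 (Or.inl ?_)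
      rw [eq_empty_iff_forall_notMem]
      intro x hx
      rw [mem_inter, mem_sdiff] at hx
      exact hx.1.2 (h1 (mem_inter.2 ⟨hx.1.1, hx.2⟩))
    by_cases hB : (S \ C).card ≤ R
    · obtain ⟨D, h1, h2, h3⟩ := exists_subsuperset_card_eq (sdiff_subset (s := S) (t := C))
        hB (by omega)
      refine key D h2 h3 (Or.inr (Or.inl ?_))
      rw [eq_empty_iff_forall_notMem]
      intro x hx
      rw [mem_sdiff, mem_sdiff] at hx
      exact hx.1.2 (h1 (mem_sdiff.2 ⟨hx.1.1, hx.2⟩))
    push Not at hA hB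
    obtain ⟨l, hl1, hl2, hl3⟩ := hΛ n ((S ∩ C).card - 1) (S ∩ C) w (by omega)
    have hsub : supp l ⊆ S ∩ C := by
      intro x hx
      by_contra hx'
      exact (mem_supp.1 hx) (hl2 x hx')
    set Z := (S ∩ C) \ supp l with hZ
    have hZsub : Z ⊆ S ∩ C := sdiff_subset
    have hZle : Z.card ≤ (S ∩ C).card := card_le_card hZsub
    by_cases hfew : Z.card < R
    · -- few zeros: remove elements outside `C`
      obtain ⟨D, hD, hDc, hDH⟩ := InH_cover' (hH ((S \ C).card - R) (by omega)) s (S := S \ C)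
        (by omega)
      have hDS : D ⊆ S := hD.trans sdiff_subset
      have e1 : (S \ D) ∩ C = S ∩ C := by
        ext x
        simp only [mem_inter, mem_sdiff]
        constructor
        · rintro ⟨⟨h1, _⟩, h2⟩; exact ⟨h1, h2⟩
        · rintro ⟨h1, h2⟩
          exact ⟨⟨h1, fun h => (mem_sdiff.1 (hD h)).2 h2⟩, h2⟩
      have e2 : (S \ D) \ C = (S \ C) \ D := by
        ext x
        simp only [mem_sdiff]
        tauto
      refine key D hDS hDc (Or.inr (Or.inr (Or.inr ?_)))
      rw [e1, e2]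
      refine ⟨⟨Z, hZsub, hfew, l, hl1, ?_, hl3⟩, ?_⟩
      · rw [hZ, sdiff_sdiff_right_self, inf_eq_inter, inter_eq_right.2 hsub]
      · rw [card_sdiff_of_subset hD, hDc]
        exact hDH
    · -- remove zeros of the dependency
      push Not at hfew
      obtain ⟨D, hD, hDc, hDH⟩ := InH_cover' (hH (Z.card - R) (by omega)) s
        (S := Z) (by omega)
      have hDS : D ⊆ S := hD.trans (hZsub.trans inter_subset_left)
      have e1 : (S \ D) ∩ C = (S ∩ C) \ D := by
        ext x
        simp only [mem_inter, mem_sdiff]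
        tauto
      refine key D hDS hDc (Or.inr (Or.inr (Or.inl ?_)))
      rw [e1]
      refine ⟨Z \ D, ?_, ⟨l, hl1, ?_, ?_⟩, ?_⟩
      · exact sdiff_subset_sdiff hZsub (Subset.refl _)
      · ext x
        simp only [mem_sdiff, hZ]
        constructor
        · intro hx
          have h1 := hsub hx
          have h2 : x ∉ D := fun h => (mem_sdiff.1 (hD h)).2 hx
          exact ⟨⟨h1, h2⟩, fun h => h.1.2 hx⟩
        · rintro ⟨⟨h1, h2⟩, h3⟩
          by_contra hx
          exact h3 ⟨⟨h1, hx⟩, h2⟩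
      · rw [card_sdiff_of_subset (hD.trans hZsub), hDc]
        have : (S ∩ C).card - R + R - 1 = (S ∩ C).card - 1 := by omega
        rw [this]
        exact hl3
      · rw [card_sdiff_of_subset hD, hDc]
        exact hDH

/-- the probability that a binomial variable with parameters `m`, `1/Q` is less than `R` -/
noncomputable def Fb (R : ℕ) (Q : ℝ) (m : ℕ) : ℝ :=
  ∑ i ∈ range R, (m.choose i : ℝ) * ((1 / Q) ^ i * (1 - 1 / Q) ^ (m - i))

lemma Fb_nonneg {R : ℕ} {Q : ℝ} (hQ : 1 ≤ Q) (m : ℕ) : 0 ≤ Fb R Q m := by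
  have h1 : 0 ≤ 1 - 1 / Q := by
    rw [sub_nonneg, div_le_one (by linarith)]; exact hQ
  exact sum_nonneg fun i _ => mul_nonneg (Nat.cast_nonneg _)
    (mul_nonneg (pow_nonneg (by positivity) _) (pow_nonneg h1 _))

lemma sum_small (R : ℕ) (Q : ℝ) {V : Type} (A : Finset V) :
    ∑ E ∈ A.powerset.filter (fun E => E.card < R), (1 / Q) ^ E.card *
      (1 - 1 / Q) ^ (A.card - E.card) = Fb R Q A.card := by
  rw [sum_filter]
  have h := Finset.sum_powerset_apply_card
    (fun j => if j < R then (1 / Q) ^ j * (1 - 1 / Q) ^ (A.card - j) else 0) (x := A)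
  rw [h]
  unfold Fb
  simp only [nsmul_eq_mul, mul_ite, mul_zero]
  rw [← sum_filter]
  have hsub : (range (A.card + 1)).filter (fun j => j < R) ⊆ range R := by
    intro j hj
    rw [mem_filter] at hj
    exact mem_range.2 hj.2
  refine sum_subset hsub ?_
  intro j hj hj'
  have h1 : A.card < j := by
    by_contra hcon
    push Not at hcon
    exact hj' (mem_filter.2 ⟨mem_range.2 (by omega), mem_range.1 hj⟩)
  rw [Nat.choose_eq_zero_of_lt h1]
  simp

/-- probability that the condition holds, for given `A ≠ ∅`, `B ≠ ∅` -/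
lemma card_condR_le [Nontrivial Λ] {R k : ℕ} (hR : 1 ≤ R) (hn : k + R ≤ n)
    {H : ℕ → Finset (Finset (Fin n))} {t : ℕ → ℝ}
    (ht : ∀ j, 0 ≤ t j)
    (hH : ∀ j < k, IsSys R j (H j) ∧ ((H j).card : ℝ) ≤ t j * (n.choose j : ℝ))
    {A B : Finset (Fin n)} (hA : A ≠ ∅) (hB : B ≠ ∅) (hAr : A.card < k) (hBr : B.card < k) :
    ((univ.filter (fun q : Equiv.Perm (Fin n) × (Fin n → Fin n → Λ) =>
      CondR R H q.1 q.2 A B)).card : ℝ) ≤
    ((1 / ((Fintype.card Λˣ : ℝ) * (Fintype.card Λ : ℝ) ^ (R - 1))) *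
        ∑ E ∈ A.powerset, (1 / (Fintype.card Λ : ℝ)) ^ E.card *
        (1 - 1 / (Fintype.card Λ : ℝ)) ^ (A.card - E.card) * t E.card +
      ((Fintype.card Λ : ℝ) / (Fintype.card Λˣ : ℝ)) *
        (Fb R (Fintype.card Λ : ℝ) A.card * t B.card)) *
      (Fintype.card (Equiv.Perm (Fin n) × (Fin n → Fin n → Λ)) : ℝ) := by
  set Q : ℝ := (Fintype.card Λ : ℝ) with hQdef
  set u : ℝ := (Fintype.card Λˣ : ℝ) with hudef
  have hQ1 : 1 ≤ Fintype.card Λ := Fintype.card_pos
  have hQ : 0 < Q := by rw [hQdef]; exact_mod_cast hQ1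
  have hu : 0 < u := by rw [hudef]; exact_mod_cast Fintype.card_pos
  have hQge : 1 ≤ Q := by rw [hQdef]; exact_mod_cast hQ1
  have hQm1 : 0 ≤ Q - 1 := by linarith
  set WD : Finset (Fin n) → Finset (Fin n → Fin n → Λ) := fun E => univ.filter (fun w =>
    ∃ l : Fin n → Λ, Unimod l ∧ supp l = A \ E ∧ Dep (A.card + R - 1) w l) with hWD
  set SD : Finset (Fin n) → Finset (Equiv.Perm (Fin n)) := fun E => univ.filter (fun s =>
    InH (H E.card) s E) with hSD
  set W2 : Finset (Fin n) → Finset (Fin n → Fin n → Λ) := fun E => univ.filter (fun w =>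
    ∃ l : Fin n → Λ, Unimod l ∧ supp l = A \ E ∧ Dep (A.card - 1) w l) with hW2
  set SM : Finset (Finset (Fin n)) := A.powerset.filter (fun E => E.card < R) with hSM
  have hsub : univ.filter (fun q : Equiv.Perm (Fin n) × (Fin n → Fin n → Λ) =>
      CondR R H q.1 q.2 A B) ⊆ (A.powerset.biUnion (fun E => SD E ×ˢ WD E)) ∪
        (SM.biUnion (fun E => SD B ×ˢ W2 E)) := by
    rintro ⟨s, w⟩ hq
    rw [mem_filter] at hq
    rcases hq.2 with h | h | h | h
    · exact absurd h hA
    · exact absurd h hB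
    · obtain ⟨E, hE, h1, h2⟩ := h
      rw [mem_union]; left
      rw [mem_biUnion]
      refine ⟨E, mem_powerset.2 hE, ?_⟩
      rw [mem_product]
      exact ⟨mem_filter.2 ⟨mem_univ _, h2⟩, mem_filter.2 ⟨mem_univ _, h1⟩⟩
    · obtain ⟨⟨E, hE, hEc, h1⟩, h2⟩ := h
      rw [mem_union]; right
      rw [mem_biUnion]
      refine ⟨E, mem_filter.2 ⟨mem_powerset.2 hE, hEc⟩, ?_⟩
      rw [mem_product]
      exact ⟨mem_filter.2 ⟨mem_univ _, h2⟩, mem_filter.2 ⟨mem_univ _, h1⟩⟩
  have hcard : ((univ.filter (fun q : Equiv.Perm (Fin n) × (Fin n → Fin n → Λ) =>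
      CondR R H q.1 q.2 A B)).card : ℝ) ≤
      ∑ E ∈ A.powerset, ((SD E).card : ℝ) * ((WD E).card : ℝ) +
        ∑ E ∈ SM, ((SD B).card : ℝ) * ((W2 E).card : ℝ) := by
    have h1 := (card_le_card hsub).trans (card_union_le _ _)
    have h2 : (A.powerset.biUnion (fun E => SD E ×ˢ WD E)).card ≤
        ∑ E ∈ A.powerset, (SD E ×ˢ WD E).card := card_biUnion_le
    have h2' : (SM.biUnion (fun E => SD B ×ˢ W2 E)).card ≤
        ∑ E ∈ SM, (SD B ×ˢ W2 E).card := card_biUnion_le
    have h3 := h1.trans (Nat.add_le_add h2 h2')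
    simp only [card_product] at h3
    exact_mod_cast h3
  refine hcard.trans ?_
  rw [Fintype.card_prod, Nat.cast_mul, add_mul]
  set P : ℝ := (Fintype.card (Equiv.Perm (Fin n)) : ℝ) with hPdef
  set W : ℝ := (Fintype.card (Fin n → Fin n → Λ) : ℝ) with hWdef
  have hP0 : 0 ≤ P := Nat.cast_nonneg _
  have hW0 : 0 ≤ W := Nat.cast_nonneg _
  have hAn : A.card + R - 1 ≤ n := by omega
  have hApos : 0 < A.card := card_pos.2 (nonempty_iff_ne_empty.2 hA)
  refine add_le_add ?_ ?_
  · rw [mul_sum, sum_mul]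
    refine sum_le_sum fun E hE => ?_
    rw [mem_powerset] at hE
    have hEc : E.card ≤ A.card := card_le_card hE
    have h1 : ((SD E).card : ℝ) ≤ t E.card * P :=
      card_InH_le (hH E.card (by omega)).1.1 (hH E.card (by omega)).2 rfl
    have h2 : ((WD E).card : ℝ) ≤ (Q - 1) ^ (A \ E).card / (u * Q ^ (A.card + R - 1)) * W :=
      card_exists_dep_real hAn (A \ E)
    rw [card_sdiff_of_subset hE] at h2
    calc ((SD E).card : ℝ) * ((WD E).card : ℝ)
        ≤ (t E.card * P) * ((Q - 1) ^ (A.card - E.card) / (u * Q ^ (A.card + R - 1)) * W) :=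
          mul_le_mul h1 h2 (Nat.cast_nonneg _) (mul_nonneg (ht _) hP0)
      _ = _ := by
          have e1 : (1 - 1 / Q) ^ (A.card - E.card) = (Q - 1) ^ (A.card - E.card) /
              Q ^ (A.card - E.card) := by
            rw [← div_pow]; congr 1; field_simp
          have e2 : Q ^ (A.card + R - 1) = Q ^ (R - 1) * (Q ^ E.card * Q ^ (A.card - E.card)) := by
            rw [← pow_add, ← pow_add]; congr 1; omega
          rw [e1, e2, one_div, one_div, inv_pow]
          have : Q ^ E.card ≠ 0 := (pow_pos hQ _).ne'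
          have : Q ^ (A.card - E.card) ≠ 0 := (pow_pos hQ _).ne'
          have : Q ^ (R - 1) ≠ 0 := (pow_pos hQ _).ne'
          field_simp
  · have h1 : ((SD B).card : ℝ) ≤ t B.card * P :=
      card_InH_le (hH B.card hBr).1.1 (hH B.card hBr).2 rfl
    rw [← sum_small R Q A, sum_mul, mul_sum, sum_mul]
    refine sum_le_sum fun E hE => ?_
    rw [hSM, mem_filter, mem_powerset] at hE
    have hEc : E.card ≤ A.card := card_le_card hE.1
    have h2 : ((W2 E).card : ℝ) ≤ (Q - 1) ^ (A \ E).card / (u * Q ^ (A.card - 1)) * W :=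
      card_exists_dep_real (by omega) (A \ E)
    rw [card_sdiff_of_subset hE.1] at h2
    calc ((SD B).card : ℝ) * ((W2 E).card : ℝ)
        ≤ (t B.card * P) * ((Q - 1) ^ (A.card - E.card) / (u * Q ^ (A.card - 1)) * W) :=
          mul_le_mul h1 h2 (Nat.cast_nonneg _) (mul_nonneg (ht _) hP0)
      _ = _ := by
          have e1 : (1 - 1 / Q) ^ (A.card - E.card) = (Q - 1) ^ (A.card - E.card) /
              Q ^ (A.card - E.card) := by
            rw [← div_pow]; congr 1; field_simp
          have e2 : Q ^ E.card * Q ^ (A.card - E.card) = Q * Q ^ (A.card - 1) := by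
            rw [← pow_add, ← pow_succ']; congr 1; omega
          have h3 : Q ^ E.card ≠ 0 := (pow_pos hQ _).ne'
          have h4 : Q ^ (A.card - E.card) ≠ 0 := (pow_pos hQ _).ne'
          have h5 : Q ^ (A.card - 1) ≠ 0 := (pow_pos hQ _).ne'
          have e3 : (1 / Q) ^ E.card * ((Q - 1) ^ (A.card - E.card) / Q ^ (A.card - E.card)) =
              (Q - 1) ^ (A.card - E.card) / (Q * Q ^ (A.card - 1)) := by
            rw [← e2, one_div, inv_pow]
            field_simp
          rw [e1, e3]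
          field_simp

/-- the recursion -/
theorem recursionR (Λ : Type) [CommRing Λ] [Fintype Λ] [Nontrivial Λ] (hΛ : Helper4.Turan.Star Λ)
    {a b : ℝ} (ha : 0 ≤ a) (hb : 0 ≤ b)
    (hab : a + b = 1) {R k : ℕ} (hR : 1 ≤ R) {t : ℕ → ℝ} (ht : ∀ j, 0 ≤ t j)
    (hA : ∀ j < k, Ach R j (t j)) :
    Ach R k (a ^ k + b ^ k +
      (1 / ((Fintype.card Λˣ : ℝ) * (Fintype.card Λ : ℝ) ^ (R - 1))) *
        ∑ j ∈ range k, (k.choose j : ℝ) *
        ((a / (Fintype.card Λ : ℝ)) ^ j * (1 - a / (Fintype.card Λ : ℝ)) ^ (k - j) * t j) +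
      ((Fintype.card Λ : ℝ) / (Fintype.card Λˣ : ℝ)) * ∑ m ∈ Ico 1 k, (k.choose m : ℝ) *
        (a ^ m * b ^ (k - m) * (Fb R (Fintype.card Λ : ℝ) m * t (k - m)))) := by
  set Q : ℝ := (Fintype.card Λ : ℝ) with hQdef
  set u : ℝ := (Fintype.card Λˣ : ℝ) with hudef
  have hQ1 : 1 ≤ Fintype.card Λ := Fintype.card_pos
  have hQ : 0 < Q := by rw [hQdef]; exact_mod_cast hQ1
  have hu : 0 < u := by rw [hudef]; exact_mod_cast Fintype.card_pos
  have hQge : 1 ≤ Q := by rw [hQdef]; exact_mod_cast hQ1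
  have hQinv : 0 ≤ 1 - 1 / Q := by
    rw [sub_nonneg, div_le_one hQ]; exact hQge
  have haQ : 0 ≤ 1 - a / Q := by
    rw [sub_nonneg, div_le_one hQ]; linarith
  intro n
  by_cases hn : n < k + R
  · refine ⟨∅, ⟨by simp, ?_⟩, ?_⟩
    · intro S hS
      have := card_le_univ S
      rw [Fintype.card_fin] at this
      omega
    · simp only [card_empty, Nat.cast_zero]
      refine mul_nonneg ?_ (Nat.cast_nonneg _)
      refine add_nonneg (add_nonneg (add_nonneg (pow_nonneg ha _) (pow_nonneg hb _)) ?_) ?_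
      · refine mul_nonneg (by positivity) (sum_nonneg fun j _ => ?_)
        exact mul_nonneg (Nat.cast_nonneg _) (mul_nonneg (mul_nonneg
          (pow_nonneg (by positivity) _) (pow_nonneg haQ _)) (ht j))
      · refine mul_nonneg (by positivity) (sum_nonneg fun j _ => ?_)
        exact mul_nonneg (Nat.cast_nonneg _) (mul_nonneg (mul_nonneg
          (pow_nonneg ha _) (pow_nonneg hb _)) (mul_nonneg (Fb_nonneg hQge _) (ht _)))
  push Not at hn
  have hch : ∀ j : ℕ, ∃ H : Finset (Finset (Fin n)), j < k →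
      (IsSys R j H ∧ (H.card : ℝ) ≤ t j * (n.choose j : ℝ)) := by
    intro j
    by_cases hj : j < k
    · obtain ⟨H, h1, h2⟩ := hA j hj n
      exact ⟨H, fun _ => ⟨h1, h2⟩⟩
    · exact ⟨∅, fun h => absurd h hj⟩
  choose H hH using hch
  set N : ℝ := (Fintype.card (Equiv.Perm (Fin n) × (Fin n → Fin n → Λ)) : ℝ) with hN
  have hNpos : 0 < N := by rw [hN]; exact_mod_cast Fintype.card_pos
  -- total weight
  have htot : ∑ ω : Finset (Fin n) × (Equiv.Perm (Fin n) × (Fin n → Fin n → Λ)),
      a ^ ω.1.card * b ^ (Fintype.card (Fin n) - ω.1.card) = N := by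
    rw [Fintype.sum_prod_type]
    simp only [sum_const, nsmul_eq_mul, card_univ]
    rw [← mul_sum]
    have := sum_inter (V := Fin n) ∅ (fun _ => 1) hab
    simp only [mul_one, powerset_empty, sum_singleton, card_empty, pow_zero, Nat.sub_zero] at this
    rw [this, mul_one]
  refine exists_le_of_avg' (IsSys R k) (fun H hH => hH.1)
    (Ω := Finset (Fin n) × (Equiv.Perm (Fin n) × (Fin n → Fin n → Λ)))
    (fun ω => a ^ ω.1.card * b ^ (Fintype.card (Fin n) - ω.1.card))
    (fun ω => mul_nonneg (pow_nonneg ha _) (pow_nonneg hb _))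
    (by rw [htot]; exact hNpos)
    (fun ω => newR R k H ω.1 ω.2.1 ω.2.2)
    (fun ω => newR_isSys hΛ hR (fun j hj => (hH j hj).1) ω.1 ω.2.1 ω.2.2) _ ?_
  intro X hX
  rw [htot]
  -- the bound for a given trace
  set f : Finset (Fin n) → ℝ := fun A =>
    ((univ.filter (fun q : Equiv.Perm (Fin n) × (Fin n → Fin n → Λ) =>
      CondR R H q.1 q.2 A (X \ A))).card : ℝ) with hf
  have hsum : ∑ ω : Finset (Fin n) × (Equiv.Perm (Fin n) × (Fin n → Fin n → Λ)),
      a ^ ω.1.card * b ^ (Fintype.card (Fin n) - ω.1.card) *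
        (if X ∈ newR R k H ω.1 ω.2.1 ω.2.2 then (1:ℝ) else 0) =
      ∑ A ∈ X.powerset, a ^ A.card * b ^ (X.card - A.card) * f A := by
    rw [← sum_inter X f hab, Fintype.sum_prod_type]
    refine sum_congr rfl fun C _ => ?_
    simp only
    rw [← mul_sum, ← sum_filter, sum_const, nsmul_eq_mul, mul_one]
    congr 3
    ext q
    simp only [mem_filter, mem_univ, true_and, newR, mem_powersetCard, subset_univ, hX]
    rw [sdiff_inter_self_left]
  rw [hsum]
  -- auxiliary functions
  set t1 : ℕ → ℝ := fun j => if j < k then t j else 0 with ht1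
  set t2 : ℕ → ℝ := fun j => if 1 ≤ j ∧ j < k then t j else 0 with ht2
  have ht1n : ∀ j, 0 ≤ t1 j := fun j => by
    simp only [ht1]; split_ifs
    · exact ht j
    · exact le_rfl
  have ht2n : ∀ j, 0 ≤ t2 j := fun j => by
    simp only [ht2]; split_ifs
    · exact ht j
    · exact le_rfl
  set c1 : ℝ := 1 / (u * Q ^ (R - 1)) with hc1
  have hc1n : 0 ≤ c1 := by positivity
  set F1 : Finset (Fin n) → ℝ := fun A => ∑ E ∈ A.powerset, (1 / Q) ^ E.card *
        (1 - 1 / Q) ^ (A.card - E.card) * t1 E.card with hF1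
  set F2 : Finset (Fin n) → ℝ := fun A => Fb R Q A.card * t2 (X \ A).card with hF2
  have hbound : ∀ A ∈ X.powerset, f A ≤ ((if A = X then 1 else 0) + (if A = ∅ then 1 else 0) +
      c1 * F1 A + (Q / u) * F2 A) * N := by
    intro A hAX
    rw [mem_powerset] at hAX
    have hF1n : 0 ≤ F1 A := sum_nonneg fun E _ =>
      mul_nonneg (mul_nonneg (pow_nonneg (by positivity) _) (pow_nonneg hQinv _)) (ht1n _)
    have hF2n : 0 ≤ F2 A := mul_nonneg (Fb_nonneg hQge _) (ht2n _)
    have hfN : f A ≤ N := by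
      simp only [hf, hN]
      exact_mod_cast card_le_univ _
    have hnn : 0 ≤ c1 * F1 A + (Q / u) * F2 A := by positivity
    by_cases h1 : A = X
    · rw [if_pos h1]
      have h0 : (0:ℝ) ≤ (if A = ∅ then 1 else 0) := by split_ifs <;> norm_num
      refine hfN.trans ?_
      nlinarith
    by_cases h2 : A = ∅
    · rw [if_pos h2, if_neg h1]
      refine hfN.trans ?_
      nlinarith
    rw [if_neg h1, if_neg h2, zero_add, zero_add]
    have hss : A ⊂ X := lt_of_le_of_ne hAX h1
    have hc1' : A.card < k := by rw [← hX]; exact card_lt_card hss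
    have hc2 : 0 < A.card := card_pos.2 (nonempty_iff_ne_empty.2 h2)
    have hc3 : (X \ A).card = k - A.card := by rw [card_sdiff_of_subset hAX, hX]
    have hB : X \ A ≠ ∅ := by
      intro h
      rw [← card_eq_zero] at h
      omega
    have := card_condR_le (Λ := Λ) hR hn ht (fun j hj => hH j hj) h2 hB hc1' (by omega)
    refine this.trans (le_of_eq ?_)
    congr 1
    have e1 : F1 A = ∑ E ∈ A.powerset, (1 / Q) ^ E.card *
        (1 - 1 / Q) ^ (A.card - E.card) * t E.card := by
      refine sum_congr rfl fun E hE => ?_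
      have : E.card ≤ A.card := card_le_card (mem_powerset.1 hE)
      simp only [ht1]
      rw [if_pos (by omega)]
    have e2 : F2 A = Fb R Q A.card * t (X \ A).card := by
      simp only [hF2, ht2]
      rw [if_pos ⟨by omega, by omega⟩]
    rw [e1, e2]
  have hstep : ∑ A ∈ X.powerset, a ^ A.card * b ^ (X.card - A.card) * f A ≤
      ∑ A ∈ X.powerset, a ^ A.card * b ^ (X.card - A.card) *
        (((if A = X then 1 else 0) + (if A = ∅ then 1 else 0) +
      c1 * F1 A + (Q / u) * F2 A) * N) := by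
    refine sum_le_sum fun A hA => ?_
    exact mul_le_mul_of_nonneg_left (hbound A hA) (mul_nonneg (pow_nonneg ha _) (pow_nonneg hb _))
  refine hstep.trans (le_of_eq ?_)
  have hsplit : ∑ A ∈ X.powerset, a ^ A.card * b ^ (X.card - A.card) *
        (((if A = X then 1 else 0) + (if A = ∅ then 1 else 0) +
      c1 * F1 A + (Q / u) * F2 A) * N) =
      (∑ A ∈ X.powerset, a ^ A.card * b ^ (X.card - A.card) * (if A = X then 1 else 0) +
       ∑ A ∈ X.powerset, a ^ A.card * b ^ (X.card - A.card) * (if A = ∅ then 1 else 0) +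
       c1 * ∑ A ∈ X.powerset, a ^ A.card * b ^ (X.card - A.card) * F1 A +
       (Q / u) * ∑ A ∈ X.powerset, a ^ A.card * b ^ (X.card - A.card) * F2 A) * N := by
    rw [mul_sum, mul_sum, ← sum_add_distrib, ← sum_add_distrib, ← sum_add_distrib, sum_mul]
    refine sum_congr rfl fun A _ => ?_
    ring
  rw [hsplit]
  congr 1
  have s1 : ∑ A ∈ X.powerset, a ^ A.card * b ^ (X.card - A.card) *
      (if A = X then (1:ℝ) else 0) = a ^ k := by
    rw [Finset.sum_eq_single X]
    · rw [if_pos rfl, hX]; simp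
    · intro A _ hne
      rw [if_neg hne, mul_zero]
    · intro h
      exact absurd (mem_powerset.2 (Subset.refl X)) h
  have s2 : ∑ A ∈ X.powerset, a ^ A.card * b ^ (X.card - A.card) *
      (if A = ∅ then (1:ℝ) else 0) = b ^ k := by
    rw [Finset.sum_eq_single ∅]
    · rw [if_pos rfl, hX]; simp
    · intro A _ hne
      rw [if_neg hne, mul_zero]
    · intro h
      exact absurd (mem_powerset.2 (empty_subset X)) h
  have s3 : ∑ A ∈ X.powerset, a ^ A.card * b ^ (X.card - A.card) * F1 A =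
      ∑ j ∈ range k, (k.choose j : ℝ) * ((a / Q) ^ j * (1 - a / Q) ^ (k - j) * t j) := by
    simp only [hF1]
    rw [sum_nested X (fun E => t1 E.card) a b (1 / Q) (1 - 1 / Q)]
    have e1 : a * (1 / Q) = a / Q := by ring
    have e2 : a * (1 - 1 / Q) + b = 1 - a / Q := by
      have : b = 1 - a := by linarith
      rw [this]; ring
    rw [e1, e2, Finset.sum_powerset_apply_card
      (fun j => (a / Q) ^ j * (1 - a / Q) ^ (X.card - j) * t1 j), hX, sum_range_succ]
    have e3 : t1 k = 0 := by simp [ht1]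
    rw [e3, mul_zero, smul_zero, add_zero]
    refine sum_congr rfl fun j hj => ?_
    have e4 : t1 j = t j := by simp only [ht1]; rw [if_pos (mem_range.1 hj)]
    rw [e4, nsmul_eq_mul]
  have s4 : ∑ A ∈ X.powerset, a ^ A.card * b ^ (X.card - A.card) * F2 A =
      ∑ m ∈ Ico 1 k, (k.choose m : ℝ) * (a ^ m * b ^ (k - m) * (Fb R Q m * t (k - m))) := by
    have e1 : ∑ A ∈ X.powerset, a ^ A.card * b ^ (X.card - A.card) * F2 A =
        ∑ A ∈ X.powerset, (fun j => a ^ j * b ^ (k - j) * (Fb R Q j * t2 (k - j))) A.card := by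
      refine sum_congr rfl fun A hA => ?_
      have : (X \ A).card = k - A.card := by
        rw [card_sdiff_of_subset (mem_powerset.1 hA), hX]
      simp only [hF2, this, hX]
    rw [e1, Finset.sum_powerset_apply_card
      (fun j => a ^ j * b ^ (k - j) * (Fb R Q j * t2 (k - j))), hX]
    simp only [nsmul_eq_mul]
    have e5 : Ico 1 k ⊆ range (k + 1) := by
      intro j hj
      rw [mem_Ico] at hj
      rw [mem_range]; omega
    rw [← Finset.sum_subset e5]
    · refine sum_congr rfl fun j hj => ?_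
      rw [mem_Ico] at hj
      have : t2 (k - j) = t (k - j) := by
        simp only [ht2]; rw [if_pos ⟨by omega, by omega⟩]
      rw [this]
    · intro j hj' hj
      rw [mem_range] at hj'
      rw [mem_Ico] at hj
      have : t2 (k - j) = 0 := by
        simp only [ht2]; rw [if_neg]
        omega
      rw [this, mul_zero, mul_zero, mul_zero]
  rw [s1, s2, s3, s4]

end Rec

end Pool.Agent.Helper3.Turan
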