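import Pool.Agent.Helper3.UWords

/-!
The bound `C(k+R,R) (1 - π(K_{k+R}^k)) ≤ 27 R log (k+R)`.
-/

namespace Pool.Agent.Helper3.Turan

open Finset Pool.Agent.Helper4.Turan
open scoped Classical

/-! ### Greedy covering -/

section Greedy

variable {α β : Type} [Fintype β]

lemma greedy (rel : α → β → Prop) {W : ℝ} (hW : 1 ≤ W)
    (h : ∀ U : Finset β, U.Nonempty → ∃ a, (U.card : ℝ) ≤ W * ((U.filter (rel a)).card : ℝ))
    (t : ℕ) : ∃ G : Finset α, G.card ≤ t ∧
      (((univ : Finset β).filter (fun b => ∀ a ∈ G, ¬ rel a b)).card : ℝ) ≤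
        (1 - 1 / W) ^ t * (Fintype.card β : ℝ) := by
  have hW0 : 0 < W := by linarith
  have hq : 0 ≤ 1 - 1 / W := by
    rw [sub_nonneg, div_le_one hW0]; exact hW
  induction t with
  | zero =>
    refine ⟨∅, by simp, ?_⟩
    rw [pow_zero, one_mul]
    exact_mod_cast card_le_univ _
  | succ t ih =>
    obtain ⟨G, hG1, hG2⟩ := ih
    set U := (univ : Finset β).filter (fun b => ∀ a ∈ G, ¬ rel a b) with hU
    by_cases hne : U.Nonempty
    · obtain ⟨a, ha⟩ := h U hne
      refine ⟨insert a G, (card_insert_le _ _).trans (by omega), ?_⟩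
      have h1 : (univ : Finset β).filter (fun b => ∀ a' ∈ insert a G, ¬ rel a' b) =
          U.filter (fun b => ¬ rel a b) := by
        ext b
        simp only [hU, mem_filter, mem_univ, true_and, mem_insert, forall_eq_or_imp]
        tauto
      rw [h1]
      have h2 : (U.filter (rel a)).card + (U.filter (fun b => ¬ rel a b)).card = U.card :=
        card_filter_add_card_filter_not _
      have h3 : ((U.filter (rel a)).card : ℝ) + ((U.filter (fun b => ¬ rel a b)).card : ℝ) =
          (U.card : ℝ) := by exact_mod_cast h2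
      have h4 : (U.card : ℝ) / W ≤ ((U.filter (rel a)).card : ℝ) := by
        rw [div_le_iff₀ hW0]; linarith
      calc ((U.filter (fun b => ¬ rel a b)).card : ℝ) ≤ (1 - 1 / W) * (U.card : ℝ) := by
            have e : (1 - 1 / W) * (U.card : ℝ) = U.card - U.card / W := by ring
            rw [e]; linarith
        _ ≤ (1 - 1 / W) * ((1 - 1 / W) ^ t * (Fintype.card β : ℝ)) :=
            mul_le_mul_of_nonneg_left hG2 hq
        _ = _ := by ring
    · rw [not_nonempty_iff_eq_empty] at hne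
      refine ⟨G, by omega, ?_⟩
      rw [← hU, hne]
      simp only [card_empty, Nat.cast_zero]
      positivity

lemma greedy_total (rel : α → β → Prop) {W L : ℝ} (hW : 1 ≤ W)
    (h : ∀ U : Finset β, U.Nonempty → ∃ a, (U.card : ℝ) ≤ W * ((U.filter (rel a)).card : ℝ))
    (hL : 0 ≤ L) (hβ : (Fintype.card β : ℝ) ≤ W * Real.exp L) :
    ∃ G : Finset α, (∀ b, ∃ a ∈ G, rel a b) ∧ (G.card : ℝ) ≤ W * (L + 2) := by
  have hW0 : 0 < W := by linarith
  obtain ⟨G, hG1, hG2⟩ := greedy rel hW h ⌈W * L⌉₊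
  have hex : ∀ b, ∃ a, rel a b := by
    intro b
    obtain ⟨a, ha⟩ := h {b} (singleton_nonempty b)
    by_contra hcon
    push Not at hcon
    have : ({b} : Finset β).filter (rel a) = ∅ := by
      rw [filter_eq_empty_iff]
      intro x hx
      rw [mem_singleton] at hx
      rw [hx]; exact hcon a
    rw [this] at ha
    simp at ha
    linarith
  choose c hc using hex
  set U := (univ : Finset β).filter (fun b => ∀ a ∈ G, ¬ rel a b) with hU
  refine ⟨G ∪ U.image c, ?_, ?_⟩
  · intro b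
    by_cases hb : b ∈ U
    · exact ⟨c b, mem_union_right _ (mem_image_of_mem c hb), hc b⟩
    · rw [hU, mem_filter] at hb
      push Not at hb
      obtain ⟨a, ha, hab⟩ := hb (mem_univ _)
      exact ⟨a, mem_union_left _ ha, hab⟩
  · have h1 : (G ∪ U.image c).card ≤ G.card + U.card :=
      (card_union_le _ _).trans (Nat.add_le_add_left card_image_le _)
    have h2 : ((G ∪ U.image c).card : ℝ) ≤ (G.card : ℝ) + (U.card : ℝ) := by exact_mod_cast h1
    have h3 : (G.card : ℝ) ≤ W * L + 1 := by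
      have h4 : (G.card : ℝ) ≤ (⌈W * L⌉₊ : ℝ) := by exact_mod_cast hG1
      have h5 := Nat.ceil_lt_add_one (mul_nonneg hW0.le hL)
      linarith
    have h6 : (1 - 1 / W) ^ ⌈W * L⌉₊ ≤ Real.exp (-L) := by
      have h7 : 1 - 1 / W ≤ Real.exp (-(1 / W)) := by
        have := Real.add_one_le_exp (-(1 / W))
        linarith
      have h8 : 0 ≤ 1 - 1 / W := by
        rw [sub_nonneg, div_le_one hW0]; exact hW
      calc (1 - 1 / W) ^ ⌈W * L⌉₊ ≤ (Real.exp (-(1 / W))) ^ ⌈W * L⌉₊ :=
            pow_le_pow_left₀ h8 h7 _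
        _ = Real.exp (⌈W * L⌉₊ * (-(1 / W))) := by rw [← Real.exp_nat_mul]
        _ ≤ Real.exp (-L) := by
            refine Real.exp_le_exp.2 ?_
            have h9 := Nat.le_ceil (W * L)
            have h10 : W * L * (1 / W) ≤ (⌈W * L⌉₊ : ℝ) * (1 / W) :=
              mul_le_mul_of_nonneg_right h9 (by positivity)
            have h11 : W * L * (1 / W) = L := by field_simp
            linarith
    have h12 : (U.card : ℝ) ≤ W := by
      refine hG2.trans ?_
      calc (1 - 1 / W) ^ ⌈W * L⌉₊ * (Fintype.card β : ℝ)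
          ≤ Real.exp (-L) * (W * Real.exp L) :=
            mul_le_mul h6 hβ (Nat.cast_nonneg _) (Real.exp_pos _).le
        _ = W * (Real.exp (-L) * Real.exp L) := by ring
        _ = W := by rw [← Real.exp_add]; simp
    nlinarith

end Greedy

/-! ### From words to systems -/

lemma ach_of_words {k R N : ℕ} (hN : 0 < N) (G : Finset (Fin k → Fin N))
    (hG : ∀ f : Fin (k + R) → Fin N, ∃ g ∈ G, Sub g f) :
    Ach R k ((G.card : ℝ) / (N : ℝ) ^ k) := by
  intro n
  have hN0 : (0:ℝ) < N := by exact_mod_cast hN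
  refine exists_le_of_avg' (IsSys R k) (fun H hH => hH.1) (Ω := Fin n → Fin N)
    (fun _ => 1) (fun _ => zero_le_one) ?_
    (fun ω => (univ.powersetCard k).filter (fun X => ∃ hX : X.card = k, res ω X hX ∈ G)) ?_ _ ?_
  · simp only [sum_const, nsmul_eq_mul, mul_one, card_univ, Fintype.card_fun, Fintype.card_fin]
    positivity
  · intro ω
    refine ⟨?_, ?_⟩
    · intro e he
      exact (mem_powersetCard.1 (mem_filter.1 he).1).2
    · intro S hS
      obtain ⟨g, hg, P, hP, hPg⟩ := hG (res ω S hS)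
      have hX : (P.map (S.orderEmbOfFin hS).toEmbedding).card = k := by rw [card_map, hP]
      refine ⟨P.map (S.orderEmbOfFin hS).toEmbedding, ?_, ?_⟩
      · rw [mem_filter, mem_powersetCard]
        refine ⟨⟨subset_univ _, hX⟩, hX, ?_⟩
        have huniq : ((P.orderEmbOfFin hP).trans (S.orderEmbOfFin hS)) =
            (P.map (S.orderEmbOfFin hS).toEmbedding).orderEmbOfFin hX := by
          refine Finset.orderEmbOfFin_unique' hX ?_
          intro i
          exact mem_map_of_mem _ (P.orderEmbOfFin_mem hP i)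
        have : res ω (P.map (S.orderEmbOfFin hS).toEmbedding) hX = g := by
          rw [← hPg]
          funext i
          unfold res
          rw [← huniq]
          rfl
        rw [this]
        exact hg
      · intro x hx
        obtain ⟨i, _, rfl⟩ := Finset.mem_map.1 hx
        exact S.orderEmbOfFin_mem hS i
  · intro X hX
    have hkn : k ≤ n := by
      have := card_le_univ X
      rw [Fintype.card_fin] at this
      omega
    have h1 : ∑ ω : Fin n → Fin N, (1:ℝ) * (if X ∈ (univ.powersetCard k).filter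
        (fun X => ∃ hX : X.card = k, res ω X hX ∈ G) then (1:ℝ) else 0) =
        (((univ : Finset (Fin n → Fin N)).filter (fun ω => res ω X hX ∈ G)).card : ℝ) := by
      simp only [one_mul]
      rw [← sum_filter, sum_const, nsmul_eq_mul, mul_one]
      congr 2
      ext ω
      simp only [mem_filter, mem_univ, true_and, mem_powersetCard]
      constructor
      · rintro ⟨_, h, h2⟩
        exact h2
      · intro h
        exact ⟨⟨subset_univ _, hX⟩, hX, h⟩
    rw [h1]
    have h2 : ((univ : Finset (Fin n → Fin N)).filter (fun ω => res ω X hX ∈ G)).card ≤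
        N ^ (n - k) * G.card := by
      refine card_le_mul_card_image_of_maps_to (f := fun ω => res ω X hX)
        (fun ω hω => (mem_filter.1 hω).2) _ ?_
      intro g hg
      have hinj : Set.InjOn (fun (ω : Fin n → Fin N) (i : ↥(Xᶜ)) => ω i.1)
          (((univ : Finset (Fin n → Fin N)).filter (fun ω => res ω X hX ∈ G)).filter
            (fun ω => res ω X hX = g) : Set (Fin n → Fin N)) := by
        intro ω1 h1 ω2 h2 h12
        have e1 : res ω1 X hX = g := (mem_filter.1 (mem_coe.1 h1)).2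
        have e2 : res ω2 X hX = g := (mem_filter.1 (mem_coe.1 h2)).2
        funext x
        by_cases hx : x ∈ X
        · obtain ⟨i, hi⟩ := exists_emb_eq hX hx
          have := congrFun (e1.trans e2.symm) i
          unfold res at this
          rwa [hi] at this
        · exact congrFun h12 ⟨x, mem_compl.2 hx⟩
      have h3 := card_le_card_of_injOn (t := (univ : Finset (↥(Xᶜ) → Fin N)))
        (fun (ω : Fin n → Fin N) (i : ↥(Xᶜ)) => ω i.1) (fun ω _ => mem_univ _) hinj
      refine h3.trans (le_of_eq ?_)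
      rw [card_univ, Fintype.card_fun, Fintype.card_fin, Fintype.card_coe, card_compl,
        Fintype.card_fin, hX]
    simp only [sum_const, nsmul_eq_mul, mul_one, card_univ, Fintype.card_fun, Fintype.card_fin]
    have h3 : (((univ : Finset (Fin n → Fin N)).filter (fun ω => res ω X hX ∈ G)).card : ℝ) ≤
        (N : ℝ) ^ (n - k) * G.card := by exact_mod_cast h2
    refine h3.trans (le_of_eq ?_)
    have e : (N : ℝ) ^ n = N ^ k * N ^ (n - k) := by rw [← pow_add]; congr 1; omega
    push_cast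
    rw [e]
    field_simp

/-! ### Numerical estimates -/

lemma choose_mul_pow_le (m j : ℕ) :
    (m.choose j : ℝ) * ((j / 2 : ℕ) : ℝ) ^ j ≤ (2 * (m : ℝ)) ^ j := by
  have h1 : (m.choose j : ℝ) ≤ (m : ℝ) ^ j / (j.factorial : ℝ) := Nat.choose_le_pow_div j m
  have h2 := Real.pow_div_factorial_le_exp ((j / 2 : ℕ) : ℝ) (Nat.cast_nonneg _) j
  have hf : (0:ℝ) < (j.factorial : ℝ) := by exact_mod_cast j.factorial_pos
  have h3 : Real.exp ((j / 2 : ℕ) : ℝ) ≤ 2 ^ j := by
    have h4 : Real.exp ((j / 2 : ℕ) : ℝ) = (Real.exp 1) ^ (j / 2) := by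
      rw [← Real.exp_nat_mul]; simp
    rw [h4]
    calc (Real.exp 1) ^ (j / 2) ≤ 4 ^ (j / 2) := by
          refine pow_le_pow_left₀ (Real.exp_pos _).le ?_ _
          have := Real.exp_one_lt_d9
          linarith
      _ = 2 ^ (2 * (j / 2)) := by rw [pow_mul]; norm_num
      _ ≤ 2 ^ j := pow_le_pow_right₀ (by norm_num) (by omega)
  calc (m.choose j : ℝ) * ((j / 2 : ℕ) : ℝ) ^ j
      ≤ ((m : ℝ) ^ j / (j.factorial : ℝ)) * ((j / 2 : ℕ) : ℝ) ^ j :=
        mul_le_mul_of_nonneg_right h1 (by positivity)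
    _ = (m : ℝ) ^ j * (((j / 2 : ℕ) : ℝ) ^ j / (j.factorial : ℝ)) := by ring
    _ ≤ (m : ℝ) ^ j * 2 ^ j := mul_le_mul_of_nonneg_left (h2.trans h3) (by positivity)
    _ = (2 * (m : ℝ)) ^ j := by rw [mul_pow]; ring

lemma choose_pw_le {m k j : ℕ} (hj : j ≤ k) (hk : k < m) :
    (k.choose j : ℝ) * pw m k j * (m.choose k : ℝ) ≤ (m.choose j : ℝ) * m := by
  have h1 : m.choose k * k.choose j = m.choose j * (m - j).choose (k - j) :=
    Nat.choose_mul hj
  have h1' : (m.choose k : ℝ) * (k.choose j : ℝ) =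
      (m.choose j : ℝ) * ((m - j).choose (k - j) : ℝ) := by exact_mod_cast h1
  have hm : (1:ℝ) ≤ m := by exact_mod_cast (by omega : 1 ≤ m)
  unfold pw
  split_ifs with h
  · have h2 : (m - j).choose (k - j) ≤ m := by
      rcases (by omega : k - j = 0 ∨ k - j = 1) with h3 | h3
      · rw [h3]; simp; omega
      · rw [h3]; simp
    have h2' : ((m - j).choose (k - j) : ℝ) ≤ m := by exact_mod_cast h2
    calc (k.choose j : ℝ) * 1 * (m.choose k : ℝ) = (m.choose k : ℝ) * (k.choose j : ℝ) := by ring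
      _ = (m.choose j : ℝ) * ((m - j).choose (k - j) : ℝ) := h1'
      _ ≤ _ := mul_le_mul_of_nonneg_left h2' (Nat.cast_nonneg _)
  · have hpos : (0:ℝ) < ((m - j).choose (k - j) : ℝ) := by
      exact_mod_cast Nat.choose_pos (by omega)
    have e : (k.choose j : ℝ) * (1 / ((m - j).choose (k - j) : ℝ)) * (m.choose k : ℝ) =
        (m.choose j : ℝ) := by
      have : (k.choose j : ℝ) * (1 / ((m - j).choose (k - j) : ℝ)) * (m.choose k : ℝ) =
        ((m.choose k : ℝ) * (k.choose j : ℝ)) / ((m - j).choose (k - j) : ℝ) := by ring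
      rw [this, h1', mul_div_assoc, div_self hpos.ne', mul_one]
    rw [e]
    exact le_mul_of_one_le_right (Nat.cast_nonneg _) hm

lemma sum_pw_bound {m k : ℕ} (hk : 2 ≤ k) (hkm : k < m) :
    (∑ g : Fin k → Fin ((2 * m ^ 2) ^ 2), pw m k (Jset g).card) * (m.choose k : ℝ) ≤
      3 * (((2 * m ^ 2) ^ 2 : ℕ) : ℝ) ^ k := by
  have hm0 : 0 < m := by omega
  have hm3 : (3:ℝ) ≤ m := by exact_mod_cast (by omega : 3 ≤ m)
  have hmpos : (0:ℝ) < m := by linarith
  set N : ℕ := (2 * m ^ 2) ^ 2 with hN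
  have hNpos : 0 < N := by rw [hN]; positivity
  have hNe : (N : ℝ) = (2 * (m:ℝ) ^ 2) ^ 2 := by rw [hN]; push_cast; ring
  have hN0 : (0:ℝ) < N := by exact_mod_cast hNpos
  have hM1 : (1:ℝ) ≤ 2 * (m:ℝ) ^ 2 := by nlinarith
  have hterm : ∀ j ∈ range (k + 1), (k.choose j : ℝ) * (pw m k j *
        ((N : ℝ) ^ (k - j) * ((N : ℝ) ^ (j / 2) * ((j / 2 : ℕ) : ℝ) ^ j))) * (m.choose k : ℝ) ≤
        (N : ℝ) ^ k * (if j = 0 then 1 else (1 / (m : ℝ)) ^ (j - 1)) := by
    intro j hj
    have hjk : j ≤ k := by have := mem_range.1 hj; omega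
    by_cases hj0 : j = 0
    · subst hj0
      rw [if_pos rfl]
      unfold pw
      rw [if_neg (by omega)]
      have hpos : (0:ℝ) < (m.choose k : ℝ) := by exact_mod_cast Nat.choose_pos hkm.le
      simp only [Nat.choose_zero_right, Nat.cast_one, Nat.sub_zero, Nat.zero_div, pow_zero,
        Nat.cast_zero, one_mul, mul_one]
      rw [mul_comm, ← mul_assoc, mul_one_div, div_self hpos.ne', one_mul]
    · rw [if_neg hj0]
      have h1 := choose_pw_le hjk hkm
      have h2 := choose_mul_pow_le m j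
      have h3 : (N : ℝ) ^ (k - j) * (N : ℝ) ^ (j / 2) * (2 * (m:ℝ) ^ 2) ^ j ≤ (N : ℝ) ^ k := by
        rw [hNe, ← pow_mul, ← pow_mul, ← pow_mul, ← pow_add, ← pow_add]
        exact pow_le_pow_right₀ hM1 (by omega)
      have hA : (0:ℝ) ≤ (N : ℝ) ^ (k - j) * (N : ℝ) ^ (j / 2) := by positivity
      have hj1 : (0:ℝ) ≤ ((j / 2 : ℕ) : ℝ) ^ j := by positivity
      calc (k.choose j : ℝ) * (pw m k j *
            ((N : ℝ) ^ (k - j) * ((N : ℝ) ^ (j / 2) * ((j / 2 : ℕ) : ℝ) ^ j))) * (m.choose k : ℝ)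
          = ((k.choose j : ℝ) * pw m k j * (m.choose k : ℝ)) *
            (((N : ℝ) ^ (k - j) * (N : ℝ) ^ (j / 2)) * ((j / 2 : ℕ) : ℝ) ^ j) := by ring
        _ ≤ ((m.choose j : ℝ) * m) *
            (((N : ℝ) ^ (k - j) * (N : ℝ) ^ (j / 2)) * ((j / 2 : ℕ) : ℝ) ^ j) :=
            mul_le_mul_of_nonneg_right h1 (by positivity)
        _ = ((N : ℝ) ^ (k - j) * (N : ℝ) ^ (j / 2)) * m *
            ((m.choose j : ℝ) * ((j / 2 : ℕ) : ℝ) ^ j) := by ring
        _ ≤ ((N : ℝ) ^ (k - j) * (N : ℝ) ^ (j / 2)) * m * (2 * (m : ℝ)) ^ j :=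
            mul_le_mul_of_nonneg_left h2 (by positivity)
        _ = ((N : ℝ) ^ (k - j) * (N : ℝ) ^ (j / 2) * (2 * (m:ℝ) ^ 2) ^ j) *
            (1 / (m : ℝ)) ^ (j - 1) := by
            have e1 : (2 * (m:ℝ) ^ 2) ^ j = (2 * (m:ℝ)) ^ j * (m:ℝ) ^ j := by
              rw [← mul_pow]; ring
            have e2 : (m:ℝ) ^ j = (m:ℝ) ^ (j - 1) * m := by
              rw [← pow_succ]; congr 1; omega
            rw [e1, e2, one_div, inv_pow]
            field_simp
        _ ≤ (N : ℝ) ^ k * (1 / (m : ℝ)) ^ (j - 1) :=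
            mul_le_mul_of_nonneg_right h3 (by positivity)
  have hgeom : ∑ j ∈ range (k + 1), (if j = 0 then (1:ℝ) else (1 / (m : ℝ)) ^ (j - 1)) ≤ 3 := by
    rw [sum_range_succ']
    rw [if_pos rfl]
    have h4 : ∑ j ∈ range k, (if j + 1 = 0 then (1:ℝ) else (1 / (m : ℝ)) ^ (j + 1 - 1)) =
        ∑ j ∈ range k, (1 / (m : ℝ)) ^ j := by
      refine sum_congr rfl fun j _ => ?_
      rw [if_neg (by omega)]
      simp
    rw [h4]
    have h5 : (1 / (m:ℝ)) ≤ 1 / 3 := one_div_le_one_div_of_le (by norm_num) hm3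
    have h6 : ∑ j ∈ range k, (1 / (m : ℝ)) ^ j ≤ ∑ j ∈ range k, (1 / 3 : ℝ) ^ j :=
      sum_le_sum fun j _ => pow_le_pow_left₀ (by positivity) h5 j
    have h7 : ∑ j ∈ range k, (1 / 3 : ℝ) ^ j ≤ 3 / 2 := by
      rw [geom_sum_eq (by norm_num)]
      have : (0:ℝ) ≤ (1/3) ^ k := by positivity
      rw [div_le_iff_of_neg (by norm_num)]
      linarith
    linarith
  have hsum := sum_pw_le (k := k) (m := m) hNpos
  calc (∑ g : Fin k → Fin N, pw m k (Jset g).card) * (m.choose k : ℝ)
      ≤ (∑ j ∈ range (k + 1), (k.choose j : ℝ) * (pw m k j *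
        ((N : ℝ) ^ (k - j) * ((N : ℝ) ^ (j / 2) * ((j / 2 : ℕ) : ℝ) ^ j)))) *
          (m.choose k : ℝ) := mul_le_mul_of_nonneg_right hsum (Nat.cast_nonneg _)
    _ = ∑ j ∈ range (k + 1), (k.choose j : ℝ) * (pw m k j *
        ((N : ℝ) ^ (k - j) * ((N : ℝ) ^ (j / 2) * ((j / 2 : ℕ) : ℝ) ^ j))) *
          (m.choose k : ℝ) := by rw [sum_mul]
    _ ≤ ∑ j ∈ range (k + 1), (N : ℝ) ^ k * (if j = 0 then 1 else (1 / (m : ℝ)) ^ (j - 1)) :=
        sum_le_sum hterm
    _ = (N : ℝ) ^ k * ∑ j ∈ range (k + 1), (if j = 0 then 1 else (1 / (m : ℝ)) ^ (j - 1)) := by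
        rw [mul_sum]
    _ ≤ (N : ℝ) ^ k * 3 := mul_le_mul_of_nonneg_left hgeom (by positivity)
    _ = 3 * (N : ℝ) ^ k := by ring

/-- **Part 1**: `t(k+R, k) ≤ 27 R log (k+R) / C(k+R, k)` -/
theorem ach_words {k R : ℕ} (hk : 2 ≤ k) (hR : 1 ≤ R) :
    Ach R k (27 * R * Real.log ((k + R : ℕ) : ℝ) / ((k + R).choose k : ℝ)) := by
  set m : ℕ := k + R with hm
  have hkm : k < m := by omega
  have hm0 : 0 < m := by omega
  have hm3 : (3:ℝ) ≤ m := by exact_mod_cast (by omega : 3 ≤ m)
  have hmpos : (0:ℝ) < m := by linarith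
  set N : ℕ := (2 * m ^ 2) ^ 2 with hN
  have hNpos : 0 < N := by rw [hN]; positivity
  have hNe : (N : ℝ) = (2 * (m:ℝ) ^ 2) ^ 2 := by rw [hN]; push_cast; ring
  have hN0 : (0:ℝ) < N := by exact_mod_cast hNpos
  have hmN : (m:ℝ) ≤ N := by
    have h1 : (m:ℝ) ≤ 2 * (m:ℝ) ^ 2 := by nlinarith
    have h2 : 2 * (m:ℝ) ^ 2 ≤ (2 * (m:ℝ) ^ 2) ^ 2 := le_self_pow₀ (by nlinarith) (by norm_num)
    rw [hNe]
    exact h1.trans h2
  have hN3 : (3:ℝ) ≤ N := hm3.trans hmN
  have hCpos : (0:ℝ) < (m.choose k : ℝ) := by exact_mod_cast Nat.choose_pos hkm.le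
  have hR1 : (1:ℝ) ≤ R := by exact_mod_cast hR
  -- logarithms
  have hlogm : 1 ≤ Real.log m := by
    rw [Real.le_log_iff_exp_le hmpos]
    have := Real.exp_one_lt_d9
    linarith
  have hlogN : Real.log N ≤ 6 * Real.log m := by
    have h2 : Real.log (2 * (m:ℝ) ^ 2) ≤ 3 * Real.log m := by
      have h3 : 3 * Real.log m = Real.log ((m:ℝ) ^ 3) := by
        rw [Real.log_pow]; norm_num
      rw [h3]
      refine Real.log_le_log (by positivity) ?_
      have : (0:ℝ) ≤ (m:ℝ) ^ 2 := by positivity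
      nlinarith
    rw [hNe, Real.log_pow]
    push_cast
    linarith
  set W : ℝ := 3 * (N : ℝ) ^ k / (m.choose k : ℝ) with hW
  set L : ℝ := R * (Real.log N + Real.log m) with hL
  have hL0 : 0 ≤ L := by
    have : 0 ≤ Real.log N := Real.log_nonneg (by linarith)
    have : 0 ≤ Real.log (m:ℝ) := by linarith
    positivity
  have hL7 : L ≤ 7 * R * Real.log m := by
    rw [hL]; nlinarith
  have hW1 : 1 ≤ W := by
    rw [hW, le_div_iff₀ hCpos, one_mul]
    have h1 : (m.choose k : ℝ) ≤ (m : ℝ) ^ k := by exact_mod_cast Nat.choose_le_pow m k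
    have h2 : (m : ℝ) ^ k ≤ (N : ℝ) ^ k := by
      exact pow_le_pow_left₀ hmpos.le hmN k
    have h3 : (0:ℝ) ≤ (N : ℝ) ^ k := by positivity
    linarith
  -- the fractional cover gives the greedy hypothesis
  have hgr : ∀ U : Finset (Fin m → Fin N), U.Nonempty → ∃ g : Fin k → Fin N,
      (U.card : ℝ) ≤ W * ((U.filter (Sub g)).card : ℝ) := by
    intro U hU
    by_contra hcon
    push Not at hcon
    have h1 : (U.card : ℝ) ≤ ∑ g : Fin k → Fin N, pw m k (Jset g).card *
        ((U.filter (Sub g)).card : ℝ) := by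
      calc (U.card : ℝ) = ∑ f ∈ U, (1:ℝ) := by simp
        _ ≤ ∑ f ∈ U, ∑ g : Fin k → Fin N, (if Sub g f then pw m k (Jset g).card else 0) :=
            sum_le_sum fun f _ => cover_sum hkm.le f
        _ = ∑ g : Fin k → Fin N, ∑ f ∈ U, (if Sub g f then pw m k (Jset g).card else 0) :=
            sum_comm
        _ = _ := by
            refine sum_congr rfl fun g _ => ?_
            rw [← sum_filter, sum_const, nsmul_eq_mul, mul_comm]
    have hU0 : (0:ℝ) < U.card := by exact_mod_cast card_pos.2 hU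
    have hW0 : 0 < W := by linarith
    have h2 : ∀ g : Fin k → Fin N, pw m k (Jset g).card * ((U.filter (Sub g)).card : ℝ) ≤
        pw m k (Jset g).card * (U.card / W) := by
      intro g
      refine mul_le_mul_of_nonneg_left ?_ (pw_nonneg _ _ _)
      rw [le_div_iff₀ hW0]
      have := hcon g
      linarith
    have h3 : (∑ g : Fin k → Fin N, pw m k (Jset g).card) ≤ W := by
      rw [hW, le_div_iff₀ hCpos]
      exact sum_pw_bound hk hkm
    -- some word has positive weight
    have h4 : ∃ g : Fin k → Fin N, 0 < pw m k (Jset g).card := by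
      by_contra hc2
      push Not at hc2
      have : ∑ g : Fin k → Fin N, pw m k (Jset g).card *
        ((U.filter (Sub g)).card : ℝ) ≤ 0 := sum_nonpos fun g _ =>
          mul_nonpos_of_nonpos_of_nonneg (hc2 g) (Nat.cast_nonneg _)
      linarith
    obtain ⟨g0, hg0⟩ := h4
    have h5 : ∑ g : Fin k → Fin N, pw m k (Jset g).card * ((U.filter (Sub g)).card : ℝ) <
        ∑ g : Fin k → Fin N, pw m k (Jset g).card * (U.card / W) := by
      refine sum_lt_sum (fun g _ => h2 g) ⟨g0, mem_univ _, ?_⟩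
      refine mul_lt_mul_of_pos_left ?_ hg0
      rw [lt_div_iff₀ hW0]
      have := hcon g0
      linarith
    rw [← sum_mul] at h5
    have h6 : (∑ g : Fin k → Fin N, pw m k (Jset g).card) * (U.card / W) ≤ W * (U.card / W) :=
      mul_le_mul_of_nonneg_right h3 (by positivity)
    have h7 : W * (U.card / W) = U.card := by field_simp
    linarith
  have hcard : (Fintype.card (Fin m → Fin N) : ℝ) ≤ W * Real.exp L := by
    rw [Fintype.card_fun, Fintype.card_fin, Fintype.card_fin]
    have h1 : Real.exp L = (N : ℝ) ^ R * (m : ℝ) ^ R := by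
      rw [hL, mul_add, Real.exp_add, Real.exp_nat_mul, Real.exp_nat_mul, Real.exp_log hN0,
        Real.exp_log hmpos]
    have h2 : (m.choose k : ℝ) ≤ (m : ℝ) ^ R := by
      have : m.choose k = m.choose R := by
        rw [hm]; exact Nat.choose_symm_add
      rw [this]
      exact_mod_cast Nat.choose_le_pow m R
    rw [h1, hW]
    have h3 : (N : ℝ) ^ m = (N:ℝ) ^ k * (N:ℝ) ^ R := by rw [← pow_add]
    push_cast
    rw [h3, div_mul_eq_mul_div, le_div_iff₀ hCpos]
    have h4 : (0:ℝ) ≤ (N:ℝ) ^ k * (N:ℝ) ^ R := by positivity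
    have h5 : (N:ℝ) ^ k * (N:ℝ) ^ R * (m.choose k : ℝ) ≤ (N:ℝ) ^ k * (N:ℝ) ^ R * (m:ℝ) ^ R :=
      mul_le_mul_of_nonneg_left h2 h4
    have h6 : 0 ≤ (N:ℝ) ^ k * (N:ℝ) ^ R * (m:ℝ) ^ R := by positivity
    nlinarith
  obtain ⟨G, hG1, hG2⟩ := greedy_total (fun (g : Fin k → Fin N) (f : Fin m → Fin N) => Sub g f)
    hW1 hgr hL0 hcard
  refine (ach_of_words hNpos G hG1).mono ?_
  have hNk : (0:ℝ) < (N:ℝ) ^ k := by positivity
  rw [div_le_div_iff₀ hNk hCpos]
  have h8 : W * (L + 2) ≤ W * (9 * R * Real.log m) := by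
    refine mul_le_mul_of_nonneg_left ?_ (by linarith)
    have : (1:ℝ) ≤ R * Real.log m := by nlinarith
    linarith
  have h9 : W * (9 * R * Real.log m) * (m.choose k : ℝ) = 27 * R * Real.log m * (N:ℝ) ^ k := by
    rw [hW]
    field_simp
    ring
  calc (G.card : ℝ) * (m.choose k : ℝ) ≤ (W * (9 * R * Real.log m)) * (m.choose k : ℝ) :=
        mul_le_mul_of_nonneg_right (hG2.trans h8) hCpos.le
    _ = 27 * R * Real.log m * (N:ℝ) ^ k := h9

end Pool.Agent.Helper3.Turan
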