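import Pool.Agent.Helper3.UUniform

/-!
`1 - π(K_m^k) ≤ 300 s log (s+1) / C(m-1,k-1)` with `s = min(k, m-k)`.
-/

namespace Pool.Agent.Helper3.Turan

open Finset Pool.Agent.Helper4.Turan
open scoped Classical

lemma IsSys.monoR {n R R' k : ℕ} {H : Finset (Finset (Fin n))} (h : IsSys R k H) (hR : R ≤ R') :
    IsSys R' k H := by
  refine ⟨h.1, fun S hS => ?_⟩
  obtain ⟨S', h1, h2⟩ := exists_subset_card_eq (s := S) (n := k + R) (by omega)
  obtain ⟨e, he, heS⟩ := h.2 S' h2
  exact ⟨e, he, heS.trans h1⟩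

lemma Ach.monoR {R R' k : ℕ} {t : ℝ} (h : Ach R k t) (hR : R ≤ R') : Ach R' k t := by
  intro n
  obtain ⟨H, h1, h2⟩ := h n
  exact ⟨H, h1.monoR hR, h2⟩

/-- the block construction -/
lemma ach_block {k q l R0 R1 : ℕ} (hk : 1 ≤ k) (hl : 1 ≤ l) (h0 : k + R0 = q + 1)
    (h1 : k + R1 = l * q + 1) {t : ℝ} (h : Ach R0 k t) : Ach R1 k (t / (l : ℝ) ^ (k - 1)) := by
  intro n
  by_cases hn : n < k
  · refine ⟨∅, ⟨by simp, ?_⟩, ?_⟩
    · intro S hS
      have := card_le_univ S
      rw [Fintype.card_fin] at this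
      omega
    · rw [Nat.choose_eq_zero_of_lt hn]; simp
  push Not at hn
  obtain ⟨H, hH, hc⟩ := h n
  have hl0 : (0:ℝ) < l := by exact_mod_cast hl
  let Hω : (Fin n → Fin l) → Finset (Finset (Fin n)) := fun ω =>
    H.filter (fun X => ∀ x ∈ X, ∀ y ∈ X, ω x = ω y)
  -- averaging
  have hcount : ∀ X ∈ H, ((univ : Finset (Fin n → Fin l)).filter
      (fun ω => ∀ x ∈ X, ∀ y ∈ X, ω x = ω y)).card ≤ l ^ (n - (k - 1)) := by
    intro X hX
    have hXk := hH.1 X hX
    obtain ⟨x0, hx0⟩ := card_pos.1 (by omega : 0 < X.card)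
    have hinj : Set.InjOn (fun (ω : Fin n → Fin l) (i : ↥((X.erase x0)ᶜ)) => ω i.1)
        (((univ : Finset (Fin n → Fin l)).filter
          (fun ω => ∀ x ∈ X, ∀ y ∈ X, ω x = ω y) : Finset (Fin n → Fin l)) :
          Set (Fin n → Fin l)) := by
      intro ω1 h1 ω2 h2 h12
      have e1 := (mem_filter.1 (mem_coe.1 h1)).2
      have e2 := (mem_filter.1 (mem_coe.1 h2)).2
      have key : ∀ x, x ∉ X.erase x0 → ω1 x = ω2 x := fun x hx =>
        congrFun h12 ⟨x, mem_compl.2 hx⟩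
      funext x
      by_cases hx : x ∈ X.erase x0
      · have hxX := (mem_erase.1 hx).2
        rw [e1 x hxX x0 hx0, e2 x hxX x0 hx0]
        exact key x0 (notMem_erase _ _)
      · exact key x hx
    have h3 := card_le_card_of_injOn (t := (univ : Finset (↥((X.erase x0)ᶜ) → Fin l)))
      (fun (ω : Fin n → Fin l) (i : ↥((X.erase x0)ᶜ)) => ω i.1) (fun ω _ => mem_univ _) hinj
    refine h3.trans (le_of_eq ?_)
    rw [card_univ, Fintype.card_fun, Fintype.card_fin, Fintype.card_coe, card_compl,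
      Fintype.card_fin, card_erase_of_mem hx0, hXk]
  have hsum : ∑ ω : Fin n → Fin l, ((Hω ω).card : ℝ) ≤
      ∑ _ω : Fin n → Fin l, t / (l : ℝ) ^ (k - 1) * (n.choose k : ℝ) := by
    have e1 : ∑ ω : Fin n → Fin l, ((Hω ω).card : ℝ) =
        ∑ X ∈ H, (((univ : Finset (Fin n → Fin l)).filter
          (fun ω => ∀ x ∈ X, ∀ y ∈ X, ω x = ω y)).card : ℝ) := by
      have e2 : ∀ ω : Fin n → Fin l, ((Hω ω).card : ℝ) =
          ∑ X ∈ H, if (∀ x ∈ X, ∀ y ∈ X, ω x = ω y) then (1:ℝ) else 0 := by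
        intro ω
        rw [← sum_filter, sum_const, nsmul_eq_mul, mul_one]
      rw [sum_congr rfl fun ω _ => e2 ω, sum_comm]
      refine sum_congr rfl fun X _ => ?_
      rw [← sum_filter, sum_const, nsmul_eq_mul, mul_one]
    rw [e1]
    have e3 : ∑ X ∈ H, (((univ : Finset (Fin n → Fin l)).filter
          (fun ω => ∀ x ∈ X, ∀ y ∈ X, ω x = ω y)).card : ℝ) ≤
          ∑ _X ∈ H, (l : ℝ) ^ (n - (k - 1)) := by
      refine sum_le_sum fun X hX => ?_
      exact_mod_cast hcount X hX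
    refine e3.trans ?_
    rw [sum_const, nsmul_eq_mul, sum_const, nsmul_eq_mul, card_univ, Fintype.card_fun,
      Fintype.card_fin, Fintype.card_fin]
    push_cast
    have e4 : (l : ℝ) ^ n = l ^ (k - 1) * l ^ (n - (k - 1)) := by
      rw [← pow_add]; congr 1; omega
    have e5 : (l : ℝ) ^ n * (t / (l : ℝ) ^ (k - 1) * (n.choose k : ℝ)) =
        (t * (n.choose k : ℝ)) * l ^ (n - (k - 1)) := by
      rw [e4]; field_simp
    rw [e5]
    exact mul_le_mul_of_nonneg_right hc (by positivity)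
  have hne : (univ : Finset (Fin n → Fin l)).Nonempty := by
    rw [← card_pos, card_univ, Fintype.card_fun, Fintype.card_fin, Fintype.card_fin]
    positivity
  obtain ⟨ω, _, hω⟩ := exists_le_of_sum_le hne hsum
  refine ⟨Hω ω, ⟨fun e he => hH.1 e (mem_filter.1 he).1, ?_⟩, hω⟩
  intro S hS
  obtain ⟨c, _, hcc⟩ := exists_lt_card_fiber_of_mul_lt_card_of_maps_to
    (s := S) (t := (univ : Finset (Fin l))) (f := ω) (n := q) (fun a _ => mem_univ _) (by
      rw [card_univ, Fintype.card_fin, hS, h1]; omega)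
  obtain ⟨S', hS', hS'c⟩ := exists_subset_card_eq (s := S.filter (fun x => ω x = c))
    (n := k + R0) (by omega)
  obtain ⟨e, he, heS⟩ := hH.2 S' hS'c
  refine ⟨e, mem_filter.2 ⟨he, ?_⟩, heS.trans (hS'.trans (filter_subset _ _))⟩
  intro x hx y hy
  rw [(mem_filter.1 (hS' (heS hx))).2, (mem_filter.1 (hS' (heS hy))).2]

/-- lower bound for the descending factorial -/
lemma desc_lower {q : ℕ} (hq : 0 < q) (n : ℕ) (hn : n ≤ q) :
    (q : ℝ) ^ n * (1 - n * (n - 1) / (2 * q)) ≤ (q.descFactorial n : ℝ) := by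
  have hq0 : (0:ℝ) < q := by exact_mod_cast hq
  induction n with
  | zero => simp
  | succ n ih =>
    have h1 := ih (by omega)
    rw [Nat.descFactorial_succ]
    push_cast
    rw [Nat.cast_sub (by omega)]
    have h2 : (0:ℝ) ≤ (q : ℝ) - n := by
      have : (n:ℝ) ≤ q := by exact_mod_cast (by omega : n ≤ q)
      linarith
    have h3 := mul_le_mul_of_nonneg_left h1 h2
    refine le_trans ?_ h3
    have h4 : ((q : ℝ) - n) * ((q : ℝ) ^ n * (1 - n * (n - 1) / (2 * q))) =
        (q : ℝ) ^ (n + 1) * ((1 - n / q) * (1 - n * (n - 1) / (2 * q))) := by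
      field_simp
      ring
    rw [h4]
    refine mul_le_mul_of_nonneg_left ?_ (by positivity)
    have h5 : (1 - (n:ℝ) / q) * (1 - n * (n - 1) / (2 * q)) =
        (1 - (n + 1) * ((n + 1) - 1) / (2 * q)) + (n / q) * (n * (n - 1) / (2 * q)) := by
      field_simp
      ring
    rw [h5]
    have h6 : (0:ℝ) ≤ n * (n - 1) := by
      rcases Nat.eq_zero_or_pos n with h | h
      · rw [h]; simp
      · have : (1:ℝ) ≤ n := by exact_mod_cast h
        nlinarith
    have h7 : (0:ℝ) ≤ (n / q) * (n * (n - 1) / (2 * q)) := by positivity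
    linarith

/-- `C(m-1,k-1) ≤ 2 e l^(k-1) C(k²,k-1)` -/
lemma choose_block {k l m : ℕ} (hk : 2 ≤ k) (hl : k ≤ l) (hm : m ≤ (l + 1) * k ^ 2) :
    (m.choose (k - 1) : ℝ) ≤
      2 * Real.exp 1 * (l : ℝ) ^ (k - 1) * ((k ^ 2).choose (k - 1) : ℝ) := by
  set q : ℕ := k ^ 2 with hq
  have hq0 : 0 < q := by rw [hq]; positivity
  have hk2 : (2:ℝ) ≤ k := by exact_mod_cast hk
  have hl0 : (0:ℝ) < l := by exact_mod_cast (by omega : 0 < l)
  have hqr : (q : ℝ) = (k:ℝ) ^ 2 := by rw [hq]; push_cast; ring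
  have hk1 : ((k - 1 : ℕ) : ℝ) = k - 1 := by rw [Nat.cast_sub (by omega)]; simp
  have hf : (0:ℝ) < ((k - 1).factorial : ℝ) := by exact_mod_cast Nat.factorial_pos _
  refine le_of_mul_le_mul_left ?_ hf
  have e1 : ((k - 1).factorial : ℝ) * (m.choose (k - 1) : ℝ) = (m.descFactorial (k - 1) : ℝ) := by
    exact_mod_cast (Nat.descFactorial_eq_factorial_mul_choose m (k - 1)).symm
  have e2 : ((k - 1).factorial : ℝ) * (q.choose (k - 1) : ℝ) = (q.descFactorial (k - 1) : ℝ) := by
    exact_mod_cast (Nat.descFactorial_eq_factorial_mul_choose q (k - 1)).symm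
  have h1 : (m.descFactorial (k - 1) : ℝ) ≤ (((l : ℝ) + 1) * q) ^ (k - 1) := by
    have h2 : (m.descFactorial (k - 1) : ℝ) ≤ (m : ℝ) ^ (k - 1) := by
      exact_mod_cast Nat.descFactorial_le_pow m (k - 1)
    refine h2.trans ?_
    refine pow_le_pow_left₀ (Nat.cast_nonneg _) ?_ _
    exact_mod_cast hm
  have h3 : (q : ℝ) ^ (k - 1) ≤ 2 * (q.descFactorial (k - 1) : ℝ) := by
    have h4 := desc_lower hq0 (k - 1) (by rw [hq]; nlinarith [Nat.sub_le k 1])
    have h5 : (1:ℝ) / 2 ≤ 1 - ((k - 1 : ℕ) : ℝ) * (((k - 1 : ℕ) : ℝ) - 1) / (2 * q) := by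
      rw [hk1, hqr]
      have h6 : ((k:ℝ) - 1) * (k - 1 - 1) / (2 * (k:ℝ) ^ 2) ≤ 1 / 2 := by
        rw [div_le_div_iff₀ (by positivity) (by norm_num)]
        nlinarith
      linarith
    have h7 := mul_le_mul_of_nonneg_left h5 (by positivity : (0:ℝ) ≤ (q : ℝ) ^ (k - 1))
    linarith
  have h8 : ((l : ℝ) + 1) ^ (k - 1) ≤ Real.exp 1 * (l : ℝ) ^ (k - 1) := by
    have h9 : (l : ℝ) + 1 ≤ Real.exp (1 / l) * l := by
      have := Real.add_one_le_exp (1 / (l:ℝ))
      have h10 := mul_le_mul_of_nonneg_right this hl0.le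
      have h11 : (1 / (l:ℝ) + 1) * l = l + 1 := by field_simp; ring
      linarith
    calc ((l : ℝ) + 1) ^ (k - 1) ≤ (Real.exp (1 / l) * l) ^ (k - 1) :=
          pow_le_pow_left₀ (by positivity) h9 _
      _ = Real.exp (((k - 1 : ℕ) : ℝ) * (1 / l)) * (l : ℝ) ^ (k - 1) := by
          rw [mul_pow, ← Real.exp_nat_mul]
      _ ≤ Real.exp 1 * (l : ℝ) ^ (k - 1) := by
          refine mul_le_mul_of_nonneg_right (Real.exp_le_exp.2 ?_) (by positivity)
          rw [mul_one_div, div_le_one hl0, hk1]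
          have : (k:ℝ) ≤ l := by exact_mod_cast hl
          linarith
  calc ((k - 1).factorial : ℝ) * (m.choose (k - 1) : ℝ) = (m.descFactorial (k - 1) : ℝ) := e1
    _ ≤ (((l : ℝ) + 1) * q) ^ (k - 1) := h1
    _ = ((l : ℝ) + 1) ^ (k - 1) * (q : ℝ) ^ (k - 1) := mul_pow _ _ _
    _ ≤ (Real.exp 1 * (l : ℝ) ^ (k - 1)) * (2 * (q.descFactorial (k - 1) : ℝ)) :=
        mul_le_mul h8 h3 (by positivity) (by positivity)
    _ = ((k - 1).factorial : ℝ) *
        (2 * Real.exp 1 * (l : ℝ) ^ (k - 1) * (q.choose (k - 1) : ℝ)) := by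
        rw [← e2]; ring

/-- **Theorem U** in terms of `tau` -/
theorem tau_uniform {k R : ℕ} (hk : 2 ≤ k) (hR : 1 ≤ R) :
    tau R k * ((k + R - 1).choose (k - 1) : ℝ) ≤
      300 * ((min k R : ℕ) : ℝ) * Real.log (((min k R : ℕ) : ℝ) + 1) := by
  have hk2 : (2:ℝ) ≤ k := by exact_mod_cast hk
  have hR1 : (1:ℝ) ≤ R := by exact_mod_cast hR
  have hm0 : (0:ℝ) < ((k + R : ℕ) : ℝ) := by exact_mod_cast (by omega : 0 < k + R)
  have hmr : ((k + R : ℕ) : ℝ) = k + R := by push_cast; ring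
  -- `k C(m,k) = m C(m-1,k-1)`
  have hid : ((k + R : ℕ) : ℝ) * ((k + R - 1).choose (k - 1) : ℝ) =
      ((k + R).choose R : ℝ) * k := by
    have h1 := Nat.add_one_mul_choose_eq (k + R - 1) (k - 1)
    have e1 : k + R - 1 + 1 = k + R := by omega
    have e2 : k - 1 + 1 = k := by omega
    rw [e1, e2] at h1
    have h3 : (k + R).choose k = (k + R).choose R := Nat.choose_symm_add
    rw [h3] at h1
    exact_mod_cast h1
  have hC : ((k + R - 1).choose (k - 1) : ℝ) = ((k + R).choose R : ℝ) * (k / ((k + R : ℕ) : ℝ)) := by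
    rw [mul_div_assoc', eq_div_iff hm0.ne', mul_comm, hid]
  have hkm : (k : ℝ) / ((k + R : ℕ) : ℝ) ≤ 1 := by
    rw [div_le_one hm0, hmr]; linarith
  have hkm0 : (0 : ℝ) ≤ (k : ℝ) / ((k + R : ℕ) : ℝ) := by positivity
  by_cases hRk : R ≤ k
  · rw [min_eq_right hRk, hC]
    have h1 := nu_uniform hR k
    have h2 : tau R k * (((k + R).choose R : ℝ) * (k / ((k + R : ℕ) : ℝ))) =
        nu R k * (k / ((k + R : ℕ) : ℝ)) := by unfold nu; ring
    rw [h2]
    refine (mul_le_of_le_one_right (nu_nonneg R k) hkm).trans ?_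
    refine h1.trans (le_of_eq ?_)
    push_cast
    ring
  · push Not at hRk
    rw [min_eq_left hRk.le]
    -- first estimate, all `R'`
    have hfirst : ∀ R' : ℕ, 1 ≤ R' → tau R' k * ((k + R' - 1).choose (k - 1) : ℝ) ≤
        27 * k * Real.log ((k + R' : ℕ) : ℝ) := by
      intro R' hR'
      have hm0' : (0:ℝ) < ((k + R' : ℕ) : ℝ) := by exact_mod_cast (by omega : 0 < k + R')
      have hid' : ((k + R' : ℕ) : ℝ) * ((k + R' - 1).choose (k - 1) : ℝ) =
          ((k + R').choose k : ℝ) * k := by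
        have h1 := Nat.add_one_mul_choose_eq (k + R' - 1) (k - 1)
        have e1 : k + R' - 1 + 1 = k + R' := by omega
        have e2 : k - 1 + 1 = k := by omega
        rw [e1, e2] at h1
        exact_mod_cast h1
      have hCp : (0:ℝ) < ((k + R').choose k : ℝ) := by
        exact_mod_cast Nat.choose_pos (Nat.le_add_right k R')
      have h1 := tau_le_of_ach (ach_words hk hR')
      have hC' : ((k + R' - 1).choose (k - 1) : ℝ) =
          ((k + R').choose k : ℝ) * (k / ((k + R' : ℕ) : ℝ)) := by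
        rw [mul_div_assoc', eq_div_iff hm0'.ne', mul_comm, hid']
      have hlog : 0 ≤ Real.log ((k + R' : ℕ) : ℝ) :=
        Real.log_nonneg (by exact_mod_cast (by omega : 1 ≤ k + R'))
      calc tau R' k * ((k + R' - 1).choose (k - 1) : ℝ)
          ≤ (27 * R' * Real.log ((k + R' : ℕ) : ℝ) / ((k + R').choose k : ℝ)) *
            ((k + R' - 1).choose (k - 1) : ℝ) :=
            mul_le_mul_of_nonneg_right h1 (Nat.cast_nonneg _)
        _ = 27 * k * Real.log ((k + R' : ℕ) : ℝ) * (R' / ((k + R' : ℕ) : ℝ)) := by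
            rw [hC']; field_simp
        _ ≤ 27 * k * Real.log ((k + R' : ℕ) : ℝ) * 1 := by
            refine mul_le_mul_of_nonneg_left ?_ (by positivity)
            rw [div_le_one hm0']
            push_cast
            linarith
        _ = _ := by ring
    have hlk : Real.log k ≤ Real.log ((k:ℝ) + 1) :=
      Real.log_le_log (by linarith) (by linarith)
    by_cases hmk : k + R ≤ k ^ 3
    · refine (hfirst R hR).trans ?_
      have h1 : Real.log ((k + R : ℕ) : ℝ) ≤ 3 * Real.log ((k:ℝ) + 1) := by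
        calc Real.log ((k + R : ℕ) : ℝ) ≤ Real.log ((k:ℝ) ^ 3) :=
              Real.log_le_log hm0 (by exact_mod_cast hmk)
          _ = 3 * Real.log k := by rw [Real.log_pow]; norm_num
          _ ≤ _ := by linarith
      have h2 : 0 ≤ Real.log ((k:ℝ) + 1) := Real.log_nonneg (by linarith)
      have h3 := mul_le_mul_of_nonneg_left h1 (by positivity : (0:ℝ) ≤ 27 * k)
      nlinarith [mul_nonneg (by linarith : (0:ℝ) ≤ k) h2]
    · push Not at hmk
      set q : ℕ := k ^ 2 with hq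
      have hq0 : 0 < q := by rw [hq]; positivity
      set l : ℕ := (k + R - 1) / q with hl
      have hkl : k ≤ l := by
        rw [hl, Nat.le_div_iff_mul_le hq0, hq]
        have : k * k ^ 2 = k ^ 3 := by ring
        omega
      have hl1 : 1 ≤ l := by omega
      have hlq : l * q ≤ k + R - 1 := Nat.div_mul_le_self _ _
      have hlq2 : k + R - 1 ≤ (l + 1) * q := by
        have := Nat.lt_div_mul_add (a := k + R - 1) hq0
        rw [← hl] at this
        nlinarith
      have hkq : k ≤ q := by rw [hq]; nlinarith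
      have hkq2 : 2 * k ≤ q := by rw [hq]; nlinarith
      obtain ⟨R0, hR0⟩ : ∃ R0, k + R0 = q + 1 := ⟨q + 1 - k, by omega⟩
      obtain ⟨R1, hR1'⟩ : ∃ R1, k + R1 = l * q + 1 := ⟨l * q + 1 - k, by
        have : q ≤ l * q := Nat.le_mul_of_pos_left q hl1
        omega⟩
      have hRR : R1 ≤ R := by omega
      have hR01 : 1 ≤ R0 := by omega
      have h1 : tau R k ≤ tau R0 k / (l : ℝ) ^ (k - 1) :=
        tau_le_of_ach ((ach_block (by omega) hl1 hR0 hR1' (ach_tau R0 k)).monoR hRR)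
      have h2 := choose_block hk hkl hlq2
      have h3 := hfirst R0 hR01
      have e0 : k + R0 - 1 = q := by omega
      rw [e0, hR0] at h3
      have hl0 : (0:ℝ) < (l : ℝ) ^ (k - 1) := by
        have : (0:ℝ) < l := by exact_mod_cast hl1
        positivity
      have h4 : tau R k * ((k + R - 1).choose (k - 1) : ℝ) ≤
          2 * Real.exp 1 * (tau R0 k * (q.choose (k - 1) : ℝ)) := by
        calc tau R k * ((k + R - 1).choose (k - 1) : ℝ)
            ≤ (tau R0 k / (l : ℝ) ^ (k - 1)) *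
              (2 * Real.exp 1 * (l : ℝ) ^ (k - 1) * (q.choose (k - 1) : ℝ)) :=
              mul_le_mul h1 h2 (Nat.cast_nonneg _) (div_nonneg (tau_nonneg _ _) hl0.le)
          _ = _ := by field_simp
      have h5 : Real.log ((q + 1 : ℕ) : ℝ) ≤ 2 * Real.log ((k:ℝ) + 1) := by
        calc Real.log ((q + 1 : ℕ) : ℝ) ≤ Real.log (((k:ℝ) + 1) ^ 2) := by
              refine Real.log_le_log (by positivity) ?_
              rw [hq]; push_cast; nlinarith
          _ = 2 * Real.log ((k:ℝ) + 1) := by rw [Real.log_pow]; norm_num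
      have h6 : tau R0 k * (q.choose (k - 1) : ℝ) ≤ 54 * (k * Real.log ((k:ℝ) + 1)) := by
        have := mul_le_mul_of_nonneg_left h5 (by positivity : (0:ℝ) ≤ 27 * k)
        linarith
      have h7 : Real.exp 1 ≤ 2.72 := by have := Real.exp_one_lt_d9; linarith
      have h8 : 0 ≤ Real.log ((k:ℝ) + 1) := Real.log_nonneg (by linarith)
      have h9 : 2 * Real.exp 1 * (tau R0 k * (q.choose (k - 1) : ℝ)) ≤
          2 * 2.72 * (54 * (k * Real.log ((k:ℝ) + 1))) := by
        refine mul_le_mul (by linarith) h6 (mul_nonneg (tau_nonneg _ _) (Nat.cast_nonneg _))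
          (by norm_num)
      have h10 : 0 ≤ k * Real.log ((k:ℝ) + 1) := by positivity
      nlinarith

end Pool.Agent.Helper3.Turan
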