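import Pool.Agent.Helper3.LimitR
import Pool.Agent.Helper3.UCover

/-!
Uniform bound in `k`: `C(k+R,R) (1 - π(K_{k+R}^k)) ≤ 300 R log (R+1)`.
-/

namespace Pool.Agent.Helper3.Turan

open Finset Pool.Agent.Helper4.Turan
open scoped Classical

section StepB

variable {R k : ℕ} {a b : ℝ}

/-- the recursive inequality for the normalised densities -/
lemma stepB (hR : 1 ≤ R) (Λ : Type) [CommRing Λ] [Fintype Λ] [Nontrivial Λ]
    (hΛ : Helper4.Turan.Star Λ) (ha : 0 < a) (hb : 0 < b) (hab : a + b = 1) {M : ℝ}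
    (hM0 : 0 ≤ M) (hM : ∀ j < k, nu R j ≤ M) :
    nu R k ≤ ((k + R).choose R : ℝ) * (a ^ k + b ^ k) +
      ((Fintype.card Λ : ℝ) / (Fintype.card Λˣ : ℝ)) *
        (1 / a ^ R * ∑ j ∈ range k,
          beta (k + R) (a / (Fintype.card Λ : ℝ)) (j + R) * nu R j) +
      ((Fintype.card Λ : ℝ) / (Fintype.card Λˣ : ℝ)) *
        (M / b ^ R * ∑ i ∈ range R, beta (k + R) (a / (Fintype.card Λ : ℝ)) i) := by
  set Q : ℝ := (Fintype.card Λ : ℝ) with hQdef
  set u : ℝ := (Fintype.card Λˣ : ℝ) with hudef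
  have hQ1 : 1 ≤ Fintype.card Λ := Fintype.card_pos
  have hQ : 0 < Q := by rw [hQdef]; exact_mod_cast hQ1
  have hu : 0 < u := by rw [hudef]; exact_mod_cast Fintype.card_pos
  have hQge : 1 ≤ Q := by rw [hQdef]; exact_mod_cast hQ1
  set p : ℝ := a / Q with hp
  have hp0 : 0 < p := by positivity
  have hrec := recursionR Λ hΛ ha.le hb.le hab hR (k := k) (t := tau R) (tau_nonneg R)
    (fun j _ => ach_tau R j)
  have h1 := tau_le_of_ach hrec
  have h2 := mul_le_mul_of_nonneg_left h1 (Nat.cast_nonneg ((k + R).choose R) : (0:ℝ) ≤ _)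
  have h3 := second_sum (R := R) (k := k) hQge ha hb hab hM hM0
  have h7 := mul_le_mul_of_nonneg_left h3 (div_nonneg hQ.le hu.le)
  have e1 : 1 / (u * Q ^ (R - 1)) = (Q / u) * (1 / Q ^ R) := by
    have : Q ^ R = Q * Q ^ (R - 1) := by
      rw [← pow_succ']; congr 1; omega
    rw [this]
    have : Q ^ (R - 1) ≠ 0 := (pow_pos hQ _).ne'
    field_simp
  have e3 : 1 / a ^ R * ∑ j ∈ range k, beta (k + R) p (j + R) * nu R j =
      (1 / Q ^ R) * (((k + R).choose R : ℝ) * S1 R k p) := by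
    rw [choose_S1 hp0, hp, div_pow]
    have : Q ^ R ≠ 0 := (pow_pos hQ R).ne'
    have : a ^ R ≠ 0 := (pow_pos ha R).ne'
    field_simp
  rw [e3]
  unfold nu
  refine h2.trans ?_
  rw [e1]
  have e2 : ((k + R).choose R : ℝ) * (a ^ k + b ^ k + (Q / u) * (1 / Q ^ R) *
        ∑ j ∈ range k, (k.choose j : ℝ) * (p ^ j * (1 - p) ^ (k - j) * tau R j) +
        (Q / u) * ∑ m ∈ Ico 1 k, (k.choose m : ℝ) *
        (a ^ m * b ^ (k - m) * (Fb R Q m * tau R (k - m)))) =
      ((k + R).choose R : ℝ) * (a ^ k + b ^ k) +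
      (Q / u) * ((1 / Q ^ R) * (((k + R).choose R : ℝ) * S1 R k p)) +
      (Q / u) * (((k + R).choose R : ℝ) * ∑ m ∈ Ico 1 k, (k.choose m : ℝ) *
        (a ^ m * b ^ (k - m) * (Fb R Q m * tau R (k - m)))) := by
    unfold S1; ring
  rw [e2]
  exact add_le_add le_rfl h7

end StepB

/-! ### Binomial estimates -/

lemma beta_mean (N : ℕ) (p : ℝ) :
    ∑ s ∈ range (N + 1), (s : ℝ) * beta N p s = (N : ℝ) * p := by
  have h := congrArg (Polynomial.eval p) (bernsteinPolynomial.sum_smul ℝ N)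
  rw [Polynomial.eval_finsetSum] at h
  simp only [bernsteinPolynomial, Polynomial.eval_mul, Polynomial.eval_pow, Polynomial.eval_sub,
    Polynomial.eval_X, Polynomial.eval_natCast, Polynomial.eval_one,
    nsmul_eq_mul] at h
  exact h

/-- Jensen's inequality for the logarithm under the binomial distribution -/
lemma sum_beta_log {R k : ℕ} {p : ℝ} (h0 : 0 ≤ p) (h1 : p ≤ 1) :
    ∑ j ∈ range k, beta (k + R) p (j + R) * Real.log ((j + R + 1 : ℕ) : ℝ) ≤
      Real.log (((k + R : ℕ) : ℝ) * p + 1) := by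
  set N := k + R with hN
  set T : ℝ := ((N : ℕ) : ℝ) * p with hT
  have hT0 : 0 ≤ T := by positivity
  have hlog0 : ∀ s : ℕ, 0 ≤ Real.log ((s + 1 : ℕ) : ℝ) := fun s =>
    Real.log_nonneg (by push_cast; have : (0:ℝ) ≤ s := Nat.cast_nonneg _; linarith)
  have hpt : ∀ s : ℕ, Real.log ((s + 1 : ℕ) : ℝ) ≤ Real.log (T + 1) + ((s : ℝ) - T) / (T + 1) := by
    intro s
    have hs : (0:ℝ) < ((s + 1 : ℕ) : ℝ) := by positivity
    have h2 := Real.log_le_sub_one_of_pos (div_pos hs (by linarith : 0 < T + 1))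
    rw [Real.log_div hs.ne' (by linarith)] at h2
    have e : ((s + 1 : ℕ) : ℝ) / (T + 1) - 1 = ((s : ℝ) - T) / (T + 1) := by
      push_cast
      field_simp
      ring
    linarith
  have h3 : ∑ j ∈ range k, beta N p (j + R) * Real.log ((j + R + 1 : ℕ) : ℝ) =
      ∑ s ∈ (range k).map (addRightEmbedding R), beta N p s * Real.log ((s + 1 : ℕ) : ℝ) := by
    rw [sum_map]; rfl
  rw [h3]
  calc ∑ s ∈ (range k).map (addRightEmbedding R), beta N p s * Real.log ((s + 1 : ℕ) : ℝ)
      ≤ ∑ s ∈ range (N + 1), beta N p s * Real.log ((s + 1 : ℕ) : ℝ) := by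
        refine sum_le_sum_of_subset_of_nonneg ?_ fun s _ _ =>
          mul_nonneg (beta_nonneg h0 h1 s) (hlog0 s)
        intro s hs
        rw [Finset.mem_map] at hs
        obtain ⟨j, hj, rfl⟩ := hs
        rw [mem_range] at hj ⊢
        simp only [addRightEmbedding_apply]
        omega
    _ ≤ ∑ s ∈ range (N + 1), beta N p s * (Real.log (T + 1) + ((s : ℝ) - T) / (T + 1)) :=
        sum_le_sum fun s _ => mul_le_mul_of_nonneg_left (hpt s) (beta_nonneg h0 h1 s)
    _ = (Real.log (T + 1) - T / (T + 1)) * ∑ s ∈ range (N + 1), beta N p s +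
        1 / (T + 1) * ∑ s ∈ range (N + 1), (s : ℝ) * beta N p s := by
        rw [mul_sum, mul_sum, ← sum_add_distrib]
        refine sum_congr rfl fun s _ => ?_
        ring
    _ = Real.log (T + 1) := by
        rw [beta_sum, beta_mean, ← hT]
        ring

/-- the lower tail -/
lemma sum_beta_low {N R : ℕ} {p : ℝ} (h0 : 0 ≤ p) (h1 : p ≤ 1) (hpR : p * R ≤ 1)
    (hRN : R ≤ N) (hT : 1 ≤ (N : ℝ) * p) :
    ∑ i ∈ range R, beta N p i ≤ R * (((N : ℝ) * p) ^ R * Real.exp (1 - (N : ℝ) * p)) := by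
  have h2 : ∀ i ∈ range R, beta N p i ≤ ((N : ℝ) * p) ^ R * Real.exp (1 - (N : ℝ) * p) := by
    intro i hi
    have hi' : i < R := mem_range.1 hi
    have h3 : (N.choose i : ℝ) ≤ (N : ℝ) ^ i := by exact_mod_cast Nat.choose_le_pow N i
    have h4 : (1 - p) ^ (N - i) ≤ Real.exp (1 - (N : ℝ) * p) := by
      have h5 : 1 - p ≤ Real.exp (-p) := by
        have := Real.add_one_le_exp (-p); linarith
      calc (1 - p) ^ (N - i) ≤ (Real.exp (-p)) ^ (N - i) :=
            pow_le_pow_left₀ (by linarith) h5 _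
        _ = Real.exp (((N - i : ℕ) : ℝ) * (-p)) := by rw [← Real.exp_nat_mul]
        _ ≤ _ := by
            refine Real.exp_le_exp.2 ?_
            rw [Nat.cast_sub (by omega)]
            have h6 : (i : ℝ) ≤ R := by exact_mod_cast hi'.le
            nlinarith
    unfold beta
    calc (N.choose i : ℝ) * p ^ i * (1 - p) ^ (N - i)
        ≤ (N : ℝ) ^ i * p ^ i * Real.exp (1 - (N : ℝ) * p) := by
          refine mul_le_mul (mul_le_mul_of_nonneg_right h3 (pow_nonneg h0 _)) h4
            (pow_nonneg (by linarith) _) (by positivity)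
      _ = ((N : ℝ) * p) ^ i * Real.exp (1 - (N : ℝ) * p) := by rw [mul_pow]
      _ ≤ _ := mul_le_mul_of_nonneg_right (pow_le_pow_right₀ hT hi'.le) (Real.exp_pos _).le
  calc ∑ i ∈ range R, beta N p i ≤ ∑ _i ∈ range R, ((N : ℝ) * p) ^ R * Real.exp (1 - (N : ℝ) * p) :=
        sum_le_sum h2
    _ = _ := by rw [sum_const, card_range, nsmul_eq_mul]

/-! ### First bound on the normalised densities -/

lemma nu_le_log {R : ℕ} (hR : 1 ≤ R) (k : ℕ) :
    nu R k ≤ 27 * R * Real.log ((k + R + 1 : ℕ) : ℝ) := by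
  have hR1 : (1:ℝ) ≤ R := by exact_mod_cast hR
  by_cases hk : 2 ≤ k
  · have h1 := tau_le_of_ach (ach_words hk hR)
    have hpos := choose_pos' R k
    have h3 : (k + R).choose k = (k + R).choose R := Nat.choose_symm_add
    rw [h3] at h1
    have h4 : nu R k ≤ 27 * R * Real.log ((k + R : ℕ) : ℝ) := by
      unfold nu
      calc ((k + R).choose R : ℝ) * tau R k ≤ ((k + R).choose R : ℝ) *
            (27 * R * Real.log ((k + R : ℕ) : ℝ) / ((k + R).choose R : ℝ)) :=
            mul_le_mul_of_nonneg_left h1 hpos.le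
        _ = _ := by field_simp
    refine h4.trans ?_
    refine mul_le_mul_of_nonneg_left ?_ (by positivity)
    refine Real.log_le_log ?_ ?_
    · exact_mod_cast (by omega : 0 < k + R)
    · exact_mod_cast (by omega : k + R ≤ k + R + 1)
  · have hl2 : (1:ℝ) / 2 ≤ Real.log 2 := by have := Real.log_two_gt_d9; linarith
    have hl : Real.log 2 ≤ Real.log ((k + R + 1 : ℕ) : ℝ) := by
      refine Real.log_le_log (by norm_num) ?_
      exact_mod_cast (by omega : 2 ≤ k + R + 1)
    have h5 : nu R k ≤ R + 1 := by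
      unfold nu
      have h6 : ((k + R).choose R : ℝ) ≤ R + 1 := by
        have : (k + R).choose R ≤ R + 1 := by
          rcases (by omega : k = 0 ∨ k = 1) with rfl | rfl
          · simp
          · rw [add_comm 1 R, Nat.choose_succ_self_right]
        exact_mod_cast this
      calc ((k + R).choose R : ℝ) * tau R k ≤ ((k + R).choose R : ℝ) * 1 :=
            mul_le_mul_of_nonneg_left (tau_le_one R k) (Nat.cast_nonneg _)
        _ ≤ _ := by rw [mul_one]; exact h6
    have h7 : (1:ℝ) / 2 ≤ Real.log ((k + R + 1 : ℕ) : ℝ) := hl2.trans hl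
    nlinarith

/-- a power of two in `(x, 2x]` -/
lemma exists_field {x : ℝ} (hx : 1 ≤ x) : ∃ (Λ : Type) (_ : CommRing Λ) (_ : Fintype Λ)
    (_ : Nontrivial Λ), Helper4.Turan.Star Λ ∧ x ≤ (Fintype.card Λ : ℝ) ∧
      (Fintype.card Λ : ℝ) ≤ 2 * x ∧ (Fintype.card Λˣ : ℝ) = (Fintype.card Λ : ℝ) - 1 := by
  obtain ⟨n, h1, h2⟩ := exists_nat_pow_near hx (by norm_num : (1:ℝ) < 2)
  have : Fact (Nat.Prime 2) := ⟨Nat.prime_two⟩
  let _ : Fintype (GaloisField 2 (n + 1)) := Fintype.ofFinite _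
  have hcard : Fintype.card (GaloisField 2 (n + 1)) = 2 ^ (n + 1) := by
    rw [← Nat.card_eq_fintype_card, GaloisField.card 2 (n + 1) (by omega)]
  refine ⟨GaloisField 2 (n + 1), inferInstance, inferInstance, inferInstance,
    star_field _, ?_, ?_, ?_⟩
  · rw [hcard]; push_cast; exact h2.le
  · rw [hcard, pow_succ]; push_cast; linarith
  · have h3 : Fintype.card (GaloisField 2 (n + 1))ˣ = Fintype.card (GaloisField 2 (n + 1)) - 1 := by
      rw [← Nat.card_eq_fintype_card, ← Nat.card_eq_fintype_card, Nat.card_units]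
    have h4 : 1 ≤ Fintype.card (GaloisField 2 (n + 1)) := Fintype.card_pos
    rw [h3, Nat.cast_sub h4]
    simp

end Pool.Agent.Helper3.Turan
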