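import Pool.Agent.Helper3.UStep

/-!
Uniform bound in `k`: `C(k+R,R) (1 - π(K_{k+R}^k)) ≤ 300 R log (R+1)`.
-/

namespace Pool.Agent.Helper3.Turan

open Finset Pool.Agent.Helper4.Turan
open scoped Classical

/-- the lower tail is tiny -/
lemma tail_small {r R : ℕ} (hR : 1 ≤ R) (hr : r = R + 1) {T : ℝ} (hT1 : 8 * (r : ℝ) ^ 2 ≤ T)
    (hT2 : T ≤ 16 * (r : ℝ) ^ 2) :
    (4 * (r : ℝ)) ^ R * (R * (T ^ R * Real.exp (1 - T))) ≤ 1 / 40 := by
  have hRr : (R : ℝ) = r - 1 := by rw [hr]; push_cast; ring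
  have hr2 : (2:ℝ) ≤ r := by
    have : (1:ℝ) ≤ R := by exact_mod_cast hR
    linarith
  have hr0 : (0:ℝ) < r := by linarith
  have hT0 : 0 ≤ T := le_trans (by positivity) hT1
  have h4r : 4 * (r : ℝ) ≤ Real.exp (2 * r) := by
    have h1 := Real.quadratic_le_exp_of_nonneg (x := 2 * (r:ℝ)) (by linarith)
    nlinarith
  have hT3 : T ^ R ≤ (4 * (r : ℝ)) ^ R * (4 * (r : ℝ)) ^ R := by
    rw [← mul_pow]
    refine pow_le_pow_left₀ hT0 ?_ R
    nlinarith
  have h5 : (4 * (r : ℝ)) ^ R ≤ Real.exp (2 * r * R) := by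
    calc (4 * (r : ℝ)) ^ R ≤ (Real.exp (2 * r)) ^ R := pow_le_pow_left₀ (by positivity) h4r R
      _ = Real.exp (2 * r * R) := by rw [← Real.exp_nat_mul]; congr 1; ring
  have h6 : (R : ℝ) ≤ Real.exp R := by
    have := Real.add_one_le_exp (R : ℝ); linarith
  have h7 : Real.exp (1 - T) ≤ Real.exp (1 - 8 * (r:ℝ) ^ 2) := Real.exp_le_exp.2 (by linarith)
  have h8 : (4 * (r : ℝ)) ^ R * (R * (T ^ R * Real.exp (1 - T))) ≤
      Real.exp (2 * r * R) * (Real.exp R * ((Real.exp (2 * r * R) * Real.exp (2 * r * R)) *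
        Real.exp (1 - 8 * (r:ℝ) ^ 2))) := by
    refine mul_le_mul h5 ?_ (by positivity) (Real.exp_pos _).le
    refine mul_le_mul h6 ?_ (by positivity) (Real.exp_pos _).le
    refine mul_le_mul (hT3.trans ?_) h7 (Real.exp_pos _).le (by positivity)
    exact mul_le_mul h5 h5 (by positivity) (Real.exp_pos _).le
  refine h8.trans ?_
  rw [← Real.exp_add, ← Real.exp_add, ← Real.exp_add, ← Real.exp_add]
  have h9 : 2 * (r:ℝ) * R + (R + (2 * r * R + 2 * r * R + (1 - 8 * (r:ℝ) ^ 2))) ≤ -18 := by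
    rw [hRr]; nlinarith
  refine (Real.exp_le_exp.2 h9).trans ?_
  rw [Real.exp_neg, one_div]
  refine inv_anti₀ (by norm_num) ?_
  have h10 : Real.exp 18 = Real.exp 9 * Real.exp 9 := by rw [← Real.exp_add]; norm_num
  have h11 := Real.add_one_le_exp (9 : ℝ)
  rw [h10]
  nlinarith

/-- the error term is at most one -/
lemma err_small {r R k : ℕ} (hR : 1 ≤ R) (hr : r = R + 1) (hN : r ^ 10 ≤ k + R) {a b : ℝ}
    (ha : a = 1 - 1 / (4 * r)) (hb : b = 1 / (4 * r)) :
    ((k + R).choose R : ℝ) * (a ^ k + b ^ k) ≤ 1 := by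
  have hRr : (R : ℝ) = r - 1 := by rw [hr]; push_cast; ring
  have hR1 : (1:ℝ) ≤ R := by exact_mod_cast hR
  have hr2 : (2:ℝ) ≤ r := by linarith
  have hr0 : (0:ℝ) < r := by linarith
  set N : ℝ := ((k + R : ℕ) : ℝ) with hNdef
  have hNr : (r:ℝ) ^ 10 ≤ N := by rw [hNdef]; exact_mod_cast hN
  have hN64 : 64 * (r:ℝ) ^ 4 ≤ N := by
    have : (64:ℝ) ≤ (r:ℝ) ^ 6 := by
      calc (64:ℝ) = 2 ^ 6 := by norm_num
        _ ≤ _ := pow_le_pow_left₀ (by norm_num) hr2 6
    calc 64 * (r:ℝ) ^ 4 ≤ (r:ℝ) ^ 6 * (r:ℝ) ^ 4 := mul_le_mul_of_nonneg_right this (by positivity)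
      _ = (r:ℝ) ^ 10 := by ring
      _ ≤ N := hNr
  have hN0 : 0 < N := lt_of_lt_of_le (by positivity) hN64
  set y : ℝ := Real.sqrt N with hy
  have hyN : y * y = N := Real.mul_self_sqrt hN0.le
  have hy8 : 8 * (r:ℝ) ^ 2 ≤ y := by
    rw [hy]
    apply Real.le_sqrt_of_sq_le
    nlinarith
  have hy0 : 0 < y := lt_of_lt_of_le (by positivity) hy8
  have hlog : Real.log N ≤ y - 2 + 2 * Real.log 2 := by
    have h1 : Real.log N = 2 * Real.log y := by
      rw [← hyN, Real.log_mul hy0.ne' hy0.ne']; ring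
    have h2 := Real.log_le_sub_one_of_pos (half_pos hy0)
    rw [Real.log_div hy0.ne' (by norm_num)] at h2
    linarith
  have hl2 : Real.log 2 ≤ 7 / 10 := by have := Real.log_two_lt_d9; linarith
  have hk : N / 2 ≤ (k : ℝ) := by
    have h1 : N = k + R := by rw [hNdef]; push_cast; ring
    have h2 : 2 * (R:ℝ) ≤ N := by nlinarith [pow_pos hr0 4, pow_pos hr0 3, pow_pos hr0 2]
    linarith
  -- `C(k+R,R) ≤ N^R = exp (R log N)`
  have hC : ((k + R).choose R : ℝ) ≤ Real.exp (R * Real.log N) := by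
    rw [Real.exp_nat_mul, Real.exp_log hN0, hNdef]
    exact_mod_cast Nat.choose_le_pow (k + R) R
  have hba : b ≤ a := by
    rw [ha, hb]
    have : 1 / (4 * (r:ℝ)) ≤ 1 / 8 := one_div_le_one_div_of_le (by norm_num) (by linarith)
    linarith
  have hb0 : 0 ≤ b := by rw [hb]; positivity
  have haexp : a ≤ Real.exp (-(1 / (4 * r))) := by
    have := Real.add_one_le_exp (-(1 / (4 * (r:ℝ)))); rw [ha]; linarith
  have hak : a ^ k ≤ Real.exp (-(k / (4 * r))) := by
    calc a ^ k ≤ (Real.exp (-(1 / (4 * r)))) ^ k := pow_le_pow_left₀ (hb0.trans hba) haexp k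
      _ = _ := by rw [← Real.exp_nat_mul]; congr 1; ring
  have hbk : b ^ k ≤ a ^ k := pow_le_pow_left₀ hb0 hba k
  have h3 : a ^ k + b ^ k ≤ Real.exp (1 - k / (4 * r)) := by
    have h4 : a ^ k + b ^ k ≤ 2 * Real.exp (-(k / (4 * r))) := by linarith
    have h5 : (2:ℝ) ≤ Real.exp 1 := by have := Real.exp_one_gt_d9; linarith
    have h6 : Real.exp (1 - k / (4 * r)) = Real.exp 1 * Real.exp (-(k / (4 * r))) := by
      rw [← Real.exp_add]; congr 1
    rw [h6]
    have := mul_le_mul_of_nonneg_right h5 (Real.exp_pos (-(k / (4 * (r:ℝ))))).le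
    linarith
  have h7 : ((k + R).choose R : ℝ) * (a ^ k + b ^ k) ≤
      Real.exp (R * Real.log N) * Real.exp (1 - k / (4 * r)) :=
    mul_le_mul hC h3 (add_nonneg (pow_nonneg (hb0.trans hba) _) (pow_nonneg hb0 _))
      (Real.exp_pos _).le
  refine h7.trans ?_
  rw [← Real.exp_add, Real.exp_le_one_iff]
  have h8 : R * Real.log N ≤ R * y - 6 / 10 * R := by
    have : Real.log N ≤ y - 6 / 10 := by linarith
    have := mul_le_mul_of_nonneg_left this (Nat.cast_nonneg R : (0:ℝ) ≤ R)
    linarith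
  have h9 : R * y + 1 ≤ (k : ℝ) / (4 * r) := by
    rw [le_div_iff₀ (by positivity)]
    have h10 : (R * y + 1) * (4 * r) ≤ N / 2 := by
      rw [← hyN]
      have h11 : 8 * (r:ℝ) ^ 2 * y ≤ y * y := mul_le_mul_of_nonneg_right hy8 hy0.le
      have h12 : (R * y + 1) * (4 * r) ≤ 4 * (r:ℝ) ^ 2 * y := by
        rw [hRr]
        have : 1 ≤ y := by nlinarith
        nlinarith [mul_pos hr0 hy0]
      linarith
    linarith
  nlinarith

/-- **Part 2**: the normalised densities are at most `300 R log (R+1)` -/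
theorem nu_uniform {R : ℕ} (hR : 1 ≤ R) (k : ℕ) :
    nu R k ≤ 300 * R * Real.log ((R + 1 : ℕ) : ℝ) := by
  have hR1 : (1 : ℝ) ≤ R := by exact_mod_cast hR
  obtain ⟨r, hr⟩ : ∃ r : ℕ, r = R + 1 := ⟨_, rfl⟩
  have hRr : (R : ℝ) = r - 1 := by rw [hr]; push_cast; ring
  have hr2 : (2:ℝ) ≤ r := by linarith
  have hr0 : (0:ℝ) < r := by linarith
  rw [← hr]
  set lr : ℝ := Real.log (r : ℝ) with hlr
  have hlr2 : 69 / 100 ≤ lr := by
    have h1 : Real.log 2 ≤ lr := Real.log_le_log (by norm_num) hr2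
    have := Real.log_two_gt_d9
    linarith
  have hRl : 69 / 100 ≤ R * lr := by nlinarith
  set M : ℝ := 300 * R * lr with hM
  have hM0 : 0 ≤ M := by positivity
  induction k using Nat.strong_induction_on with
  | _ k ih =>
    by_cases hk : k + R + 1 ≤ r ^ 10
    · refine (nu_le_log hR k).trans ?_
      have h1 : Real.log ((k + R + 1 : ℕ) : ℝ) ≤ 10 * lr := by
        calc Real.log ((k + R + 1 : ℕ) : ℝ) ≤ Real.log ((r : ℝ) ^ 10) := by
              refine Real.log_le_log (by positivity) ?_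
              exact_mod_cast hk
          _ = 10 * lr := by rw [Real.log_pow]; norm_num; rfl
      have h2 := mul_le_mul_of_nonneg_left h1 (by positivity : (0:ℝ) ≤ 27 * R)
      rw [hM]
      nlinarith
    · have hkN : r ^ 10 ≤ k + R := by omega
      set N : ℝ := ((k + R : ℕ) : ℝ) with hN
      have hNr : (r:ℝ) ^ 10 ≤ N := by rw [hN]; exact_mod_cast hkN
      have hNpos : 0 < N := lt_of_lt_of_le (by positivity) hNr
      set a : ℝ := 1 - 1 / (4 * r) with ha
      set b : ℝ := 1 / (4 * r) with hb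
      have hb0 : 0 < b := by positivity
      have hb8 : b ≤ 1 / 8 := by
        rw [hb]; exact one_div_le_one_div_of_le (by norm_num) (by linarith)
      have ha0 : 0 < a := by rw [ha]; linarith
      have ha78 : 7 / 8 ≤ a := by rw [ha]; linarith
      have hab : a + b = 1 := by rw [ha, hb]; ring
      have ha1 : a ≤ 1 := by linarith
      set T1 : ℝ := 16 * (r:ℝ) ^ 2 with hT1
      have hT1pos : 0 < T1 := by positivity
      set x : ℝ := a * N / T1 with hx
      -- x is large
      have hr8 : (256:ℝ) ≤ (r:ℝ) ^ 8 := by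
        calc (256:ℝ) = 2 ^ 8 := by norm_num
          _ ≤ _ := pow_le_pow_left₀ (by norm_num) hr2 8
      have hxr : 7 / 128 * (r:ℝ) ^ 8 ≤ x := by
        rw [hx, le_div_iff₀ hT1pos, hT1]
        have h1 : 7 / 8 * (r:ℝ) ^ 10 ≤ a * N := mul_le_mul ha78 hNr (by positivity) ha0.le
        calc 7 / 128 * (r:ℝ) ^ 8 * (16 * (r:ℝ) ^ 2) = 7 / 8 * (r:ℝ) ^ 10 := by ring
          _ ≤ _ := h1
      have hx14 : 14 ≤ x := by linarith
      obtain ⟨Λ, i1, i2, i3, hΛ, hQ1, hQ2, hQu⟩ := exists_field (x := x) (by linarith)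
      set Q : ℝ := (Fintype.card Λ : ℝ) with hQdef
      set u : ℝ := (Fintype.card Λˣ : ℝ) with hudef
      have hQ14 : 14 ≤ Q := hx14.trans hQ1
      have hQpos : 0 < Q := by linarith
      have hupos : 0 < u := by rw [hQu]; linarith
      have hQu14 : Q / u ≤ 14 / 13 := by
        rw [div_le_div_iff₀ hupos (by norm_num), hQu]; linarith
      set T : ℝ := N * (a / Q) with hT
      have hTle : T ≤ T1 := by
        rw [hT]
        have h1 : a * N ≤ Q * T1 := by
          rw [hx, div_le_iff₀ hT1pos] at hQ1; exact hQ1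
        calc N * (a / Q) = (a * N) / Q := by ring
          _ ≤ T1 := by rw [div_le_iff₀ hQpos]; linarith
      have hTge : T1 / 2 ≤ T := by
        rw [hT]
        have h1 : Q * T1 ≤ 2 * (a * N) := by
          have h2 := mul_le_mul_of_nonneg_right hQ2 hT1pos.le
          have e : 2 * x * T1 = 2 * (a * N) := by
            rw [hx]; field_simp
          linarith
        calc T1 / 2 ≤ (a * N) / Q := by
              rw [le_div_iff₀ hQpos]; linarith
          _ = N * (a / Q) := by ring
      have hT8 : 8 * (r:ℝ) ^ 2 ≤ T := by rw [hT1] at hTge; linarith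
      have hT32 : 32 ≤ T := by nlinarith
      have hp0 : 0 ≤ a / Q := by positivity
      have hp1 : a / Q ≤ 1 := by rw [div_le_iff₀ hQpos]; linarith
      have hpR : a / Q * R ≤ 1 := by
        rw [div_mul_eq_mul_div, div_le_iff₀ hQpos, one_mul]
        have h1 : a * R ≤ r := by rw [hRr]; nlinarith
        have h2 : (r:ℝ) ≤ 7 / 128 * (r:ℝ) ^ 8 := by
          have : (128:ℝ) ≤ (r:ℝ) ^ 7 := by
            calc (128:ℝ) = 2 ^ 7 := by norm_num
              _ ≤ _ := pow_le_pow_left₀ (by norm_num) hr2 7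
          calc (r:ℝ) ≤ 7 / 128 * (128 * r) := by linarith
            _ ≤ 7 / 128 * ((r:ℝ) ^ 7 * r) := by
                refine mul_le_mul_of_nonneg_left ?_ (by norm_num)
                exact mul_le_mul_of_nonneg_right this hr0.le
            _ = _ := by ring
        linarith
      have hstep := stepB (R := R) (k := k) hR Λ hΛ ha0 hb0 hab hM0 ih
      rw [← hQdef, ← hudef] at hstep
      -- error term
      have herr := err_small (k := k) hR hr hkN ha hb
      -- first sum
      have haR : 3 / 4 ≤ a ^ R := by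
        have h1 := one_add_mul_le_pow (a := -b) (by linarith) R
        have h2 : 1 + -b = a := by linarith
        rw [h2] at h1
        have h3 : (R:ℝ) * b ≤ 1 / 4 := by
          rw [hb, mul_one_div, div_le_div_iff₀ (by positivity) (by norm_num)]
          rw [hRr]; linarith
        linarith
      have haR' : 1 / a ^ R ≤ 4 / 3 := by
        rw [div_le_div_iff₀ (by positivity) (by norm_num)]; linarith
      have hfirst : ∑ j ∈ range k, beta (k + R) (a / Q) (j + R) * nu R j ≤
          27 * R * (7 * lr) := by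
        calc ∑ j ∈ range k, beta (k + R) (a / Q) (j + R) * nu R j
            ≤ ∑ j ∈ range k, beta (k + R) (a / Q) (j + R) *
              (27 * R * Real.log ((j + R + 1 : ℕ) : ℝ)) :=
              sum_le_sum fun j _ => mul_le_mul_of_nonneg_left (nu_le_log hR j)
                (beta_nonneg hp0 hp1 _)
          _ = 27 * R * ∑ j ∈ range k, beta (k + R) (a / Q) (j + R) *
              Real.log ((j + R + 1 : ℕ) : ℝ) := by
              rw [mul_sum]
              refine sum_congr rfl fun j _ => ?_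
              ring
          _ ≤ 27 * R * (7 * lr) := by
              refine mul_le_mul_of_nonneg_left ?_ (by positivity)
              refine (sum_beta_log (R := R) (k := k) hp0 hp1).trans ?_
              rw [← hN, ← hT]
              have h4 : 7 * lr = Real.log ((r:ℝ) ^ 7) := by
                rw [Real.log_pow]; norm_num; rfl
              rw [h4]
              refine Real.log_le_log (by linarith) ?_
              have h5 : (32:ℝ) ≤ (r:ℝ) ^ 5 := by
                calc (32:ℝ) = 2 ^ 5 := by norm_num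
                  _ ≤ _ := pow_le_pow_left₀ (by norm_num) hr2 5
              have h6 : 32 * (r:ℝ) ^ 2 ≤ (r:ℝ) ^ 7 := by
                calc 32 * (r:ℝ) ^ 2 ≤ (r:ℝ) ^ 5 * (r:ℝ) ^ 2 :=
                      mul_le_mul_of_nonneg_right h5 (by positivity)
                  _ = _ := by ring
              rw [hT1] at hTle
              nlinarith
      have hsum0 : 0 ≤ ∑ j ∈ range k, beta (k + R) (a / Q) (j + R) * nu R j :=
        sum_nonneg fun j _ => mul_nonneg (beta_nonneg hp0 hp1 _) (nu_nonneg _ _)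
      have hQu0 : 0 ≤ Q / u := by positivity
      have hA : Q / u * (1 / a ^ R * ∑ j ∈ range k, beta (k + R) (a / Q) (j + R) * nu R j) ≤
          14 / 13 * (4 / 3 * (27 * R * (7 * lr))) := by
        refine mul_le_mul hQu14 ?_ (mul_nonneg (by positivity) hsum0) (by norm_num)
        exact mul_le_mul haR' hfirst hsum0 (by norm_num)
      -- second sum
      have hlow := sum_beta_low (N := k + R) (R := R) hp0 hp1 hpR (by omega)
        (by rw [← hN, ← hT]; linarith)
      rw [← hN, ← hT] at hlow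
      have htail := tail_small hR hr hT8 (by rw [hT1] at hTle; exact hTle)
      have hbR : 1 / b ^ R = (4 * (r:ℝ)) ^ R := by
        rw [hb, one_div, one_div, inv_pow, inv_inv]
      have hB : Q / u * (M / b ^ R * ∑ i ∈ range R, beta (k + R) (a / Q) i) ≤
          14 / 13 * (M * (1 / 40)) := by
        have h0 : 0 ≤ ∑ i ∈ range R, beta (k + R) (a / Q) i :=
          sum_nonneg fun i _ => beta_nonneg hp0 hp1 _
        refine mul_le_mul hQu14 ?_ (mul_nonneg (by positivity) h0) (by norm_num)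
        calc M / b ^ R * ∑ i ∈ range R, beta (k + R) (a / Q) i
            = M * ((4 * (r:ℝ)) ^ R * ∑ i ∈ range R, beta (k + R) (a / Q) i) := by
              rw [← hbR]; ring
          _ ≤ M * ((4 * (r:ℝ)) ^ R * (R * (T ^ R * Real.exp (1 - T)))) := by
              refine mul_le_mul_of_nonneg_left ?_ hM0
              exact mul_le_mul_of_nonneg_left hlow (by positivity)
          _ ≤ M * (1 / 40) := mul_le_mul_of_nonneg_left htail hM0
      have hC : 14 / 13 * (4 / 3 * (27 * R * (7 * lr))) ≤ 272 * (R * lr) := by nlinarith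
      have hD : M = 300 * (R * lr) := by rw [hM]; ring
      rw [hD] at hB ⊢
      have : ((k + R).choose R : ℝ) * (a ^ k + b ^ k) +
        Q / u * (1 / a ^ R * ∑ j ∈ range k, beta (k + R) (a / Q) (j + R) * nu R j) +
        Q / u * (300 * (R * lr) / b ^ R * ∑ i ∈ range R, beta (k + R) (a / Q) i) ≤
        300 * (R * lr) := by linarith
      rw [hD] at hstep
      exact hstep.trans this

end Pool.Agent.Helper3.Turan
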