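import Pool.Agent.Helper3.SysR

/-!
Random words: `C(k+R,R) (1 - π(K_{k+R}^k)) ≤ 27 R log (k+R)`.
-/

namespace Pool.Agent.Helper3.Turan

open Finset Pool.Agent.Helper4.Turan
open scoped Classical

/-! ### Words -/

section Words

variable {k m N : ℕ}

/-- positions whose letter is repeated -/
noncomputable def Jset {m N : ℕ} (f : Fin m → Fin N) : Finset (Fin m) :=
  univ.filter fun i => ∃ i', i' ≠ i ∧ f i' = f i

/-- restriction of a word to a `k`-set of positions -/
def res (f : Fin m → Fin N) (P : Finset (Fin m)) (hP : P.card = k) : Fin k → Fin N :=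
  fun i => f (P.orderEmbOfFin hP i)

lemma exists_emb_eq {P : Finset (Fin m)} (hP : P.card = k) {x : Fin m} (hx : x ∈ P) :
    ∃ i, P.orderEmbOfFin hP i = x := by
  have h := Finset.range_orderEmbOfFin P hP
  have : x ∈ Set.range (P.orderEmbOfFin hP) := by rw [h]; exact hx
  exact this

lemma map_Jset_res (f : Fin m → Fin N) {P : Finset (Fin m)} (hP : P.card = k) (hJ : Jset f ⊆ P) :
    (Jset (res f P hP)).map (P.orderEmbOfFin hP).toEmbedding = Jset f := by
  ext x
  rw [Finset.mem_map]
  constructor
  · rintro ⟨i, hi, rfl⟩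
    obtain ⟨i', h1, h2⟩ := (mem_filter.1 hi).2
    refine mem_filter.2 ⟨mem_univ _, P.orderEmbOfFin hP i', ?_, h2⟩
    exact fun h => h1 ((P.orderEmbOfFin hP).injective h)
  · intro hx
    obtain ⟨i, hi⟩ := exists_emb_eq hP (hJ hx)
    obtain ⟨y, h1, h2⟩ := (mem_filter.1 hx).2
    have hy : y ∈ Jset f := mem_filter.2 ⟨mem_univ _, x, fun h => h1 h.symm, h2.symm⟩
    obtain ⟨i', hi'⟩ := exists_emb_eq hP (hJ hy)
    refine ⟨i, mem_filter.2 ⟨mem_univ _, i', ?_, ?_⟩, hi⟩
    · rintro rfl
      exact h1 (hi'.symm.trans hi)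
    · unfold res
      rw [hi', hi, h2]

lemma card_Jset_res (f : Fin m → Fin N) {P : Finset (Fin m)} (hP : P.card = k)
    (hJ : Jset f ⊆ P) : (Jset (res f P hP)).card = (Jset f).card := by
  rw [← map_Jset_res f hP hJ, card_map]

lemma res_inj (f : Fin m → Fin N) {P P' : Finset (Fin m)} (hP : P.card = k) (hP' : P'.card = k)
    (hJ' : Jset f ⊆ P') (h : res f P hP = res f P' hP') : P = P' := by
  have hsub : P ⊆ P' := by
    intro x hx
    by_cases hxJ : x ∈ Jset f
    · exact hJ' hxJ
    · obtain ⟨i, hi⟩ := exists_emb_eq hP hx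
      have h1 := congrFun h i
      unfold res at h1
      rw [hi] at h1
      by_contra hcon
      refine hxJ (mem_filter.2 ⟨mem_univ _, P'.orderEmbOfFin hP' i, ?_, h1.symm⟩)
      rintro rfl
      exact hcon (P'.orderEmbOfFin_mem hP' i)
  exact eq_of_subset_of_card_le hsub (by rw [hP, hP'])

/-- the elements of `S` whose letter appears once in `S` -/
noncomputable def lone (f : Fin m → Fin N) (S : Finset (Fin m)) : Finset (Fin m) :=
  S.filter fun x => ∀ y ∈ S, y ≠ x → f y ≠ f x

lemma exists_sub_lone (f : Fin m → Fin N) (n : ℕ) : ∀ S : Finset (Fin m), S.card = k + n →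
    (lone f S).card ≤ 1 → ∃ P ⊆ S, P.card = k ∧ (lone f P).card ≤ 1 := by
  induction n with
  | zero => exact fun S hS hl => ⟨S, Subset.rfl, hS, hl⟩
  | succ n ih =>
    intro S hS hl
    obtain ⟨x, hx, hxl⟩ : ∃ x ∈ S, (lone f (S.erase x)).card ≤ 1 := by
      rcases Nat.eq_zero_or_pos (lone f S).card with h0 | hpos
      · rw [card_eq_zero] at h0
        have hne : S.Nonempty := by rw [← card_pos]; omega
        obtain ⟨x, hx⟩ := hne
        refine ⟨x, hx, ?_⟩
        rw [card_le_one]
        have key : ∀ y ∈ lone f (S.erase x), f y = f x := by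
          intro y hy
          obtain ⟨hy1, hy2⟩ := mem_filter.1 hy
          have hyS := (mem_erase.1 hy1).2
          have : y ∉ lone f S := by rw [h0]; exact notMem_empty _
          have h3 : ∃ z ∈ S, z ≠ y ∧ f z = f y := by
            by_contra hcon
            push Not at hcon
            exact this (mem_filter.2 ⟨hyS, hcon⟩)
          obtain ⟨z, hz, hzy, hfz⟩ := h3
          by_cases hzx : z = x
          · rw [← hzx]; exact hfz.symm
          · exact absurd hfz (hy2 z (mem_erase.2 ⟨hzx, hz⟩) hzy)
        intro y hy z hz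
        by_contra hne
        have h1 := key y hy
        have h2 := key z hz
        exact (mem_filter.1 hy).2 z (mem_filter.1 hz).1 (Ne.symm hne) (h2.trans h1.symm)
      · obtain ⟨x, hx⟩ := card_pos.1 hpos
        refine ⟨x, (mem_filter.1 hx).1, ?_⟩
        have : lone f (S.erase x) = ∅ := by
          rw [eq_empty_iff_forall_notMem]
          intro y hy
          obtain ⟨hy1, hy2⟩ := mem_filter.1 hy
          obtain ⟨hyx, hyS⟩ := mem_erase.1 hy1
          have hyl : y ∈ lone f S := by
            refine mem_filter.2 ⟨hyS, fun z hz hzy => ?_⟩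
            by_cases hzx : z = x
            · rw [hzx]
              exact fun h => (mem_filter.1 hx).2 y hyS hyx h.symm
            · exact hy2 z (mem_erase.2 ⟨hzx, hz⟩) hzy
          exact hyx (card_le_one.1 hl y hyl x hx)
        rw [this]; simp
    obtain ⟨P, hP, h1, h2⟩ := ih (S.erase x) (by rw [card_erase_of_mem hx]; omega) hxl
    exact ⟨P, hP.trans (erase_subset _ _), h1, h2⟩

lemma card_Jset_res_ge (f : Fin m → Fin N) {P : Finset (Fin m)} (hP : P.card = k)
    (h : (lone f P).card ≤ 1) : k ≤ (Jset (res f P hP)).card + 1 := by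
  have h1 : ((Jset (res f P hP))ᶜ).map (P.orderEmbOfFin hP).toEmbedding ⊆ lone f P := by
    intro x hx
    obtain ⟨i, hi, rfl⟩ := Finset.mem_map.1 hx
    refine mem_filter.2 ⟨P.orderEmbOfFin_mem hP i, ?_⟩
    intro y hy hyx hfy
    obtain ⟨i', rfl⟩ := exists_emb_eq hP hy
    refine (mem_compl.1 hi) (mem_filter.2 ⟨mem_univ _, i', ?_, hfy⟩)
    rintro rfl
    exact hyx rfl
  have h2 := card_le_card h1
  rw [card_map, card_compl, Fintype.card_fin] at h2
  omega

/-- the fractional weights -/
noncomputable def pw (m k j : ℕ) : ℝ :=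
  if k ≤ j + 1 then 1 else 1 / (((m - j).choose (k - j) : ℕ) : ℝ)

lemma pw_nonneg (m k j : ℕ) : 0 ≤ pw m k j := by
  unfold pw
  split_ifs <;> positivity

/-- `g` is a subword of `f` -/
def Sub (g : Fin k → Fin N) (f : Fin m → Fin N) : Prop :=
  ∃ (P : Finset (Fin m)) (hP : P.card = k), res f P hP = g

lemma cover_sum (hk : k ≤ m) (f : Fin m → Fin N) :
    1 ≤ ∑ g : Fin k → Fin N, if Sub g f then pw m k (Jset g).card else 0 := by
  have hnn : ∀ g : Fin k → Fin N, 0 ≤ (if Sub g f then pw m k (Jset g).card else 0) := by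
    intro g
    split_ifs
    · exact pw_nonneg _ _ _
    · exact le_rfl
  -- a subword with weight one suffices
  have hone : ∀ (P : Finset (Fin m)) (hP : P.card = k), k ≤ (Jset (res f P hP)).card + 1 →
      1 ≤ ∑ g : Fin k → Fin N, if Sub g f then pw m k (Jset g).card else 0 := by
    intro P hP hJ
    have h1 := single_le_sum (f := fun g : Fin k → Fin N =>
      if Sub g f then pw m k (Jset g).card else 0) (fun g _ => hnn g) (mem_univ (res f P hP))
    refine le_trans (le_of_eq ?_) h1
    rw [if_pos ⟨P, hP, rfl⟩]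
    unfold pw
    rw [if_pos hJ]
  by_cases hJk : (Jset f).card ≤ k
  · by_cases hJk1 : k ≤ (Jset f).card + 1
    · obtain ⟨P, hP1, hP2⟩ := exists_superset_card_eq hJk (by rw [Fintype.card_fin]; exact hk)
      exact hone P hP2 (by rw [card_Jset_res f hP2 hP1]; exact hJk1)
    · set J := Jset f with hJdef
      set j := J.card with hj
      have hc : ∀ P' : {x // x ∈ powersetCard (k - j) Jᶜ}, (J ∪ P'.1).card = k := by
        intro P'
        obtain ⟨h1, h2⟩ := mem_powersetCard.1 P'.2
        rw [card_union_of_disjoint, h2]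
        · omega
        · rw [disjoint_left]
          intro x hx hx'
          exact (mem_compl.1 (h1 hx')) hx
      let A : Finset (Fin k → Fin N) :=
        (powersetCard (k - j) Jᶜ).attach.image fun P' => res f (J ∪ P'.1) (hc P')
      have hA : A.card = (m - j).choose (k - j) := by
        rw [card_image_of_injOn, card_attach, card_powersetCard, card_compl, Fintype.card_fin]
        intro P1 _ P2 _ h12
        have h3 := res_inj f (hc P1) (hc P2) subset_union_left h12
        apply Subtype.ext
        obtain ⟨h4, _⟩ := mem_powersetCard.1 P1.2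
        obtain ⟨h5, _⟩ := mem_powersetCard.1 P2.2
        ext x
        constructor
        · intro hx
          have h6 : x ∈ J ∪ P2.1 := by rw [← h3]; exact mem_union_right _ hx
          rcases mem_union.1 h6 with h | h
          · exact absurd h (mem_compl.1 (h4 hx))
          · exact h
        · intro hx
          have h6 : x ∈ J ∪ P1.1 := by rw [h3]; exact mem_union_right _ hx
          rcases mem_union.1 h6 with h | h
          · exact absurd h (mem_compl.1 (h5 hx))
          · exact h
      have hpos : (0:ℝ) < (((m - j).choose (k - j) : ℕ) : ℝ) := by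
        exact_mod_cast Nat.choose_pos (by omega)
      calc (1:ℝ) = ∑ g ∈ A, 1 / (((m - j).choose (k - j) : ℕ) : ℝ) := by
            rw [sum_const, hA, nsmul_eq_mul, mul_one_div, div_self hpos.ne']
        _ ≤ ∑ g ∈ A, if Sub g f then pw m k (Jset g).card else 0 := by
            refine sum_le_sum fun g hg => ?_
            obtain ⟨P', _, rfl⟩ := mem_image.1 hg
            rw [if_pos ⟨_, hc P', rfl⟩, card_Jset_res f (hc P') subset_union_left]
            unfold pw
            rw [if_neg hJk1]
        _ ≤ _ := sum_le_sum_of_subset_of_nonneg (subset_univ _) fun g _ _ => hnn g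
  · push Not at hJk
    obtain ⟨P, _, hP2, hP3⟩ := exists_sub_lone (k := k) f ((Jset f).card - k) (Jset f) (by omega) (by
      have : lone f (Jset f) = ∅ := by
        rw [eq_empty_iff_forall_notMem]
        intro x hx
        obtain ⟨h1, h2⟩ := mem_filter.1 hx
        obtain ⟨y, h3, h4⟩ := (mem_filter.1 h1).2
        exact h2 y (mem_filter.2 ⟨mem_univ _, x, fun h => h3 h.symm, h4.symm⟩) h3 h4
      rw [this]; simp)
    exact hone P hP2 (card_Jset_res_ge f hP2 hP3)

/-- number of words with a given repetition set -/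
lemma count_Jset (hN : 0 < N) (J : Finset (Fin k)) :
    ((univ : Finset (Fin k → Fin N)).filter fun g => Jset g = J).card ≤
      N ^ (k - J.card) * (N ^ (J.card / 2) * (J.card / 2) ^ J.card) := by
  set h := J.card / 2 with hh
  let F : ((↥(Jᶜ) → Fin N) × (Fin h → Fin N) × (↥J → Fin h)) → (Fin k → Fin N) := fun q i =>
    if hi : i ∈ J then q.2.1 (q.2.2 ⟨i, hi⟩) else q.1 ⟨i, mem_compl.2 hi⟩
  have hsub : ((univ : Finset (Fin k → Fin N)).filter fun g => Jset g = J) ⊆ univ.image F := by
    intro g hg
    have hgJ : Jset g = J := (mem_filter.1 hg).2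
    have h2 : 2 * (J.image g).card ≤ J.card := by
      rw [card_eq_sum_card_image g J, mul_comm, ← smul_eq_mul]
      refine card_nsmul_le_sum _ _ _ ?_
      intro v hv
      obtain ⟨x, hx, rfl⟩ := mem_image.1 hv
      have hx' := hx
      rw [← hgJ] at hx'
      obtain ⟨y, h1, h3⟩ := (mem_filter.1 hx').2
      have hy : y ∈ J := by
        rw [← hgJ]
        exact mem_filter.2 ⟨mem_univ _, x, fun h => h1 h.symm, h3.symm⟩
      have : ({x, y} : Finset (Fin k)) ⊆ J.filter (fun a => g a = g x) := by
        intro z hz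
        rw [mem_insert, mem_singleton] at hz
        rcases hz with rfl | rfl
        · exact mem_filter.2 ⟨hx, rfl⟩
        · exact mem_filter.2 ⟨hy, h3⟩
      have h4 := card_le_card this
      rwa [card_pair (Ne.symm h1)] at h4
    have h3 : (J.image g).card ≤ h := by omega
    let e := (J.image g).equivFin
    refine mem_image.2 ⟨⟨fun i => g i.1, fun i => if hi : i.1 < (J.image g).card then
      (e.symm ⟨i.1, hi⟩).1 else ⟨0, hN⟩, fun i => Fin.castLE h3 (e ⟨g i.1, mem_image_of_mem g i.2⟩)⟩,
      mem_univ _, ?_⟩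
    funext i
    by_cases hi : i ∈ J
    · have hlt : (e ⟨g i, mem_image_of_mem g hi⟩).1 < (J.image g).card := Fin.is_lt _
      simp only [F, dif_pos hi]
      rw [dif_pos (by simp)]
      have : (⟨(Fin.castLE h3 (e ⟨g i, mem_image_of_mem g hi⟩)).1, by simp⟩ :
          Fin (J.image g).card) = e ⟨g i, mem_image_of_mem g hi⟩ := by
        apply Fin.ext; simp
      rw [this, Equiv.symm_apply_apply]
    · simp only [F, dif_neg hi]
  refine (card_le_card hsub).trans (card_image_le.trans ?_)
  rw [card_univ, Fintype.card_prod, Fintype.card_prod, Fintype.card_fun, Fintype.card_fun,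
    Fintype.card_fun, Fintype.card_fin, Fintype.card_fin, Fintype.card_coe, Fintype.card_coe,
    card_compl, Fintype.card_fin]

lemma sum_pw_le (hN : 0 < N) :
    ∑ g : Fin k → Fin N, pw m k (Jset g).card ≤
      ∑ j ∈ range (k + 1), (k.choose j : ℝ) * (pw m k j *
        ((N : ℝ) ^ (k - j) * ((N : ℝ) ^ (j / 2) * ((j / 2 : ℕ) : ℝ) ^ j))) := by
  have h1 : ∑ g : Fin k → Fin N, pw m k (Jset g).card =
      ∑ J : Finset (Fin k), ∑ g ∈ (univ : Finset (Fin k → Fin N)).filter (fun g => Jset g = J),
        pw m k J.card := by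
    rw [← sum_fiberwise (univ : Finset (Fin k → Fin N)) Jset]
    refine sum_congr rfl fun J _ => sum_congr rfl fun g hg => ?_
    rw [(mem_filter.1 hg).2]
  rw [h1]
  have h2 := sum_powerset_apply_card (x := (univ : Finset (Fin k))) (fun j => pw m k j *
        ((N : ℝ) ^ (k - j) * ((N : ℝ) ^ (j / 2) * ((j / 2 : ℕ) : ℝ) ^ j)))
  rw [card_univ, Fintype.card_fin, powerset_univ] at h2
  simp only [nsmul_eq_mul] at h2
  rw [← h2]
  refine sum_le_sum fun J _ => ?_
  rw [sum_const, nsmul_eq_mul, mul_comm]
  refine mul_le_mul_of_nonneg_left ?_ (pw_nonneg _ _ _)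
  exact_mod_cast count_Jset hN J

end Words

end Pool.Agent.Helper3.Turan
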